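import Pool.Agent.H623R2.PS.Defs

/-!
# Long-term prediction of networks of cells over a finite group
-/

namespace Pool.Agent.W995.PN

open Pool.Agent.NPC

variable {G : Type} [Group G] [Fintype G]

/-- The element of the group with number `c` (the neutral element if there is none). -/
def el (e : Fin (Fintype.card G) ≃ G) (c : ℕ) : G :=
  if h : c < Fintype.card G then e ⟨c, h⟩ else 1

/-- The value of a letter in the state `x`: the letter `(false, i)` stands for the content of the
cell `i` and the letter `(true, c)` for the element with number `c`. -/
def letter (e : Fin (Fintype.card G) ≃ G) (x : ℕ → G) (l : Bool × ℕ) : G :=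
  bif l.1 then el e l.2 else x l.2

/-- One step of the network with the words `W`: the new content of the cell `i` is the product of
the letters of the `i`-th word. -/
def step (e : Fin (Fintype.card G) ≃ G) (W : List (List (Bool × ℕ))) (x : ℕ → G) : ℕ → G :=
  fun i => ((W.getD i []).map (letter e x)).prod

/-- The initial state, given by a list of numbers of elements. -/
def start (e : Fin (Fintype.card G) ≃ G) (s : List ℕ) : ℕ → G :=
  fun i => (s.map (el e)).getD i 1

/-- The prediction problem for networks over `G`: given words `W`, an initial state `s`, a time `T`
(in binary), a cell `i` and (the number of) an element `h`, is the content of the cell `i` after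
`T` steps equal to `h`? -/
def PRED (e : Fin (Fintype.card G) ≃ G)
    (I : List (List (Bool × ℕ)) × List ℕ × ℕ × ℕ × ℕ) : Prop :=
  (step e I.1)^[I.2.2.1] (start e I.2.1) I.2.2.2.1 = el e I.2.2.2.2

end Pool.Agent.W995.PN
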