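import Pool.Agent.W995.PN.Nil

/-!
# Prediction for networks over nilpotent groups is in `P`
-/

namespace Pool.Agent.W995.PN

open Pool.Agent.NPC

section gen

variable {α β : Type} [TEnc α] [TEnc β]

theorem poly_headD' {l : α → List β} {d : α → β} (hl : NPC.Poly l) (hd : NPC.Poly d) :
    NPC.Poly (fun a => (l a).headD (d a)) := by
  refine (NPC.Poly.optGetD (NPC.Poly.head? hl) hd).congr fun a => ?_
  cases l a <;> rfl

attribute [fun_prop] poly_headD'

theorem poly_lk {d : α → β} {ms : α → List Mn} {C : α → List β} {μ : α → Mn} (hd : NPC.Poly d)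
    (hms : NPC.Poly ms) (hC : NPC.Poly C) (hμ : NPC.Poly μ) :
    NPC.Poly (fun a => lk (d a) (ms a) (C a) (μ a)) := by
  unfold lk
  fun_prop

attribute [fun_prop] poly_lk

theorem poly_wtM {μ : α → Mn} (hμ : NPC.Poly μ) : NPC.Poly (fun a => wtM (μ a)) := by
  unfold wtM
  fun_prop

attribute [fun_prop] poly_wtM

theorem poly_varsL (r : ℕ) {n : α → ℕ} (hn : NPC.Poly (fun a => List.range (n a))) :
    NPC.Poly (fun a => varsL r (n a)) := by
  unfold varsL
  fun_prop

theorem poly_lstM (r : ℕ) {n : α → ℕ} (hn : NPC.Poly (fun a => List.range (n a))) (k : ℕ) :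
    NPC.Poly (fun a => lstM r (n a) k) := by
  induction k with
  | zero => exact NPC.Poly.const _
  | succ k ih =>
    have h1 := poly_varsL r hn
    unfold lstM
    fun_prop

theorem poly_mons (r : ℕ) {n : α → ℕ} (hn : NPC.Poly (fun a => List.range (n a))) :
    NPC.Poly (fun a => mons r (n a)) := by
  have h1 := poly_lstM r hn r
  unfold mons
  fun_prop

theorem poly_prepF {ms : α → List Mn} {v : α → Vr} {C : α → List ℕ} {μ : α → Mn}
    (hms : NPC.Poly ms) (hv : NPC.Poly v) (hC : NPC.Poly C) (hμ : NPC.Poly μ) :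
    NPC.Poly (fun a => prepF (ms a) (v a) (C a) (μ a)) := by
  unfold prepF
  refine NPC.Poly.optElim (h := fun a v' => if v' = v a then lk 0 (ms a) (C a) (μ a).tail else 0)
    ?_ ?_ ?_ <;> fun_prop

attribute [fun_prop] poly_prepF

theorem poly_lstep (p r : ℕ) {ms : α → List Mn} {j : α → ℕ} {old : α → List (List ℕ)}
    (hms : NPC.Poly ms) (hj : NPC.Poly j) (ho : NPC.Poly old) :
    NPC.Poly (fun a => lstep p r (ms a) (j a) (old a)) := by
  unfold lstep
  fun_prop

theorem poly_base (r : ℕ) {ms : α → List Mn} {b : α → ℕ} {C : α → List ℕ}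
    (hms : NPC.Poly ms) (hb : NPC.Poly b) (hC : NPC.Poly C) :
    NPC.Poly (fun a => base r (ms a) (b a) (C a)) := by
  unfold base
  fun_prop

end gen

theorem sz_lt_le {c p : ℕ} (h : c < p) : sz c ≤ 4 * p + 1 := by
  have h1 := sz_nat_le c
  have h2 := NPC.Poly.size_le_self c
  omega

/-- A vector of length at most `m` with entries below `p`. -/
def Ok (p m : ℕ) (C : List ℕ) : Prop := C.length ≤ m ∧ ∀ c ∈ C, c < p

theorem sz_Ok {p m : ℕ} {C : List ℕ} (h : Ok p m C) : sz C ≤ m * (4 * p + 2) + 1 := by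
  have h1 := sz_le_length_mul C (4 * p + 1) (fun c hc => sz_lt_le (h.2 c hc))
  have h2 : C.length * (4 * p + 1 + 1) ≤ m * (4 * p + 2) := Nat.mul_le_mul_right _ h.1
  omega

theorem sz_mat {p m k : ℕ} {M : List (List ℕ)} (hk : M.length ≤ k) (h : ∀ C ∈ M, Ok p m C) :
    sz M ≤ k * (m * (4 * p + 2) + 2) + 1 := by
  have h1 := sz_le_length_mul M (m * (4 * p + 2) + 1) (fun C hC => sz_Ok (h C hC))
  have h2 : M.length * (m * (4 * p + 2) + 1 + 1) ≤ k * (m * (4 * p + 2) + 2) :=
    Nat.mul_le_mul_right _ hk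
  omega

theorem lk_mem {β : Type} (d : β) (ms : List Mn) (C : List β) (μ : Mn) :
    lk d ms C μ = d ∨ lk d ms C μ ∈ C := by
  unfold lk
  cases h : ((ms.zip C).filter fun p => decide (p.1 = μ)).map fun p => p.2 with
  | nil => left; rfl
  | cons x l =>
    right
    have h1 : x ∈ ((ms.zip C).filter fun p => decide (p.1 = μ)).map fun p => p.2 := by
      rw [h]; simp
    rw [List.mem_map] at h1
    obtain ⟨⟨a, b⟩, h2, rfl⟩ := h1
    rw [List.mem_filter] at h2
    exact (List.of_mem_zip h2.1).2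

theorem Ok_lstep {p r : ℕ} (hp : 0 < p) (ms : List Mn) (j : ℕ) (old : List (List ℕ)) :
    (lstep p r ms j old).length = r ∧ ∀ C ∈ lstep p r ms j old, Ok p ms.length C := by
  unfold lstep
  refine ⟨by simp, ?_⟩
  intro C hC
  rw [List.mem_map] at hC
  obtain ⟨a, _, rfl⟩ := hC
  refine ⟨by simp, ?_⟩
  intro c hc
  rw [List.mem_map] at hc
  obtain ⟨μ, _, rfl⟩ := hc
  exact Nat.mod_lt _ hp

theorem Ok_base {p r : ℕ} (hp : 0 < p) (ms : List Mn) (b : ℕ) {C : List ℕ}
    (hC : ∀ c ∈ C, c < p) : ∀ C' ∈ base r ms b C, Ok p ms.length C' := by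
  intro C' hC'
  unfold base at hC'
  rw [List.mem_map] at hC'
  obtain ⟨a, _, rfl⟩ := hC'
  refine ⟨by simp, ?_⟩
  intro c hc
  rw [List.mem_map] at hc
  obtain ⟨μ, _, rfl⟩ := hc
  split_ifs
  · rcases lk_mem 0 ms C μ with h | h
    · rw [h]; exact hp
    · exact hC _ h
  · exact hp

theorem Ok_Ew {p r : ℕ} (hp : 0 < p) (ms : List Mn) (w : List ℕ) (b : ℕ) {C : List ℕ}
    (hC : ∀ c ∈ C, c < p) : ∀ C' ∈ Ew p r ms w b C, Ok p ms.length C' := by
  cases w with
  | nil => exact Ok_base hp ms b hC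
  | cons j w => exact (Ok_lstep hp ms j _).2

theorem Ok_getD {p m : ℕ} {M : List (List ℕ)} (h : ∀ C ∈ M, Ok p m C) (a : ℕ) :
    Ok p m (M.getD a []) := by
  by_cases hlt : a < M.length
  · rw [List.getD_eq_getElem?_getD, List.getElem?_eq_getElem hlt]
    exact h _ (List.getElem_mem hlt)
  · rw [List.getD_eq_default _ _ (by omega)]
    exact ⟨by simp, by simp⟩

theorem poly_Ew {p r : ℕ} (hp : 0 < p) : NPC.Poly (fun x : List Mn × List ℕ × ℕ × List ℕ =>
    Ew p r x.1 x.2.1 x.2.2.1 x.2.2.2) := by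
  have hb : NPC.Poly (fun x : List Mn × List ℕ × ℕ × List ℕ => base r x.1 x.2.2.1 x.2.2.2) :=
    poly_base r (by fun_prop) (by fun_prop) (by fun_prop)
  obtain ⟨q, hq⟩ := hb.sz_le
  unfold Ew
  refine NPC.Poly.foldr (α := List Mn × List ℕ × ℕ × List ℕ) (l := fun x => x.2.1)
    (s := fun x => base r x.1 x.2.2.1 x.2.2.2) (F := fun x j old => lstep p r x.1 j old)
    (by fun_prop) hb ?_ (q + (Polynomial.C r * (Polynomial.X * Polynomial.C (4 * p + 2) +
      Polynomial.C 2) + Polynomial.C 1)) ?_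
  · exact poly_lstep p r (by fun_prop) (by fun_prop) (by fun_prop)
  · intro x k _
    rw [Polynomial.eval_add]
    cases h : x.2.1.drop k with
    | nil =>
      rw [List.foldr_nil]
      have := hq x
      omega
    | cons j w =>
      rw [List.foldr_cons]
      have h1 := Ok_lstep (r := r) hp x.1 j (w.foldr (fun j old => lstep p r x.1 j old)
        (base r x.1 x.2.2.1 x.2.2.2))
      have h2 := sz_mat (k := r) h1.1.le h1.2
      have h3 : x.1.length ≤ sz x := by
        have := length_lt_sz x.1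
        have h4 : sz x = sz x.1 + sz x.2 + 1 := sz_pair x.1 x.2
        omega
      simp only [Polynomial.eval_add, Polynomial.eval_mul, Polynomial.eval_C, Polynomial.eval_X]
      have h5 : r * (x.1.length * (4 * p + 2) + 2) ≤ r * (sz x * (4 * p + 2) + 2) :=
        Nat.mul_le_mul_left _ (Nat.add_le_add_right (Nat.mul_le_mul_right _ h3) _)
      omega

theorem Ok_unitV {p : ℕ} (hp : 2 ≤ p) (ms : List Mn) : Ok p ms.length (unitV ms) := by
  unfold unitV
  refine ⟨by simp, ?_⟩
  intro c hc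
  rw [List.mem_map] at hc
  obtain ⟨μ, _, rfl⟩ := hc
  split_ifs <;> omega

theorem Ok_Krow {p r : ℕ} (hp : 2 ≤ p) (ms : List Mn) (W : List (List ℕ)) : ∀ μ : Mn,
    Ok p ms.length (Krow p r ms W μ)
  | [] => Ok_unitV hp ms
  | v :: μ => by
    have e1 : Krow p r ms W (v :: μ) = (Ew p r ms (W.getD v.1 []) v.2.2
      (Krow p r ms W μ)).getD v.2.1 [] := rfl
    rw [e1]
    exact Ok_getD (Ok_Ew (by omega) ms _ _ (Ok_Krow hp ms W μ).2) _

theorem poly_Krow {p r : ℕ} (hp : 2 ≤ p) :
    NPC.Poly (fun x : List Mn × List (List ℕ) × Mn => Krow p r x.1 x.2.1 x.2.2) := by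
  unfold Krow
  refine NPC.Poly.foldr (α := List Mn × List (List ℕ) × Mn) (l := fun x => x.2.2)
    (s := fun x => unitV x.1)
    (F := fun x v C => (Ew p r x.1 (x.2.1.getD v.1 []) v.2.2 C).getD v.2.1 [])
    (by fun_prop) (by unfold unitV; fun_prop) ?_ (Polynomial.X * Polynomial.C (4 * p + 2) +
      Polynomial.C 1) ?_
  · have h := (poly_Ew (p := p) (r := r) (by omega)).comp
      (f := fun x : (List Mn × List (List ℕ) × Mn) × Vr × List ℕ =>
        (x.1.1, x.1.2.1.getD x.2.1.1 [], x.2.1.2.2, x.2.2)) (by fun_prop)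
    fun_prop
  · intro x k _
    have h1 : Ok p x.1.length (Krow p r x.1 x.2.1 (x.2.2.drop k)) := Ok_Krow hp _ _ _
    have h2 := sz_Ok h1
    have h3 : x.1.length ≤ sz x := by
      have := length_lt_sz x.1
      have h4 : sz x = sz x.1 + sz x.2 + 1 := sz_pair x.1 x.2
      omega
    simp only [Polynomial.eval_add, Polynomial.eval_mul, Polynomial.eval_C, Polynomial.eval_X]
    refine h2.trans ?_
    exact Nat.add_le_add_right (Nat.mul_le_mul_right _ h3) _

section gen2

variable {α : Type} [TEnc α]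

theorem poly_Kmat {p r : ℕ} (hp : 2 ≤ p) {ms : α → List Mn} {W : α → List (List ℕ)}
    (hms : NPC.Poly ms) (hW : NPC.Poly W) : NPC.Poly (fun a => Kmat p r (ms a) (W a)) := by
  unfold Kmat
  refine NPC.Poly.map (F := fun a μ => Krow p r (ms a) (W a) μ) hms ?_
  exact (poly_Krow (r := r) hp).comp (f := fun x : α × Mn => (ms x.1, W x.1, x.2)) (by fun_prop)

theorem poly_mulM (p : ℕ) {ms : α → List Mn} {K K' : α → List (List ℕ)} (hms : NPC.Poly ms)
    (hK : NPC.Poly K) (hK' : NPC.Poly K') : NPC.Poly (fun a => mulM p (ms a) (K a) (K' a)) := by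
  unfold mulM
  fun_prop

attribute [fun_prop] poly_mulM

theorem poly_oneM {ms : α → List Mn} (hms : NPC.Poly ms) :
    NPC.Poly (fun a => oneM (ms a)) := by
  unfold oneM
  fun_prop

end gen2

theorem Ok_mulM {p : ℕ} (hp : 0 < p) (ms : List Mn) (K K' : List (List ℕ)) :
    (mulM p ms K K').length ≤ ms.length ∧ ∀ C ∈ mulM p ms K K', Ok p ms.length C := by
  unfold mulM
  refine ⟨by simp, ?_⟩
  intro C hC
  rw [List.mem_map] at hC
  obtain ⟨μ, _, rfl⟩ := hC
  refine ⟨by simp, ?_⟩
  intro c hc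
  rw [List.mem_map] at hc
  obtain ⟨ν, _, rfl⟩ := hc
  exact Nat.mod_lt _ hp

theorem Ok_oneM {p : ℕ} (hp : 2 ≤ p) (ms : List Mn) :
    (oneM ms).length ≤ ms.length ∧ ∀ C ∈ oneM ms, Ok p ms.length C := by
  unfold oneM
  refine ⟨by simp, ?_⟩
  intro C hC
  rw [List.mem_map] at hC
  obtain ⟨μ, _, rfl⟩ := hC
  refine ⟨by simp, ?_⟩
  intro c hc
  rw [List.mem_map] at hc
  obtain ⟨ν, _, rfl⟩ := hc
  split_ifs <;> omega

theorem Ok_powM {p : ℕ} (hp : 2 ≤ p) (ms : List Mn) (K : List (List ℕ)) (bs : List Bool) :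
    (powM p ms K bs).length ≤ ms.length ∧ ∀ C ∈ powM p ms K bs, Ok p ms.length C := by
  cases bs with
  | nil => exact Ok_oneM hp ms
  | cons b bs =>
    have e1 : powM p ms K (b :: bs) = bif b then
      mulM p ms (mulM p ms (powM p ms K bs) (powM p ms K bs)) K else
        mulM p ms (powM p ms K bs) (powM p ms K bs) := rfl
    rw [e1]
    cases b
    · exact Ok_mulM (by omega) ms _ _
    · exact Ok_mulM (by omega) ms _ _

theorem poly_powM {p : ℕ} (hp : 2 ≤ p) :
    NPC.Poly (fun x : List Mn × List (List ℕ) × List Bool => powM p x.1 x.2.1 x.2.2) := by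
  unfold powM
  refine NPC.Poly.foldr (α := List Mn × List (List ℕ) × List Bool) (l := fun x => x.2.2)
    (s := fun x => oneM x.1)
    (F := fun x b acc => bif b then mulM p x.1 (mulM p x.1 acc acc) x.2.1 else mulM p x.1 acc acc)
    (by fun_prop) (poly_oneM (by fun_prop)) (by fun_prop) (Polynomial.X * (Polynomial.X *
      Polynomial.C (4 * p + 2) + Polynomial.C 2) + Polynomial.C 1) ?_
  intro x k _
  have h1 := Ok_powM hp x.1 x.2.1 (x.2.2.drop k)
  have h2 := sz_mat h1.1 h1.2
  have h3 : x.1.length ≤ sz x := by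
    have := length_lt_sz x.1
    have h4 : sz x = sz x.1 + sz x.2 + 1 := sz_pair x.1 x.2
    omega
  simp only [Polynomial.eval_add, Polynomial.eval_mul, Polynomial.eval_C, Polynomial.eval_X]
  refine h2.trans ?_
  exact Nat.add_le_add_right (Nat.mul_le_mul h3 (Nat.add_le_add_right
    (Nat.mul_le_mul_right _ h3) _)) _

section main

variable {G : Type} [Group G] [Fintype G] (e : Fin (Fintype.card G) ≃ G)

theorem uPoly_nn : UPoly nn := by
  have h1 : UPoly (fun I : Inst => I.1.length) := UPoly.length (by fun_prop)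
  have h2 : UPoly (fun I : Inst => I.2.1.length) := UPoly.length (by fun_prop)
  exact UPoly.add h1 h2

theorem poly_nn : NPC.Poly nn := uPoly_nn.toPoly

theorem poly_lc : NPC.Poly (fun x : ℕ × Bool × ℕ => lc e x.1 x.2) := by
  unfold lc
  fun_prop

theorem poly_WW : NPC.Poly (fun I : Inst => WW e (nn I) I.1) := by
  have h1 : NPC.Poly (fun I : Inst => List.range (nn I + Fintype.card G)) :=
    (UPoly.add uPoly_nn (UPoly.const _)).range
  have h2 := poly_nn
  unfold WW
  refine NPC.Poly.map (F := fun (I : Inst) i => if i < nn I then (I.1.getD i []).map (lc e (nn I))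
    else [i]) h1 ?_
  have h3 : NPC.Poly (fun x : Inst × ℕ => (x.1.1.getD x.2 []).map (lc e (nn x.1))) := by
    refine NPC.Poly.map (F := fun (x : Inst × ℕ) l => lc e (nn x.1) l) (by fun_prop) ?_
    exact (poly_lc e).comp (f := fun x : (Inst × ℕ) × Bool × ℕ => (nn x.1.1, x.2)) (by fun_prop)
  have h4 : NPC.Poly (fun x : Inst × ℕ => nn x.1) := by fun_prop
  fun_prop

theorem poly_msI (D : RepD G) : NPC.Poly (msI D) :=
  poly_mons D.r (n := fun I : Inst => nn I + Fintype.card G)
    (UPoly.add uPoly_nn (UPoly.const _)).range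

theorem poly_cX : NPC.Poly (fun x : ℕ × List ℕ × ℕ => cX e x.1 x.2.1 x.2.2) := by
  unfold cX
  fun_prop

theorem poly_TV {α : Type} [TEnc α] (D : RepD G) {c a b : α → ℕ} (hc : NPC.Poly c)
    (ha : NPC.Poly a) (hb : NPC.Poly b) : NPC.Poly (fun x => TV e D (c x) (a x) (b x)) := by
  unfold TV
  fun_prop

attribute [fun_prop] poly_TV

theorem poly_monV (D : RepD G) :
    NPC.Poly (fun x : ℕ × List ℕ × Mn => monV e D x.1 x.2.1 x.2.2) := by
  unfold monV
  refine NPC.Poly.foldr (α := ℕ × List ℕ × Mn) (l := fun x => x.2.2) (s := fun _ => 1)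
    (F := fun x v acc => TV e D (cX e x.1 x.2.1 v.1) v.2.1 v.2.2 * acc % D.p)
    (by fun_prop) (by fun_prop) ?_ (Polynomial.C (4 * D.p + 1)) ?_
  · have h := (poly_cX e).comp (f := fun x : (ℕ × List ℕ × Mn) × Vr × ℕ =>
      (x.1.1, x.1.2.1, x.2.1.1)) (by fun_prop)
    fun_prop
  · intro x k _
    rw [Polynomial.eval_C]
    apply sz_lt_le
    cases x.2.2.drop k with
    | nil =>
      rw [List.foldr_nil]
      exact D.hp.one_lt
    | cons v μ =>
      rw [List.foldr_cons]
      exact Nat.mod_lt _ D.hp.pos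

theorem poly_matT (D : RepD G) : NPC.Poly (fun I : Inst => matT e D I (msI D I)) := by
  have h1 := poly_msI D
  have h2 := poly_WW e
  have h3 : NPC.Poly (fun I : Inst => Kmat D.p D.r (msI D I) (WW e (nn I) I.1)) :=
    poly_Kmat D.hp.two_le h1 h2
  have h4 : NPC.Poly (fun I : Inst => I.2.2.1.bits) := NPC.Poly.natBits (by fun_prop)
  exact (poly_powM D.hp.two_le).comp (f := fun I : Inst => (msI D I,
    Kmat D.p D.r (msI D I) (WW e (nn I) I.1), I.2.2.1.bits)) (by fun_prop)

theorem poly_num (D : RepD G) : NPC.Poly (fun x : (ℕ × List ℕ) × (List Mn × List (List ℕ)) ×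
    ℕ × ℕ × ℕ => num e D x.1.1 x.1.2 x.2.1.1 x.2.1.2 x.2.2.1 x.2.2.2.1 x.2.2.2.2) := by
  have h := (poly_monV e D).comp (f := fun x : ((ℕ × List ℕ) × (List Mn × List (List ℕ)) ×
    ℕ × ℕ × ℕ) × Mn => (x.1.1.1, x.1.1.2, x.2)) (by fun_prop)
  unfold num
  fun_prop

theorem poly_decD (D : RepD G) : NPC.Poly (decD e D) := by
  have h1 := poly_msI D
  have h2 := poly_matT e D
  have h3 := poly_nn
  have h5 : NPC.Poly (fun x : (Inst × ℕ) × ℕ => matT e D x.1.1 (msI D x.1.1)) :=
    h2.comp (f := fun x : (Inst × ℕ) × ℕ => x.1.1) (by fun_prop)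
  have h6 : NPC.Poly (fun x : (Inst × ℕ) × ℕ => msI D x.1.1) :=
    h1.comp (f := fun x : (Inst × ℕ) × ℕ => x.1.1) (by fun_prop)
  have h4 : NPC.Poly (fun x : (Inst × ℕ) × ℕ => num e D (nn x.1.1) x.1.1.2.1 (msI D x.1.1)
      (matT e D x.1.1 (msI D x.1.1)) x.1.1.2.2.2.1 x.1.2 x.2) :=
    (poly_num e D).comp (f := fun x : (Inst × ℕ) × ℕ => ((nn x.1.1, x.1.1.2.1), (msI D x.1.1,
      matT e D x.1.1 (msI D x.1.1)), x.1.1.2.2.2.1, x.1.2, x.2)) (by fun_prop)
  have : decD e D = fun I => (List.range D.r).all fun a => (List.range D.r).all fun b =>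
    !(decide (b < a)) ||
    decide (num e D (nn I) I.2.1 (msI D I) (matT e D I (msI D I)) I.2.2.2.1 a b =
      TV e D I.2.2.2.2 a b) := rfl
  rw [this]
  fun_prop

theorem poly_decL : ∀ L : List (RepD G), NPC.Poly (decL e L)
  | [] => NPC.Poly.const true
  | D :: L => by
    have h1 := poly_decD e D
    have h2 := poly_decL L
    have : decL e (D :: L) = fun I => decD e D I && decL e L I := rfl
    rw [this]
    fun_prop

theorem poly_dec (L : List (RepD G)) : NPC.Poly (dec e L) := by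
  have h1 := poly_decL e L
  have h2 := poly_nn
  have : dec e L = fun I => if I.2.2.2.1 < nn I then decL e L I else
    decide (nrm e I.2.2.2.2 = code e 1) := rfl
  rw [this]
  fun_prop

/-- **Prediction is possible in polynomial time over every finite nilpotent group.** -/
theorem pred_inP (hG : Group.IsNilpotent G) : InP (lang (PRED e)) := by
  obtain ⟨L, hL⟩ := exists_reps hG
  exact inPP_of (poly_dec e L) (dec_iff e hL)

end main

end Pool.Agent.W995.PN
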