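import Pool.Agent.W995.PN.Defs
import Pool.Agent.H671R2.PolyAuto
import Pool.Agent.H623R2.PS.Space

/-!
# Prediction is possible in polynomial space
-/

namespace Pool.Agent.W995.PN

open Pool.Agent.NPC Pool.Agent.H623R2.PS

variable {G : Type} [Group G] [Fintype G] (e : Fin (Fintype.card G) ≃ G)

/-- The number of an element. -/
def code (g : G) : ℕ := (e.symm g).val

omit [Group G] in
theorem code_lt (g : G) : code e g < Fintype.card G := (e.symm g).isLt

theorem el_code (g : G) : el e (code e g) = g := by
  unfold el
  rw [dif_pos (code_lt e g)]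
  simp [code]

/-- A number below the order of the group for the same element. -/
def nrm (c : ℕ) : ℕ := if c < Fintype.card G then c else code e 1

theorem nrm_lt (c : ℕ) : nrm e c < Fintype.card G := by
  unfold nrm
  split_ifs with h
  · exact h
  · exact code_lt e 1

theorem el_nrm (c : ℕ) : el e (nrm e c) = el e c := by
  unfold nrm
  split_ifs with h
  · rfl
  · rw [el_code]; unfold el; rw [dif_neg h]

/-- Multiplication of numbers. -/
def mulC (a b : ℕ) : ℕ := code e (el e a * el e b)

theorem el_mulC (a b : ℕ) : el e (mulC e a b) = el e a * el e b := el_code e _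

theorem mulC_lt (a b : ℕ) : mulC e a b < Fintype.card G := code_lt e _

/-- The multiplication table. -/
def tbl : List (List ℕ) := (List.range (Fintype.card G)).map fun a =>
  (List.range (Fintype.card G)).map fun b => mulC e a b

theorem mulC_eq (a b : ℕ) : mulC e a b = ((tbl e).getD (nrm e a) []).getD (nrm e b) 0 := by
  have ha := nrm_lt e a
  have hb := nrm_lt e b
  unfold tbl
  simp only [List.getD_eq_getElem?_getD, List.getElem?_map, List.getElem?_range ha,
    Option.map_some, Option.getD_some, List.getElem?_range hb]
  unfold mulC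
  rw [el_nrm, el_nrm]

section Poly

variable {α : Type} [TEnc α]

theorem poly_nrm {f : α → ℕ} (hf : NPC.Poly f) : NPC.Poly (fun a => nrm e (f a)) := by
  unfold nrm
  fun_prop

theorem poly_mulC {f g : α → ℕ} (hf : NPC.Poly f) (hg : NPC.Poly g) :
    NPC.Poly (fun a => mulC e (f a) (g a)) := by
  have h1 := poly_nrm e hf
  have h2 := poly_nrm e hg
  simp only [mulC_eq]
  fun_prop

attribute [fun_prop] poly_nrm poly_mulC

end Poly

/-- The number of the value of a letter. -/
def letC (s : List ℕ) (l : Bool × ℕ) : ℕ := bif l.1 then l.2 else s.getD l.2 (code e 1)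

/-- The number of the value of a word. -/
def wordC (s : List ℕ) (w : List (Bool × ℕ)) : ℕ :=
  w.foldl (fun acc l => mulC e acc (letC e s l)) (code e 1)

/-- The state described by a list of numbers. -/
def sem (s : List ℕ) (i : ℕ) : G := el e (s.getD i (code e 1))

theorem sem_eq_start (s : List ℕ) : sem e s = start e s := by
  funext i
  unfold sem start
  rw [List.getD_eq_getElem?_getD, List.getD_eq_getElem?_getD, List.getElem?_map]
  cases s[i]? with
  | none => simp [el_code]
  | some c => simp

theorem el_letC (s : List ℕ) (l : Bool × ℕ) : el e (letC e s l) = letter e (sem e s) l := by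
  obtain ⟨b, n⟩ := l
  cases b <;> rfl

theorem el_foldl (s : List ℕ) (w : List (Bool × ℕ)) : ∀ c : ℕ,
    el e (w.foldl (fun acc l => mulC e acc (letC e s l)) c) =
      el e c * (w.map (letter e (sem e s))).prod := by
  induction w with
  | nil => intro c; simp
  | cons l w ih =>
    intro c
    rw [List.foldl_cons, ih, el_mulC, el_letC, List.map_cons, List.prod_cons, mul_assoc]

theorem el_wordC (s : List ℕ) (w : List (Bool × ℕ)) :
    el e (wordC e s w) = (w.map (letter e (sem e s))).prod := by
  unfold wordC
  rw [el_foldl, el_code, one_mul]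

/-- One step on lists of numbers. -/
def stepC (W : List (List (Bool × ℕ))) (s : List ℕ) : List ℕ := W.map (wordC e s)

theorem sem_stepC (W : List (List (Bool × ℕ))) (s : List ℕ) :
    sem e (stepC e W s) = step e W (sem e s) := by
  funext i
  unfold step
  rw [← el_wordC]
  unfold sem stepC
  rw [List.getD_eq_getElem?_getD, List.getElem?_map, List.getD_eq_getElem?_getD]
  cases W[i]? with
  | none => simp [wordC]
  | some w => simp

theorem sem_iter (W : List (List (Bool × ℕ))) (T : ℕ) : ∀ s : List ℕ,
    sem e ((stepC e W)^[T] s) = (step e W)^[T] (sem e s) := by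
  induction T with
  | zero => intro s; rfl
  | succ T ih => intro s; rw [Function.iterate_succ_apply, Function.iterate_succ_apply, ih,
      sem_stepC]

omit [Group G] in
theorem sz_code_le {c : ℕ} (h : c < Fintype.card G) : sz c ≤ 4 * Fintype.card G + 1 := by
  have h1 := sz_nat_le c
  have h2 := NPC.Poly.size_le_self c
  omega

theorem poly_wordC : NPC.Poly (fun p : List ℕ × List (Bool × ℕ) => wordC e p.1 p.2) := by
  unfold wordC
  refine NPC.Poly.foldl (α := List ℕ × List (Bool × ℕ)) (l := fun p => p.2)
    (s := fun _ => code e 1) (F := fun p acc l => mulC e acc (letC e p.1 l)) (by fun_prop)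
    (by fun_prop) ?_ (Polynomial.C (4 * Fintype.card G + 1)) ?_
  · unfold letC
    fun_prop
  · intro p k _
    rw [Polynomial.eval_C]
    apply sz_code_le
    have : ∀ (l : List (Bool × ℕ)) (c : ℕ), c < Fintype.card G →
        l.foldl (fun acc l => mulC e acc (letC e p.1 l)) c < Fintype.card G := by
      intro l
      induction l with
      | nil => intro c hc; exact hc
      | cons a l ih => intro c _; exact ih _ (mulC_lt e _ _)
    exact this _ _ (code_lt e 1)

theorem poly_stepC {α : Type} [TEnc α] {W : α → List (List (Bool × ℕ))} {s : α → List ℕ}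
    (hW : NPC.Poly W) (hs : NPC.Poly s) : NPC.Poly (fun a => stepC e (W a) (s a)) := by
  unfold stepC
  refine NPC.Poly.map (F := fun a w => wordC e (s a) w) hW ?_
  exact (poly_wordC e).comp (f := fun p : α × List (Bool × ℕ) => (s p.1, p.2)) (by fun_prop)

/-- States of the process: the remaining time, the network, the current state. -/
abbrev PSt := ℕ × List (List (Bool × ℕ)) × List ℕ

/-- The process. -/
def proc (y : PSt) : Bool × PSt :=
  if y.1 = 0 then (true, y) else (false, (y.1 - 1, y.2.1, stepC e y.2.1 y.2.2))

theorem poly_proc : NPC.Poly (proc e) := by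
  have h1 : NPC.Poly (fun y : PSt => stepC e y.2.1 y.2.2) := poly_stepC e (by fun_prop) (by fun_prop)
  have : proc e = fun y : PSt => if y.1 = 0 then (true, y) else
      (false, (y.1 - 1, y.2.1, stepC e y.2.1 y.2.2)) := rfl
  rw [this]
  fun_prop

theorem proc_iter (W : List (List (Bool × ℕ))) (s : List ℕ) (T k : ℕ) (hk : k ≤ T) :
    (fun b => (proc e b).2)^[k] (T, W, s) = (T - k, W, (stepC e W)^[k] s) := by
  induction k with
  | zero => rfl
  | succ k ih =>
    rw [Function.iterate_succ_apply', ih (by omega), Function.iterate_succ_apply']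
    unfold proc
    have : T - k ≠ 0 := by omega
    simp only [this, if_false]
    rw [Nat.sub_sub]

end Pool.Agent.W995.PN

namespace Pool.Agent.W995.PN

open Pool.Agent.NPC Pool.Agent.H623R2.PS

variable {G : Type} [Group G] [Fintype G] (e : Fin (Fintype.card G) ≃ G)

theorem nrm_eq_code (c : ℕ) : nrm e c = code e (el e c) := by
  unfold nrm el
  split_ifs with h
  · simp [code]
  · rfl

theorem nrm_eq_iff (c d : ℕ) : nrm e c = nrm e d ↔ el e c = el e d := by
  rw [nrm_eq_code, nrm_eq_code]
  constructor
  · intro h
    have := congrArg (el e) h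
    rwa [el_code, el_code] at this
  · intro h; rw [h]

/-- Instances. -/
abbrev Inst := List (List (Bool × ℕ)) × List ℕ × ℕ × ℕ × ℕ

/-- States of the decision process. -/
abbrev DSt := PSt × ℕ × ℕ × Bool

/-- The initial state of the decision process. -/
def dinit (x : List Bool) : DSt :=
  (unbits Inst x).elim ((0, [], []), 0, 0, false) fun I =>
    ((I.2.2.1, I.1, I.2.1), I.2.2.2.1, I.2.2.2.2, true)

/-- The steps of the decision process. -/
def dproc (y : DSt) : Bool × DSt := ((proc e y.1).1, (proc e y.1).2, y.2)

/-- The answer. -/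
def dout (y : DSt) : Bool :=
  y.2.2.2 && decide (nrm e (y.1.2.2.getD y.2.1 (code e 1)) = nrm e y.2.2.1)

theorem dproc_iter (k : ℕ) : ∀ y : DSt, (fun b => (dproc e b).2)^[k] y =
    ((fun b => (proc e b).2)^[k] y.1, y.2) := by
  induction k with
  | zero => intro y; rfl
  | succ k ih => intro y; rw [Function.iterate_succ_apply, ih, Function.iterate_succ_apply]; rfl

theorem proc_iter_succ (W : List (List (Bool × ℕ))) (s : List ℕ) (T : ℕ) :
    (fun b => (proc e b).2)^[T + 1] (T, W, s) = (0, W, (stepC e W)^[T] s) := by
  rw [Function.iterate_succ_apply', proc_iter e W s T T le_rfl]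
  simp [proc]

theorem sz_iter_le (W : List (List (Bool × ℕ))) (s : List ℕ) (k : ℕ) :
    sz ((stepC e W)^[k] s) ≤ sz s + (sz W * (4 * Fintype.card G + 2) + 1) := by
  cases k with
  | zero => simp
  | succ k =>
    rw [Function.iterate_succ_apply']
    have h1 := sz_le_length_mul (stepC e W ((stepC e W)^[k] s)) (4 * Fintype.card G + 1) (by
      intro a ha
      unfold stepC at ha
      rw [List.mem_map] at ha
      obtain ⟨w, _, rfl⟩ := ha
      apply sz_code_le
      have : ∀ (l : List (Bool × ℕ)) (c : ℕ) (s : List ℕ), c < Fintype.card G →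
          l.foldl (fun acc l => mulC e acc (letC e s l)) c < Fintype.card G := by
        intro l
        induction l with
        | nil => intro c _ hc; exact hc
        | cons a l ih => intro c s _; exact ih _ s (mulC_lt e _ _)
      exact this _ _ _ (code_lt e 1))
    have h2 : (stepC e W ((stepC e W)^[k] s)).length = W.length := by simp [stepC]
    have h3 := length_lt_sz W
    rw [h2] at h1
    refine h1.trans ?_
    have : W.length * (4 * Fintype.card G + 1 + 1) ≤ sz W * (4 * Fintype.card G + 2) :=
      Nat.mul_le_mul (by omega) (by omega)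
    omega

theorem pred_inPSPACE : InPSPACE (lang (PRED e)) := by
  have hpr : NPC.Poly (dproc e) := by
    have h := poly_proc e
    have : dproc e = fun y : DSt => ((proc e y.1).1, (proc e y.1).2, y.2) := rfl
    rw [this]
    fun_prop
  have hin : NPC.Poly dinit := by
    have h : NPC.Poly (unbits Inst) := poly_unbits
    unfold dinit
    fun_prop
  have hout : NPC.Poly (dout e) := by
    have : dout e = fun y : DSt => y.2.2.2 &&
      decide (nrm e (y.1.2.2.getD y.2.1 (code e 1)) = nrm e y.2.2.1) := rfl
    rw [this]
    fun_prop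
  obtain ⟨r, hr⟩ := hin.sz_le
  set q : Polynomial ℕ := (2 * Polynomial.X + (Polynomial.X + (Polynomial.X *
    Polynomial.C (4 * Fintype.card G + 2) + 1)) + 3 * Polynomial.X + 10) with hq
  refine inPSPACE_of_process (β := DSt) hin hpr hout ((q.comp r).comp (4 * Polynomial.X + 1))
    (fun x => (dinit x).1.1) ?_ ?_ ?_ ?_
  · intro x i hi
    rw [dproc_iter]
    generalize dinit x = y at hi ⊢
    obtain ⟨⟨T, W, s⟩, z⟩ := y
    simp only at hi ⊢
    rw [proc_iter e W s T i hi.le]
    have : T - i ≠ 0 := by omega
    simp [dproc, proc, this]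
  · intro x
    rw [dproc_iter]
    generalize dinit x = y
    obtain ⟨⟨T, W, s⟩, z⟩ := y
    change (dproc e ((fun b => (proc e b).2)^[T] (T, W, s), z)).1 = true
    rw [proc_iter e W s T T le_rfl]
    simp [dproc, proc]
  · intro x i hi
    have hx : sz (dinit x) ≤ r.eval (4 * x.length + 1) :=
      (hr x).trans (eval_mono r (sz_listBool_le x))
    have key : sz ((fun b => (dproc e b).2)^[i] (dinit x)) ≤ q.eval (sz (dinit x)) := by
      rw [dproc_iter]
      clear hx
      generalize dinit x = y at hi ⊢
      obtain ⟨⟨T, W, s⟩, z⟩ := y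
      simp only at hi ⊢
      have h1 : ∃ t ≤ T, ∃ k, (fun b => (proc e b).2)^[i] (T, W, s) = (t, W, (stepC e W)^[k] s) := by
        rcases Nat.lt_or_ge i (T + 1) with h | h
        · exact ⟨T - i, by omega, i, proc_iter e W s T i (by omega)⟩
        · have : i = T + 1 := by omega
          subst this
          exact ⟨0, by omega, T, proc_iter_succ e W s T⟩
      obtain ⟨t, ht, k, h2⟩ := h1
      rw [h2]
      have h3 := sz_nat_mono_le ht
      have h4 := sz_iter_le e W s k
      simp only [sz_pair, hq, Polynomial.eval_add, Polynomial.eval_mul, Polynomial.eval_X,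
        Polynomial.eval_C, Polynomial.eval_one, Polynomial.eval_ofNat]
      have h5 : sz W * (4 * Fintype.card G + 2) ≤
          (sz T + (sz W + sz s + 1) + 1 + sz z + 1) * (4 * Fintype.card G + 2) :=
        Nat.mul_le_mul_right _ (by omega)
      omega
    refine key.trans ?_
    rw [Polynomial.eval_comp, Polynomial.eval_comp]
    have : (4 * Polynomial.X + 1 : Polynomial ℕ).eval x.length = 4 * x.length + 1 := by simp
    rw [this]
    exact eval_mono q hx
  · intro x
    rw [mem_lang_iff (α := Inst)]
    simp only [dproc_iter]
    unfold dinit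
    cases h : unbits Inst x with
    | none => simp [dout]
    | some I =>
      obtain ⟨W, s, T, i, hh⟩ := I
      simp only [Option.elim_some]
      rw [proc_iter_succ]
      simp only [dout, Bool.true_and, decide_eq_true_eq, nrm_eq_iff]
      have h2 := congrFun (sem_iter e W T s) i
      rw [sem_eq_start e s] at h2
      unfold sem at h2
      rw [h2]
      simp [PRED]

end Pool.Agent.W995.PN
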