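import Mathlib

/-!
# Sufficiently many small primes
-/

namespace Pool.Agent.W995.PN

/-- The bound. -/
def bnd (m : ℕ) : ℕ := 16 * (m + 2) * (m + 2) + 1

/-- The primes between `5` and the bound. -/
def prs (m : ℕ) : List ℕ := (List.range (bnd m)).filter fun p =>
  decide (5 ≤ p) && (List.range (bnd m)).all fun d =>
    decide (d < 2) || (decide (p ≤ d) || !decide (p % d = 0))

/-- The first `m` of them. -/
def psOf (m : ℕ) : List ℕ := (List.range m).map fun i => (prs m).getD i 0

theorem mem_prs {m p : ℕ} : p ∈ prs m ↔ p < bnd m ∧ 5 ≤ p ∧ p.Prime := by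
  unfold prs
  rw [List.mem_filter, List.mem_range, Bool.and_eq_true, decide_eq_true_eq, List.all_eq_true]
  refine and_congr_right fun hb => and_congr_right fun h5 => ?_
  rw [Nat.prime_def_lt]
  constructor
  · intro h
    refine ⟨by omega, fun d hd hdvd => ?_⟩
    have h1 := h d (List.mem_range.2 (by omega))
    rw [Bool.or_eq_true, decide_eq_true_eq, Bool.or_eq_true, decide_eq_true_eq,
      Bool.not_eq_true', decide_eq_false_iff_not] at h1
    rcases h1 with h1 | h1 | h1
    · rcases Nat.eq_zero_or_pos d with rfl | h0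
      · rw [zero_dvd_iff] at hdvd; omega
      · omega
    · omega
    · exact absurd (Nat.mod_eq_zero_of_dvd hdvd) h1
  · rintro ⟨_, h⟩ d hd
    rw [List.mem_range] at hd
    rw [Bool.or_eq_true, decide_eq_true_eq, Bool.or_eq_true, decide_eq_true_eq,
      Bool.not_eq_true', decide_eq_false_iff_not]
    by_cases h2 : d < 2
    · exact Or.inl h2
    · right
      by_cases h4 : p ≤ d
      · exact Or.inl h4
      · right
        intro h3
        have := h d (by omega) (Nat.dvd_of_mod_eq_zero h3)
        omega

theorem prs_nodup (m : ℕ) : (prs m).Nodup := List.Nodup.filter _ List.nodup_range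

theorem le_prs_length (m : ℕ) : m ≤ (prs m).length := by
  by_contra hlt
  push Not at hlt
  set n := 8 * (m + 2) * (m + 2) with hn
  have hbn : bnd m = 2 * n + 1 := by unfold bnd; rw [hn]; ring
  set S := (Finset.range (2 * n + 1)).filter Nat.Prime with hS
  have hsub : S ⊆ insert 2 (insert 3 (prs m).toFinset) := by
    intro p hp
    rw [hS, Finset.mem_filter, Finset.mem_range] at hp
    rw [Finset.mem_insert, Finset.mem_insert, List.mem_toFinset, mem_prs, hbn]
    obtain ⟨h1, h2⟩ := hp
    by_cases h5 : 5 ≤ p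
    · exact Or.inr (Or.inr ⟨h1, h5, h2⟩)
    · have h3 := h2.two_le
      have h4 : p = 2 ∨ p = 3 ∨ p = 4 := by omega
      rcases h4 with rfl | rfl | rfl
      · exact Or.inl rfl
      · exact Or.inr (Or.inl rfl)
      · exact absurd h2 (by decide)
  have hcard : S.card ≤ m + 1 := by
    have h1 := Finset.card_le_card hsub
    have h2 := Finset.card_insert_le 2 (insert 3 (prs m).toFinset)
    have h3 := Finset.card_insert_le 3 (prs m).toFinset
    have h4 := List.toFinset_card_le (prs m)
    omega
  have hn0 : 0 < n := by rw [hn]; positivity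
  have hcb : n.centralBinom ≤ (2 * n) ^ (m + 1) := by
    rw [← Nat.prod_pow_factorization_centralBinom n]
    have h1 : ∏ p ∈ Finset.range (2 * n + 1), p ^ (n.centralBinom.factorization p) =
        ∏ p ∈ S, p ^ (n.centralBinom.factorization p) := by
      rw [hS, Finset.prod_filter]
      refine Finset.prod_congr rfl fun p _ => ?_
      split_ifs with h
      · rfl
      · rw [Nat.factorization_eq_zero_of_not_prime _ h, pow_zero]
    rw [h1]
    calc ∏ p ∈ S, p ^ (n.centralBinom.factorization p) ≤ ∏ _p ∈ S, (2 * n) := by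
          refine Finset.prod_le_prod' fun p _ => ?_
          exact Nat.pow_factorization_choose_le (by omega)
      _ = (2 * n) ^ S.card := by rw [Finset.prod_const]
      _ ≤ (2 * n) ^ (m + 1) := Nat.pow_le_pow_right (by omega) hcard
  have h4 : 4 ≤ n := by
    rw [hn]
    have : 1 ≤ (m + 2) * (m + 2) := Nat.one_le_iff_ne_zero.2 (by positivity)
    nlinarith
  have hlow := Nat.four_pow_lt_mul_centralBinom n h4
  set t := m + 2 with ht
  have hup : n * n.centralBinom ≤ 4 ^ n := by
    have e1 : n * n.centralBinom ≤ (2 * n) ^ t := by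
      calc n * n.centralBinom ≤ (2 * n) * (2 * n) ^ (m + 1) :=
            Nat.mul_le_mul (by omega) hcb
        _ = (2 * n) ^ t := by rw [ht, ← pow_succ']
    have e2 : 2 * n ≤ 2 ^ (4 + 2 * t) := by
      have h5 : t ≤ 2 ^ t := Nat.lt_two_pow_self.le
      have h6 : 2 * n = 16 * (t * t) := by rw [hn]; ring
      rw [h6, pow_add]
      have h7 : 2 ^ (2 * t) = 2 ^ t * 2 ^ t := by rw [← pow_add]; congr 1; ring
      rw [h7]
      exact Nat.mul_le_mul (by norm_num) (Nat.mul_le_mul h5 h5)
    have e3 : (4 + 2 * t) * t ≤ 2 * n := by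
      have : 1 ≤ t := by omega
      rw [hn]
      nlinarith
    calc n * n.centralBinom ≤ (2 * n) ^ t := e1
      _ ≤ (2 ^ (4 + 2 * t)) ^ t := Nat.pow_le_pow_left e2 t
      _ = 2 ^ ((4 + 2 * t) * t) := by rw [← pow_mul]
      _ ≤ 2 ^ (2 * n) := Nat.pow_le_pow_right (by norm_num) e3
      _ = 4 ^ n := by rw [pow_mul]; norm_num
  omega

theorem psOf_length (m : ℕ) : (psOf m).length = m := by unfold psOf; simp

theorem psOf_eq (m : ℕ) : psOf m = (prs m).take m := by
  unfold psOf
  apply List.ext_getElem?
  intro i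
  have h := le_prs_length m
  by_cases hi : i < m
  · rw [List.getElem?_map, List.getElem?_range hi, List.getElem?_take_of_lt hi, Option.map_some,
      List.getD_eq_getElem?_getD, List.getElem?_eq_getElem (by omega)]
    rfl
  · rw [List.getElem?_eq_none (by simp; omega), List.getElem?_eq_none (by simp; omega)]

theorem mem_psOf {m p : ℕ} (h : p ∈ psOf m) : p < bnd m ∧ 5 ≤ p ∧ p.Prime := by
  rw [psOf_eq] at h
  exact mem_prs.1 (List.mem_of_mem_take h)

theorem psOf_coprime (m : ℕ) : (psOf m).Pairwise Nat.Coprime := by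
  have h1 : (psOf m).Nodup := by
    rw [psOf_eq]
    exact (prs_nodup m).sublist (List.take_sublist _ _)
  rw [List.nodup_iff_pairwise_ne] at h1
  refine List.Pairwise.imp_of_mem ?_ h1
  intro a b ha hb hab
  exact (Nat.coprime_primes (mem_psOf ha).2.2 (mem_psOf hb).2.2).2 hab

end Pool.Agent.W995.PN
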