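import Pool.Agent.W995.PN.Red2
import Pool.Agent.W995.PN.Primes
import Pool.Agent.H656R2.AK.TQPoly

/-!
# The reduction is computable in polynomial time
-/

namespace Pool.Agent.W995.PN

open Pool.Agent.NPC Pool.Agent.H623R2.PS Pool.Agent.H656R2.AK

section gen

variable {α β : Type} [TEnc α] [TEnc β]

theorem size_prod_le (l : List ℕ) : l.prod.size ≤ sz l := by
  induction l with
  | nil => simp
  | cons x l ih =>
    rw [List.prod_cons, sz_list_cons]
    have h1 := size_le_sz x
    have h2 : (x * l.prod).size ≤ x.size + l.prod.size := by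
      rw [Nat.size_le, pow_add]
      exact Nat.mul_lt_mul'' (Nat.lt_size_self x) (Nat.lt_size_self _)
    omega

theorem poly_prodNat {l : α → List ℕ} (hl : NPC.Poly l) : NPC.Poly (fun a => (l a).prod) := by
  obtain ⟨r, hr⟩ := hl.sz_le
  have key : ∀ l : List ℕ, l.foldr (fun x s => x * s) 1 = l.prod := by
    intro l
    induction l with
    | nil => rfl
    | cons x l ih => rw [List.foldr_cons, ih, List.prod_cons]
  refine (NPC.Poly.foldr (s := fun _ => 1) (F := fun _ x s => x * s) hl (NPC.Poly.const 1)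
    (NPC.Poly.mul (NPC.Poly.fst (NPC.Poly.snd NPC.Poly.id))
      (NPC.Poly.snd (NPC.Poly.snd NPC.Poly.id)))
    (Polynomial.C 4 * r + Polynomial.C 1) ?_).congr fun a => key _
  intro a k _
  rw [key]
  have h1 := sz_nat_le ((l a).drop k).prod
  have h2 := size_prod_le ((l a).drop k)
  have h3 := NPC.Poly.sz_drop_le (l a) k
  have h4 := hr a
  simp only [Polynomial.eval_add, Polynomial.eval_mul, Polynomial.eval_C]
  omega

theorem poly_headD {l : α → List ℕ} {d : α → ℕ} (hl : NPC.Poly l) (hd : NPC.Poly d) :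
    NPC.Poly (fun a => (l a).headD (d a)) := by
  refine (NPC.Poly.optGetD (NPC.Poly.head? hl) hd).congr fun a => ?_
  cases l a <;> rfl

theorem poly_drop {l : α → List β} {n : α → ℕ} (hl : NPC.Poly l) (hn : NPC.Poly n) :
    NPC.Poly (fun a => (l a).drop (n a)) := by
  have h : NPC.Poly (fun a => ((l a).zipIdx.filter (fun p => decide (n a ≤ p.2))).map Prod.fst) := by
    have : NPC.Poly (fun a => ((l a).zipIdx.filter (fun p => decide (n a ≤ p.2))).map
      (fun p => p.1)) := by fun_prop
    exact this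
  refine h.congr fun a => ?_
  generalize l a = l
  generalize n a = n
  have key : ∀ (l : List β) (n k : ℕ), ((l.zipIdx k).filter (fun p => decide (n + k ≤ p.2))).map
      Prod.fst = l.drop n := by
    intro l
    induction l with
    | nil => intro n k; simp
    | cons x l ih =>
      intro n k
      cases n with
      | zero =>
        rw [List.zipIdx_cons, List.filter_cons]
        have h1 : (decide (0 + k ≤ (x, k).2)) = true := by simp
        rw [if_pos h1, List.map_cons, List.drop_zero]
        congr 1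
        have h2 := ih 0 (k + 1)
        rw [List.drop_zero] at h2
        conv_rhs => rw [← h2]
        congr 1
        apply List.filter_congr
        intro p hp
        have := List.le_snd_of_mem_zipIdx hp
        simp only [decide_eq_decide]
        omega
      | succ n =>
        rw [List.zipIdx_cons, List.filter_cons]
        have h1 : ¬ (decide (n + 1 + k ≤ (x, k).2)) = true := by simp
        rw [if_neg h1, List.drop_succ_cons, ← ih n (k + 1)]
        congr 2
        funext p
        congr 1
        apply propext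
        omega
  have := key l n 0
  simpa using this

theorem poly_inv {P q r : α → ℕ} (hP : UPoly P) (hq : NPC.Poly q) (hr : NPC.Poly r) :
    NPC.Poly (fun a => inv (P a) (q a) (r a)) := by
  have h := hP.range
  unfold inv
  refine poly_headD ?_ (NPC.Poly.const 0)
  fun_prop

attribute [fun_prop] poly_prodNat poly_headD poly_drop

theorem poly_wq {B P q x : α → ℕ} {qs : α → List ℕ} (hB : NPC.Poly B) (hP : UPoly P)
    (hqs : NPC.Poly qs) (hq : NPC.Poly q) (hx : NPC.Poly x) :
    NPC.Poly (fun a => wq (B a) (P a) (qs a) (q a) (x a)) := by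
  have h1 : NPC.Poly (fun a => inv (P a) (q a) ((qs a).prod / q a)) :=
    poly_inv hP hq (by fun_prop)
  unfold wq
  fun_prop

theorem poly_wti {B P i k x : α → ℕ} {ps : α → List ℕ} (hB : NPC.Poly B) (hP : UPoly P)
    (hps : NPC.Poly ps) (hi : NPC.Poly i) (hk : NPC.Poly k) (hx : NPC.Poly x) :
    NPC.Poly (fun a => wti (B a) (P a) (ps a) (i a) (k a) (x a)) := by
  have h1 : NPC.Poly (fun a => wq (B a) (P a) ((ps a).drop (i a)) ((ps a).getD (k a) 1) (x a)) :=
    poly_wq hB hP (by fun_prop) (by fun_prop) hx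
  unfold wti
  fun_prop

theorem poly_winv (c : ℕ) {w : α → List (Bool × ℕ)} (hw : NPC.Poly w) :
    NPC.Poly (fun a => winv c (w a)) := by
  unfold winv
  induction c with
  | zero => simp only [List.replicate_zero, List.flatten_nil]; fun_prop
  | succ c ih =>
    simp only [List.replicate_succ, List.flatten_cons]
    fun_prop

theorem poly_wcm (c : ℕ) {wg wy : α → List (Bool × ℕ)} (hg : NPC.Poly wg) (hy : NPC.Poly wy) :
    NPC.Poly (fun a => wcm c (wg a) (wy a)) := by
  have h1 := poly_winv c hg
  have h2 := poly_winv c hy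
  unfold wcm
  fun_prop

theorem poly_gateW (c m gc : ℕ) {lx ly : α → Bool × ℕ} (hx : NPC.Poly lx) (hy : NPC.Poly ly) :
    NPC.Poly (fun a => gateW c m gc (lx a) (ly a)) := by
  unfold gateW
  induction m with
  | zero =>
    simp only [Function.iterate_zero, id]
    exact poly_wcm c (by fun_prop) (by fun_prop)
  | succ m ih =>
    simp only [Function.iterate_succ_apply']
    exact poly_wcm c (by fun_prop) ih

theorem poly_rowW (c m gc : ℕ) {N KR R L : α → ℕ} {r : α → ARow} (hN : NPC.Poly N)
    (hKR : NPC.Poly KR) (hR : NPC.Poly R) (hL : NPC.Poly L) (hr : NPC.Poly r) :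
    NPC.Poly (fun a => rowW c m gc (N a) (KR a) (R a) (L a) (r a)) := by
  have h1 : NPC.Poly (fun a => gateW c m gc (false, N a + ((r a).1.1 * R a + (r a).1.2 * L a))
      (false, (r a).2.2)) := poly_gateW c m gc (by fun_prop) (by fun_prop)
  have h2 : NPC.Poly (fun a => gateW c m gc (false, N a + KR a + ((r a).1.1 * R a +
      (r a).1.2 * L a)) (false, (r a).2.1)) := poly_gateW c m gc (by fun_prop) (by fun_prop)
  unfold rowW
  fun_prop

theorem poly_copyW {ps : α → List ℕ} {L R off i : α → ℕ} (hps : NPC.Poly ps) (hL : NPC.Poly L)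
    (hR : NPC.Poly R) (ho : NPC.Poly off) (hi : NPC.Poly i) :
    NPC.Poly (fun a => copyW (ps a) (L a) (R a) (off a) (i a)) := by
  unfold copyW
  fun_prop

theorem poly_netW (c m gc : ℕ) {rows : α → List ARow} {ps : α → List ℕ} {L R : α → ℕ}
    (hrows : NPC.Poly rows) (hps : NPC.Poly ps) (hL : NPC.Poly L) (hR : UPoly R) :
    NPC.Poly (fun a => netW c m gc (rows a) (ps a) (L a) (R a)) := by
  have hRp := hR.toPoly
  have hrg : NPC.Poly (fun a => List.range ((ps a).length * R a)) := ((UPoly.length hps).mul hR).range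
  unfold netW
  refine NPC.Poly.append ?_ (NPC.Poly.append ?_ ?_)
  · refine NPC.Poly.map (F := fun a r => rowW c m gc (rows a).length ((ps a).length * R a) (R a)
      (L a) r) hrows ?_
    exact poly_rowW (α := α × ARow) c m gc (N := fun p => (rows p.1).length)
      (KR := fun p => (ps p.1).length * R p.1) (R := fun p => R p.1) (L := fun p => L p.1)
      (r := fun p => p.2) (by fun_prop) (by fun_prop) (by fun_prop) (by fun_prop) (by fun_prop)
  · refine NPC.Poly.map (F := fun a i => copyW (ps a) (L a) (R a) (rows a).length i) hrg ?_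
    exact poly_copyW (α := α × ℕ) (ps := fun p => ps p.1) (L := fun p => L p.1)
      (R := fun p => R p.1) (off := fun p => (rows p.1).length) (i := fun p => p.2)
      (by fun_prop) (by fun_prop) (by fun_prop) (by fun_prop) (by fun_prop)
  · refine NPC.Poly.map (F := fun a i => copyW (ps a) (L a) (R a) ((rows a).length +
      (ps a).length * R a) i) hrg ?_
    exact poly_copyW (α := α × ℕ) (ps := fun p => ps p.1) (L := fun p => L p.1)
      (R := fun p => R p.1) (off := fun p => (rows p.1).length + (ps p.1).length * R p.1)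
      (i := fun p => p.2)
      (by fun_prop) (by fun_prop) (by fun_prop) (by fun_prop) (by fun_prop)

theorem poly_Xb {ps : α → List ℕ} {L k j : α → ℕ} (hps : NPC.Poly ps) (hL : NPC.Poly L)
    (hk : NPC.Poly k) (hj : NPC.Poly j) : NPC.Poly (fun a => Xb (ps a) (L a) (k a) (j a) 0) := by
  unfold Xb
  fun_prop

theorem poly_netS (c1 gc yc : ℕ) {accs : α → List Bool} {ps : α → List ℕ} {L R : α → ℕ}
    (hacc : NPC.Poly accs) (hps : NPC.Poly ps) (hL : NPC.Poly L) (hR : UPoly R) :
    NPC.Poly (fun a => netS c1 gc yc (accs a) (ps a) (L a) (R a)) := by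
  have hRp := hR.toPoly
  have hrg : NPC.Poly (fun a => List.range ((ps a).length * R a)) := ((UPoly.length hps).mul hR).range
  have hX : NPC.Poly (fun p : α × ℕ => Xb (ps p.1) (L p.1) (p.2 / R p.1) (p.2 % R p.1) 0) :=
    poly_Xb (by fun_prop) (by fun_prop) (by fun_prop) (by fun_prop)
  unfold netS
  refine NPC.Poly.append ?_ (NPC.Poly.append ?_ ?_)
  · fun_prop
  · refine NPC.Poly.map (F := fun a i => bif Xb (ps a) (L a) (i / R a) (i % R a) 0 then gc
      else c1) hrg ?_
    exact NPC.Poly.cond hX (by fun_prop) (by fun_prop)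
  · refine NPC.Poly.map (F := fun a i => bif Xb (ps a) (L a) (i / R a) (i % R a) 0 then c1
      else gc) hrg ?_
    exact NPC.Poly.cond hX (by fun_prop) (by fun_prop)

/-! ### The automaton -/

theorem poly_prod2 {γ : Type} [TEnc γ] {l : α → List β} {l' : α → List γ} (hl : NPC.Poly l)
    (hl' : NPC.Poly l') : NPC.Poly (fun a => l a ×ˢ l' a) := by fun_prop

theorem poly_modes {m : α → ℕ} (hm : UPoly m) : NPC.Poly (fun a => modes (m a)) := by
  have h := hm.range
  unfold modes
  fun_prop

theorem poly_opsL {m : α → ℕ} (hm : UPoly m) : NPC.Poly (fun a => opsL (m a)) := by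
  have h := hm.range
  unfold opsL
  fun_prop

theorem poly_ctls {m : α → ℕ} (hm : UPoly m) : NPC.Poly (fun a => ctls (m a)) := by
  have h1 := poly_modes hm
  have h2 := poly_opsL hm
  unfold ctls
  fun_prop

theorem poly_stsL {m L Sm : α → ℕ} (hm : UPoly m) (hL : UPoly L) (hS : UPoly Sm) :
    NPC.Poly (fun a => stsL (m a) (L a) (Sm a)) := by
  have h1 := poly_ctls hm
  have h2 := hL.range
  have h3 : NPC.Poly (fun a => List.range (Sm a + 1)) := (hS.add (UPoly.const 1)).range
  unfold stsL
  fun_prop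

theorem poly_prg {Q : α → QF} (hQ : NPC.Poly Q) :
    NPC.Poly (fun a => prg (Q a).1.length (Q a).2) := by
  have h : NPC.Poly (fun a => List.range (Q a).1.length) :=
    (UPoly.length (NPC.Poly.fst hQ)).range
  unfold prg
  fun_prop

theorem uPoly_LL {P : α → ℕ} {Q : α → QF} (hP : UPoly P) (hQ : NPC.Poly Q) :
    UPoly (fun a => LL (P a) (Q a)) := by
  unfold LL
  exact (UPoly.length (poly_prg hQ)).mul ((UPoly.length (NPC.Poly.fst hQ)).mul hP)

theorem poly_SS {B P : α → ℕ} {Q : α → QF} (hB : UPoly B) (hP : UPoly P) (hQ : NPC.Poly Q) :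
    NPC.Poly (fun a => SS (B a) (P a) (Q a)) := by
  unfold SS
  exact poly_stsL (UPoly.length (NPC.Poly.fst hQ)) (uPoly_LL hP hQ)
    ((UPoly.length (NPC.Poly.fst hQ)).mul hB)

theorem poly_midOp {q : α → Bool} {i : α → ℕ} {s : α → Mode} (hq : NPC.Poly q) (hi : NPC.Poly i)
    (hs : NPC.Poly s) : NPC.Poly (fun a => midOp (q a) (i a) (s a)) := by
  have h : NPC.Poly (fun a => (s a).elim (none : Mode) fun p => p.2.elim
      (if q a = p.1 then none else some (p.1, some (i a))) fun j => some (p.1, some j)) := by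
    fun_prop
  refine h.congr fun a => ?_
  rcases s a with _ | ⟨v, _ | j⟩ <;> rfl

theorem poly_closeOp {i : α → ℕ} {s : α → Mode} (hi : NPC.Poly i)
    (hs : NPC.Poly s) : NPC.Poly (fun a => closeOp (i a) (s a)) := by
  have h : NPC.Poly (fun a => (s a).elim (none : Mode) fun p => p.2.elim
      (some (p.1, none)) fun j => if i a = j then some (p.1, none) else some (p.1, some j)) := by
    fun_prop
  refine h.congr fun a => ?_
  rcases s a with _ | ⟨v, _ | j⟩ <;> rfl

theorem poly_opd {i d : α → ℕ} (hi : NPC.Poly i) (hd : NPC.Poly d) :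
    NPC.Poly (fun a => opd (i a) (d a)) := by
  unfold opd
  fun_prop

theorem poly_newMode {qs : α → List Bool} {al : α → Bool} {op : α → Option (Bool × ℕ)}
    {s : α → Mode} (hqs : NPC.Poly qs) (hal : NPC.Poly al) (hop : NPC.Poly op) (hs : NPC.Poly s) :
    NPC.Poly (fun a => newMode (qs a) (al a) (op a) (s a)) := by
  unfold newMode
  refine NPC.Poly.optElim (g := fun a => if s a = none then some (al a, none) else s a)
    (h := fun a o => bif o.1 then closeOp o.2 (s a) else midOp ((qs a).getD o.2 false) o.2 (s a))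
    hop (by fun_prop) ?_
  refine NPC.Poly.cond (by fun_prop) ?_ ?_
  · exact poly_closeOp (by fun_prop) (by fun_prop)
  · exact poly_midOp (by fun_prop) (by fun_prop) (by fun_prop)

theorem poly_beqBool {b c : α → Bool} (hb : NPC.Poly b) (hc : NPC.Poly c) :
    NPC.Poly (fun a => (b a == c a)) := by
  have h : NPC.Poly (fun a => !(b a ^^ c a)) := by fun_prop
  refine h.congr fun a => ?_
  cases b a <;> cases c a <;> rfl

attribute [fun_prop] poly_beqBool

theorem poly_ac {qs : α → List Bool} {t : α → Tag} {d : α → ℕ} {z : α → Ctl} (hqs : NPC.Poly qs)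
    (ht : NPC.Poly t) (hd : NPC.Poly d) (hz : NPC.Poly z) :
    NPC.Poly (fun a => ac (qs a) (t a) (d a) (z a)) := by
  have h1 : NPC.Poly (fun a => opd (t a).2.1 (d a)) := poly_opd (by fun_prop) hd
  have h2 : NPC.Poly (fun a => newMode (qs a) (z a).2.2.2.1 (z a).2.2.1 (z a).1) :=
    poly_newMode hqs (by fun_prop) (by fun_prop) (by fun_prop)
  unfold ac
  fun_prop

theorem poly_newS {B P : α → ℕ} {ps : α → List ℕ} {Q : α → QF} {s : α → ℕ × ℕ × Ctl}
    {b : α → Bool} (hB : NPC.Poly B) (hP : UPoly P) (hps : NPC.Poly ps) (hQ : NPC.Poly Q)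
    (hs : NPC.Poly s) (hb : NPC.Poly b) :
    NPC.Poly (fun a => newS (wtT (B a) (P a) (ps a)) (prg (Q a).1.length (Q a).2)
      ((3, 0, false) : Tag) (ps a).length (P a) ((ps a).length * B a) (s a) (b a)) := by
  have hPp := hP.toPoly
  have h1 := poly_prg hQ
  have h2 : NPC.Poly (fun a => wti (B a) (P a) (ps a)
      ((prg (Q a).1.length (Q a).2).getD ((s a).1 / ((ps a).length * P a))
        ((3, 0, false) : Tag)).2.1 ((s a).1 / P a % (ps a).length) ((s a).1 % P a)) :=
    poly_wti hB hP hps (by fun_prop) (by fun_prop) (by fun_prop)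
  unfold newS wtT
  fun_prop

theorem poly_NX {B P : α → ℕ} {ps : α → List ℕ} {Q : α → QF} {s : α → ℕ × ℕ × Ctl}
    {b : α → Bool} (hB : NPC.Poly B) (hP : UPoly P) (hps : NPC.Poly ps) (hQ : NPC.Poly Q)
    (hs : NPC.Poly s) (hb : NPC.Poly b) :
    NPC.Poly (fun a => NX (B a) (P a) (ps a) (Q a) (s a) (b a)) := by
  have hPp := hP.toPoly
  have h1 := poly_prg hQ
  have h2 := poly_newS hB hP hps hQ hs hb
  have h3 : NPC.Poly (fun a => dgT (B a) (ps a) ((prg (Q a).1.length (Q a).2).getD
      ((s a).1 / ((ps a).length * P a)) ((3, 0, false) : Tag))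
        (newS (wtT (B a) (P a) (ps a)) (prg (Q a).1.length (Q a).2)
      ((3, 0, false) : Tag) (ps a).length (P a) ((ps a).length * B a) (s a) (b a))) := by
    unfold dgT digq
    fun_prop
  have h4 : NPC.Poly (fun a => ac (Q a).1 ((prg (Q a).1.length (Q a).2).getD
      ((s a).1 / ((ps a).length * P a)) ((3, 0, false) : Tag))
      (dgT (B a) (ps a) ((prg (Q a).1.length (Q a).2).getD
      ((s a).1 / ((ps a).length * P a)) ((3, 0, false) : Tag))
        (newS (wtT (B a) (P a) (ps a)) (prg (Q a).1.length (Q a).2)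
      ((3, 0, false) : Tag) (ps a).length (P a) ((ps a).length * B a) (s a) (b a))) (s a).2.2) :=
    poly_ac (by fun_prop) (by fun_prop) h3 (by fun_prop)
  unfold NX nxP Lp
  fun_prop

theorem poly_rowsOf {B P : α → ℕ} {ps : α → List ℕ} {Q : α → QF} (hB : UPoly B) (hP : UPoly P)
    (hps : NPC.Poly ps) (hQ : NPC.Poly Q) :
    NPC.Poly (fun a => rowsOf (SS (B a) (P a) (Q a)) (testP (ps a).length (P a))
      (NX (B a) (P a) (ps a) (Q a))) := by
  have hBp := hB.toPoly
  have hPp := hP.toPoly
  have hS := poly_SS hB hP hQ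
  unfold rowsOf
  refine NPC.Poly.map (F := fun a s => (testP (ps a).length (P a) s,
    index (SS (B a) (P a) (Q a)) (NX (B a) (P a) (ps a) (Q a) s false),
    index (SS (B a) (P a) (Q a)) (NX (B a) (P a) (ps a) (Q a) s true))) hS ?_
  have h1 : ∀ b : Bool, NPC.Poly (fun p : α × (ℕ × ℕ × Ctl) =>
      index (SS (B p.1) (P p.1) (Q p.1)) (NX (B p.1) (P p.1) (ps p.1) (Q p.1) p.2 b)) := by
    intro b
    refine NPC.Poly.index (hS.comp (NPC.Poly.fst NPC.Poly.id)) ?_
    exact poly_NX (by fun_prop) (hP.comp (NPC.Poly.fst NPC.Poly.id)) (by fun_prop) (by fun_prop)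
      (by fun_prop) (by fun_prop)
  have h2 := h1 false
  have h3 := h1 true
  unfold testP
  fun_prop

theorem poly_instQ (c m c1 gc yc : ℕ) {B P : α → ℕ} {ps : α → List ℕ} {Q : α → QF} (hB : UPoly B)
    (hP : UPoly P) (hps : NPC.Poly ps) (hQ : NPC.Poly Q) :
    NPC.Poly (fun a => instQ c m c1 gc yc (B a) (P a) (ps a) (Q a)) := by
  have hS := poly_SS hB hP hQ
  have hrows := poly_rowsOf hB hP hps hQ
  have hL := uPoly_LL hP hQ
  have hR : UPoly (fun a => P a * LL (P a) (Q a)) := hP.mul hL
  have hacc : NPC.Poly (fun a => (SS (B a) (P a) (Q a)).map AC) := by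
    unfold AC
    fun_prop
  have h1 := poly_netW c m gc hrows hps hL.toPoly hR
  have h2 := poly_netS c1 gc yc hacc hps hL.toPoly hR
  have h3 := hL.toPoly
  have h4 : NPC.Poly (fun a => index (SS (B a) (P a) (Q a)) ((0, 0, z0) : ℕ × ℕ × Ctl)) :=
    NPC.Poly.index hS (by fun_prop)
  unfold instQ netI
  fun_prop

theorem uPoly_bnd {m : α → ℕ} (hm : UPoly m) : UPoly (fun a => bnd (m a)) := by
  unfold bnd
  exact (((UPoly.const 16).mul (hm.add (UPoly.const 2))).mul (hm.add (UPoly.const 2))).add
    (UPoly.const 1)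

theorem poly_psOf {m : α → ℕ} (hm : UPoly m) : NPC.Poly (fun a => psOf (m a)) := by
  have h1 := hm.range
  have h2 := (uPoly_bnd hm).range
  have h3 : NPC.Poly (fun a => prs (m a)) := by
    unfold prs
    refine NPC.Poly.filter (l := fun a => List.range (bnd (m a))) (p := fun a p =>
      decide (5 ≤ p) && (List.range (bnd (m a))).all fun d =>
        decide (d < 2) || (decide (p ≤ d) || !decide (p % d = 0))) h2 ?_
    refine NPC.Poly.and (by fun_prop) ?_
    exact NPC.Poly.all (l := fun p : α × ℕ => List.range (bnd (m p.1))) (p := fun p d =>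
      decide (d < 2) || (decide (p.2 ≤ d) || !decide (p.2 % d = 0)))
      (h2.comp (NPC.Poly.fst NPC.Poly.id)) (by fun_prop)
  unfold psOf
  exact NPC.Poly.map (F := fun a i => (prs (m a)).getD i 0) h1
    (NPC.Poly.getD (h3.comp (NPC.Poly.fst NPC.Poly.id)) (NPC.Poly.snd NPC.Poly.id)
      (NPC.Poly.const 0))

end gen

section final

variable {G : Type} [Group G] [Fintype G] (e : Fin (Fintype.card G) ≃ G)

/-- The bound for the precision. -/
def Bd (m : ℕ) : ℕ := 5 * m * bnd m + 1

/-- The reduction. -/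
noncomputable def redQ (c m c1 gc yc : ℕ) (Q : QF) : Inst :=
  if Q.1.length = 0 then ([], [if Q.2 = [] then yc else c1], 0, 0, yc)
  else instQ c m c1 gc yc (Bd Q.1.length) (bnd Q.1.length) (psOf Q.1.length) Q

theorem poly_redQ (c m c1 gc yc : ℕ) : NPC.Poly (redQ c m c1 gc yc) := by
  have hm : UPoly (fun Q : QF => Q.1.length) := UPoly.length (by fun_prop)
  have hP : UPoly (fun Q : QF => bnd Q.1.length) := uPoly_bnd hm
  have hB : UPoly (fun Q : QF => Bd Q.1.length) := by
    unfold Bd
    exact (((UPoly.const 5).mul hm).mul hP).add (UPoly.const 1)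
  have h1 : NPC.Poly (fun Q : QF => instQ c m c1 gc yc (Bd Q.1.length) (bnd Q.1.length)
      (psOf Q.1.length) Q) := poly_instQ c m c1 gc yc hB hP (poly_psOf hm) NPC.Poly.id
  have : redQ c m c1 gc yc = fun Q => if Q.1.length = 0 then
      ([], [if Q.2 = [] then yc else c1], 0, 0, yc)
      else instQ c m c1 gc yc (Bd Q.1.length) (bnd Q.1.length) (psOf Q.1.length) Q := rfl
  rw [this]
  fun_prop

theorem PRED_redQ {g y : G} {m : ℕ} (hy1 : y ≠ 1) (hy : (cm g)^[m + 1] y = y) {Q : QF}
    (hwf : QFwf Q) :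
    PRED e (redQ (Fintype.card G - 1) m (code e 1) (code e g) (code e y) Q) ↔
      evq Q.1 (fun v => evc v Q.2) = true := by
  unfold redQ
  split_ifs with h0 h1
  · rw [List.length_eq_zero_iff] at h0
    rw [h0, h1]
    simp [PRED, start, el_code, evq, evc]
  · rw [List.length_eq_zero_iff] at h0
    rw [h0]
    have h2 : evc [] Q.2 = false := by
      obtain ⟨c, C, hC⟩ := List.exists_cons_of_ne_nil h1
      have h3 : c = [] := by
        by_contra hc
        obtain ⟨l, c', hc'⟩ := List.exists_cons_of_ne_nil hc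
        have := hwf c (by rw [hC]; simp) l (by rw [hc']; simp)
        rw [h0] at this
        simp at this
      unfold evc
      rw [hC, h3]
      simp
    simp [PRED, start, el_code, evq, h2, Ne.symm hy1]
  · have hm : 0 < Q.1.length := Nat.pos_of_ne_zero h0
    refine PRED_instQ e hy1 hy hwf (psOf_length _) hm ?_ ?_ (psOf_coprime _)
      (fun q hq => (mem_psOf hq).2.1) (fun q hq => (mem_psOf hq).1.le)
    · unfold bnd; omega
    · rw [psOf_length]; unfold Bd; omega

/-- If `G` is not nilpotent then the prediction problem is hard for polynomial space. -/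
theorem pred_hard (hG : ¬ Group.IsNilpotent G) : PSPACEHard (lang (PRED e)) := by
  obtain ⟨g, y, m, hy1, hy⟩ := exists_gadget hG
  intro L hL
  obtain ⟨f, hf, hwf, hf'⟩ := qbf_hard hL
  have h1 : NPC.Poly (fun x => redQ (Fintype.card G - 1) m (code e 1) (code e g) (code e y)
      (f x)) := (poly_redQ _ _ _ _ _).comp hf
  exact ⟨fun x => bits (redQ (Fintype.card G - 1) m (code e 1) (code e g) (code e y) (f x)),
    polyTime_bits h1, fun x => by rw [hf' x, bits_mem_lang, PRED_redQ e hy1 hy (hwf x)]⟩

end final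

end Pool.Agent.W995.PN
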