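import Pool.Agent.W995.PN.Alg

/-!
# The matrix of a network acting on monomials, and its powers
-/

namespace Pool.Agent.W995.PN

/-- One letter: multiplication of a column of vectors by the matrix of the cell `j`. -/
def lstep (p r : ℕ) (ms : List Mn) (j : ℕ) (old : List (List ℕ)) : List (List ℕ) :=
  (List.range r).map fun a => ms.map fun μ =>
    ((List.range r).map fun c => if c = a then lk 0 ms (old.getD a []) μ
      else if c < a then prepF ms (j, a, c) (old.getD c []) μ else 0).sum % p

/-- The unit column, multiplied by a vector. -/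
def base (r : ℕ) (ms : List Mn) (b : ℕ) (C : List ℕ) : List (List ℕ) :=
  (List.range r).map fun a => ms.map fun μ => if a = b then lk 0 ms C μ else 0

/-- The entries of the column `b` of the matrix of a word, multiplied by a vector. -/
def Ew (p r : ℕ) (ms : List Mn) (w : List ℕ) (b : ℕ) (C : List ℕ) : List (List ℕ) :=
  w.foldr (fun j old => lstep p r ms j old) (base r ms b C)

/-- The unit vector. -/
def unitV (ms : List Mn) : List ℕ := ms.map fun μ => if μ = [] then 1 else 0

/-- The row of a monomial. -/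
def Krow (p r : ℕ) (ms : List Mn) (W : List (List ℕ)) (μ : Mn) : List ℕ :=
  μ.foldr (fun v C => (Ew p r ms (W.getD v.1 []) v.2.2 C).getD v.2.1 []) (unitV ms)

/-- The matrix. -/
def Kmat (p r : ℕ) (ms : List Mn) (W : List (List ℕ)) : List (List ℕ) := ms.map (Krow p r ms W)

/-- The product of two matrices. -/
def mulM (p : ℕ) (ms : List Mn) (K K' : List (List ℕ)) : List (List ℕ) :=
  ms.map fun μ => ms.map fun ν =>
    (ms.map fun κ => lk 0 ms (lk [] ms K μ) κ * lk 0 ms (lk [] ms K' κ) ν).sum % p

/-- The identity matrix. -/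
def oneM (ms : List Mn) : List (List ℕ) := ms.map fun μ => ms.map fun ν => if ν = μ then 1 else 0

/-- The power of a matrix with the exponent given by a list of bits. -/
def powM (p : ℕ) (ms : List Mn) (K : List (List ℕ)) (bs : List Bool) : List (List ℕ) :=
  bs.foldr (fun b acc => bif b then mulM p ms (mulM p ms acc acc) K else mulM p ms acc acc)
    (oneM ms)

section sem

variable {G : Type} [Group G] {p r : ℕ} (rho : G → ℕ → ℕ → ZMod p)
variable {R : Type} [CommRing R] (φ : ZMod p →+* R) (ε : R)

theorem vR_eq_MR (X : ℕ → G) {v : Vr} (hv : v.2.2 < v.2.1) :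
    vR rho φ ε X v = MR rho φ ε (X v.1) v.2.1 v.2.2 := by
  unfold vR MR
  rw [if_pos hv.le]

theorem sum_list_range (f : ℕ → R) (r : ℕ) :
    ((List.range r).map f).sum = ∑ c ∈ Finset.range r, f c := by
  induction r with
  | zero => simp
  | succ r ih => rw [List.range_succ, List.map_append, List.sum_append, ih, Finset.sum_range_succ]; simp

theorem getD_map_range {β : Type} (f : ℕ → β) {r a : ℕ} (ha : a < r) (d : β) :
    ((List.range r).map f).getD a d = f a := by
  rw [List.getD_eq_getElem?_getD, List.getElem?_map, List.getElem?_range ha]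
  rfl

theorem sem_base (h : UT r rho) {n : ℕ} (X : ℕ → G) {a b : ℕ} (ha : a < r) (hb : b < r)
    (C : List ℕ) : sem' (r := r) rho φ ε n X ((base r (mons r n) b C).getD a []) =
      MR rho φ ε 1 a b * sem' (r := r) rho φ ε n X C := by
  unfold base
  rw [getD_map_range _ ha, sem'_map, MR_one rho φ ε h ha hb]
  split_ifs with hab
  · rw [one_mul]
    rfl
  · rw [zero_mul, semF_eq]
    refine Finset.sum_eq_zero fun μ _ => ?_
    simp

theorem sem_lstep (h : UT r rho) (hε : ε ^ (r + 1) = 0) {n : ℕ} (X : ℕ → G) {j : ℕ} (hj : j < n)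
    {a : ℕ} (ha : a < r) (old : List (List ℕ)) :
    sem' (r := r) rho φ ε n X ((lstep p r (mons r n) j old).getD a []) =
      ∑ c ∈ Finset.range r, MR rho φ ε (X j) a c *
        sem' (r := r) rho φ ε n X (old.getD c []) := by
  unfold lstep
  rw [getD_map_range _ ha, sem'_map]
  rw [semF_congr (F' := fun μ => ((List.range r).map fun c => if c = a then
    lk 0 (mons r n) (old.getD a []) μ else if c < a then
      prepF (mons r n) (j, a, c) (old.getD c []) μ else 0).sum) rho φ ε n X
        (fun μ _ => cast_mod φ _)]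
  rw [semF_sum rho φ ε n X (List.range r) (fun c μ => if c = a then
    lk 0 (mons r n) (old.getD a []) μ else if c < a then
      prepF (mons r n) (j, a, c) (old.getD c []) μ else 0), sum_list_range]
  refine Finset.sum_congr rfl fun c hc => ?_
  rw [Finset.mem_range] at hc
  by_cases h1 : c = a
  · subst h1
    rw [MR_diag rho φ ε h _ ha, one_mul]
    simp only [if_true]
    rfl
  · by_cases h2 : c < a
    · simp only [h1, h2, if_true, if_false]
      have hv : ((j, a, c) : Vr) ∈ varsL r n := mem_varsL.2 ⟨hj, h2, ha⟩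
      have := semF_prep rho φ ε hε X hv (old.getD c [])
      rw [vR_eq_MR rho φ ε X (v := (j, a, c)) h2] at this
      exact this
    · simp only [h1, h2, if_false]
      have h3 : MR rho φ ε (X j) a c = 0 := by
        unfold MR
        rw [if_neg (by omega)]
      rw [h3, zero_mul, semF_eq]
      refine Finset.sum_eq_zero fun μ _ => ?_
      simp

theorem sem_Ew (h : UT r rho) (hε : ε ^ (r + 1) = 0) {n : ℕ} (X : ℕ → G) {b : ℕ} (hb : b < r)
    (C : List ℕ) : ∀ (w : List ℕ), (∀ j ∈ w, j < n) → ∀ a < r,
    sem' (r := r) rho φ ε n X ((Ew p r (mons r n) w b C).getD a []) =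
      MR rho φ ε ((w.map X).prod) a b * sem' (r := r) rho φ ε n X C
  | [], _, a, ha => by
    rw [List.map_nil, List.prod_nil]
    exact sem_base rho φ ε h X ha hb C
  | j :: w, hw, a, ha => by
    have e1 : Ew p r (mons r n) (j :: w) b C = lstep p r (mons r n) j (Ew p r (mons r n) w b C) :=
      rfl
    rw [e1, sem_lstep rho φ ε h hε X (hw j (by simp)) ha, List.map_cons, List.prod_cons,
      MR_mul rho φ ε h _ _ ha hb, Finset.sum_mul]
    refine Finset.sum_congr rfl fun c hc => ?_
    rw [sem_Ew h hε X hb C w (fun i hi => hw i (by simp [hi])) c (Finset.mem_range.1 hc), mul_assoc]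

/-- One step of a network without constants. -/
def stepW (W : List (List ℕ)) (X : ℕ → G) : ℕ → G := fun i => ((W.getD i []).map X).prod

theorem sem_unit {n : ℕ} (X : ℕ → G) : sem' (r := r) rho φ ε n X (unitV (mons r n)) = 1 := by
  unfold unitV
  rw [sem'_map, semF_eq, Finset.sum_eq_single ([] : Mn)]
  · simp [valR]
  · intro μ _ hne
    simp [hne]
  · intro hne
    exact absurd (List.mem_toFinset.2 (mem_mons.2 ⟨by simp, by simp [wtM]⟩)) hne

theorem sem_Krow (h : UT r rho) (hε : ε ^ (r + 1) = 0) {n : ℕ} (X : ℕ → G) {W : List (List ℕ)}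
    (hW : ∀ w ∈ W, ∀ j ∈ w, j < n) : ∀ μ : Mn, (∀ v ∈ μ, v ∈ varsL r n) →
    sem' (r := r) rho φ ε n X (Krow p r (mons r n) W μ) = valR rho φ ε (stepW W X) μ
  | [], _ => by
    have : Krow p r (mons r n) W [] = unitV (mons r n) := rfl
    rw [this, sem_unit]
    simp [valR]
  | v :: μ, hμ => by
    have hv := hμ v (by simp)
    obtain ⟨_, hv2, hv3⟩ := mem_varsL.1 hv
    have e1 : Krow p r (mons r n) W (v :: μ) = (Ew p r (mons r n) (W.getD v.1 []) v.2.2
      (Krow p r (mons r n) W μ)).getD v.2.1 [] := rfl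
    have hw : ∀ j ∈ W.getD v.1 [], j < n := by
      intro j hj
      by_cases hlt : v.1 < W.length
      · rw [List.getD_eq_getElem?_getD, List.getElem?_eq_getElem hlt] at hj
        exact hW _ (List.getElem_mem hlt) j hj
      · rw [List.getD_eq_default _ _ (by omega)] at hj
        simp at hj
    rw [e1, sem_Ew rho φ ε h hε X (by omega : v.2.2 < r) _ _ hw v.2.1 hv3,
      sem_Krow h hε X hW μ (fun u hu => hμ u (by simp [hu]))]
    unfold valR
    rw [List.map_cons, List.prod_cons, vR_eq_MR rho φ ε _ hv2]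
    rfl

/-- The matrix `K` describes the map `f`. -/
def Desc (r n : ℕ) (f : (ℕ → G) → (ℕ → G)) (K : List (List ℕ)) : Prop :=
  ∀ X : ℕ → G, ∀ μ ∈ mons r n, sem' (r := r) rho φ ε n X (lk [] (mons r n) K μ) =
    valR rho φ ε (f X) μ

theorem desc_Kmat (h : UT r rho) (hε : ε ^ (r + 1) = 0) {n : ℕ} {W : List (List ℕ)}
    (hW : ∀ w ∈ W, ∀ j ∈ w, j < n) :
    Desc rho φ ε r n (stepW W) (Kmat p r (mons r n) W) := by
  intro X μ hμ
  unfold Kmat
  rw [lk_map, if_pos hμ]
  exact sem_Krow rho φ ε h hε X hW μ (mem_mons.1 hμ).1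

theorem desc_one (n : ℕ) : Desc rho φ ε r n (fun X => X) (oneM (mons r n)) := by
  intro X μ hμ
  unfold oneM
  rw [lk_map, if_pos hμ, sem'_map, semF_eq, Finset.sum_eq_single μ]
  · simp
  · intro ν _ hne
    simp [hne]
  · intro hne
    exact absurd (List.mem_toFinset.2 hμ) hne

theorem desc_mul {n : ℕ} {f f' : (ℕ → G) → (ℕ → G)} {K K' : List (List ℕ)}
    (hK : Desc rho φ ε r n f K) (hK' : Desc rho φ ε r n f' K') :
    Desc rho φ ε r n (fun X => f (f' X)) (mulM p (mons r n) K K') := by
  intro X μ hμ
  unfold mulM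
  rw [lk_map, if_pos hμ, sem'_map]
  rw [semF_congr (F' := fun ν => ((mons r n).map fun κ => lk 0 (mons r n) (lk [] (mons r n) K μ) κ *
    lk 0 (mons r n) (lk [] (mons r n) K' κ) ν).sum) rho φ ε n X (fun ν _ => cast_mod φ _)]
  rw [semF_sum rho φ ε n X (mons r n) (fun κ ν => lk 0 (mons r n) (lk [] (mons r n) K μ) κ *
    lk 0 (mons r n) (lk [] (mons r n) K' κ) ν)]
  have h1 : ∀ κ ∈ mons r n, semF (r := r) rho φ ε n X (fun ν =>
      lk 0 (mons r n) (lk [] (mons r n) K μ) κ * lk 0 (mons r n) (lk [] (mons r n) K' κ) ν) =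
      ((lk 0 (mons r n) (lk [] (mons r n) K μ) κ : ℕ) : R) * valR rho φ ε (f' X) κ := by
    intro κ hκ
    rw [← hK' X κ hκ]
    unfold sem'
    rw [semF_eq, semF_eq, Finset.mul_sum]
    refine Finset.sum_congr rfl fun ν _ => ?_
    rw [Nat.cast_mul, mul_assoc]
  rw [List.map_congr_left h1]
  exact hK (f' X) μ hμ

/-- The number with the given bits. -/
def valb : List Bool → ℕ
  | [] => 0
  | b :: bs => (bif b then 1 else 0) + 2 * valb bs

theorem desc_pow {n : ℕ} {f : (ℕ → G) → (ℕ → G)} {K : List (List ℕ)}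
    (hK : Desc rho φ ε r n f K) : ∀ bs : List Bool,
    Desc rho φ ε r n (f^[valb bs]) (powM p (mons r n) K bs)
  | [] => desc_one rho φ ε n
  | b :: bs => by
    have ih := desc_pow hK bs
    have h2 : Desc rho φ ε r n (f^[2 * valb bs])
        (mulM p (mons r n) (powM p (mons r n) K bs) (powM p (mons r n) K bs)) := by
      have h := desc_mul rho φ ε ih ih
      have e : (fun X => f^[valb bs] (f^[valb bs] X)) = f^[2 * valb bs] := by
        funext X
        rw [two_mul, Function.iterate_add_apply]
      rwa [e] at h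
    cases b with
    | false =>
      have e : valb (false :: bs) = 2 * valb bs := by simp [valb]
      rw [e]
      exact h2
    | true =>
      have e : valb (true :: bs) = 2 * valb bs + 1 := by simp [valb]; ring
      have h := desc_mul rho φ ε h2 hK
      have e' : (fun X => f^[2 * valb bs] (f X)) = f^[valb (true :: bs)] := by
        funext X
        rw [e, Function.iterate_succ_apply]
      rw [e'] at h
      exact h

end sem

end Pool.Agent.W995.PN
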