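import Mathlib

/-!
# Polynomial dynamics of networks over groups of unitriangular matrices
-/

namespace Pool.Agent.W995.PN

/-- A variable: cell, row, column. -/
abbrev Vr := ℕ × ℕ × ℕ

/-- A monomial. -/
abbrev Mn := List Vr

/-- The weight of a monomial. -/
def wtM (μ : Mn) : ℕ := (μ.map fun v => v.2.1 - v.2.2).sum

/-- The variables. -/
def varsL (r n : ℕ) : List Vr :=
  (List.range n ×ˢ (List.range r ×ˢ List.range r)).filter fun v => decide (v.2.2 < v.2.1)

/-- The monomials of length at most `k`. -/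
def lstM (r n : ℕ) : ℕ → List Mn
  | 0 => [[]]
  | k + 1 => [] :: (varsL r n ×ˢ lstM r n k).map fun p => p.1 :: p.2

/-- The monomials of weight at most `r`. -/
def mons (r n : ℕ) : List Mn := (lstM r n r).filter fun μ => decide (wtM μ ≤ r)

theorem mem_varsL {r n : ℕ} {v : Vr} :
    v ∈ varsL r n ↔ v.1 < n ∧ v.2.2 < v.2.1 ∧ v.2.1 < r := by
  obtain ⟨i, a, b⟩ := v
  unfold varsL
  rw [List.mem_filter, decide_eq_true_eq]
  constructor
  · rintro ⟨h, h'⟩
    have h1 := List.pair_mem_product.1 h
    have h2 := List.pair_mem_product.1 h1.2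
    rw [List.mem_range] at h1 h2
    exact ⟨h1.1, h', h2.1⟩
  · rintro ⟨h1, h2, h3⟩
    refine ⟨List.pair_mem_product.2 ⟨List.mem_range.2 h1, List.pair_mem_product.2
      ⟨List.mem_range.2 h3, List.mem_range.2 ?_⟩⟩, h2⟩
    simp only at h2 h3
    omega

theorem mem_lstM {r n k : ℕ} {μ : Mn} : μ ∈ lstM r n k ↔ (∀ v ∈ μ, v ∈ varsL r n) ∧ μ.length ≤ k := by
  induction k generalizing μ with
  | zero =>
    unfold lstM
    rw [List.mem_singleton]
    constructor
    · rintro rfl; simp
    · rintro ⟨_, h⟩; exact List.length_eq_zero_iff.1 (by omega)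
  | succ k ih =>
    unfold lstM
    rw [List.mem_cons, List.mem_map]
    constructor
    · rintro (rfl | ⟨⟨v, l⟩, h, rfl⟩)
      · simp
      · have h1 := List.pair_mem_product.1 h
        have h2 := ih.1 h1.2
        refine ⟨?_, by simp; omega⟩
        intro w hw
        rw [List.mem_cons] at hw
        rcases hw with rfl | hw
        · exact h1.1
        · exact h2.1 w hw
    · rintro ⟨h1, h2⟩
      cases μ with
      | nil => exact Or.inl rfl
      | cons v μ =>
        right
        refine ⟨(v, μ), List.pair_mem_product.2 ⟨h1 v (by simp), ih.2 ⟨fun w hw => h1 w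
          (by simp [hw]), by simpa using h2⟩⟩, rfl⟩

theorem length_le_wtM {r n : ℕ} {μ : Mn} (h : ∀ v ∈ μ, v ∈ varsL r n) : μ.length ≤ wtM μ := by
  induction μ with
  | nil => simp [wtM]
  | cons v μ ih =>
    have h1 := ih fun w hw => h w (by simp [hw])
    have h2 := (mem_varsL.1 (h v (by simp))).2.1
    unfold wtM at h1 ⊢
    rw [List.map_cons, List.sum_cons, List.length_cons]
    omega

theorem mem_mons {r n : ℕ} {μ : Mn} : μ ∈ mons r n ↔ (∀ v ∈ μ, v ∈ varsL r n) ∧ wtM μ ≤ r := by
  unfold mons
  rw [List.mem_filter, mem_lstM, decide_eq_true_eq]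
  constructor
  · rintro ⟨⟨h1, _⟩, h3⟩; exact ⟨h1, h3⟩
  · rintro ⟨h1, h2⟩; exact ⟨⟨h1, (length_le_wtM h1).trans h2⟩, h2⟩

theorem nodup_varsL (r n : ℕ) : (varsL r n).Nodup :=
  List.Nodup.filter _ (List.nodup_range.product (List.nodup_range.product List.nodup_range))

theorem nodup_lstM (r n k : ℕ) : (lstM r n k).Nodup := by
  induction k with
  | zero => unfold lstM; simp
  | succ k ih =>
    unfold lstM
    rw [List.nodup_cons]
    constructor
    · rw [List.mem_map]
      rintro ⟨p, _, h⟩
      simp at h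
    · refine List.Nodup.map ?_ ((nodup_varsL r n).product ih)
      rintro ⟨a, b⟩ ⟨c, d⟩ h
      simpa using h

theorem nodup_mons (r n : ℕ) : (mons r n).Nodup := (nodup_lstM r n r).filter _

/-- The entry of a vector (of coefficients of the monomials `ms`). -/
def lk {β : Type} (d : β) (ms : List Mn) (C : List β) (μ : Mn) : β :=
  (((ms.zip C).filter fun p => decide (p.1 = μ)).map fun p => p.2).headD d

theorem lk_map {β : Type} (d : β) {ms : List Mn} (F : Mn → β) (μ : Mn) :
    lk d ms (ms.map F) μ = if μ ∈ ms then F μ else d := by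
  unfold lk
  induction ms with
  | nil => simp
  | cons ν ms ih =>
    rw [List.map_cons, List.zip_cons_cons, List.filter_cons]
    by_cases h : ν = μ
    · subst h; simp
    · have : ¬ (decide ((ν, F ν).1 = μ)) = true := by simpa using h
      rw [if_neg this, ih]
      have h2 : (μ ∈ ν :: ms) ↔ μ ∈ ms := by
        rw [List.mem_cons]
        constructor
        · rintro (h3 | h3)
          · exact absurd h3.symm h
          · exact h3
        · exact Or.inr
      simp only [h2]

theorem lk_nil {β : Type} (d : β) (ms : List Mn) (μ : Mn) : lk d ms [] μ = d := by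
  unfold lk
  simp

/-- Multiplication of a vector with a variable. -/
def prepF (ms : List Mn) (v : Vr) (C : List ℕ) (μ : Mn) : ℕ :=
  μ.head?.elim 0 fun v' => if v' = v then lk 0 ms C μ.tail else 0

/-! ### Semantics -/

section sem

variable {G : Type} [Group G] {p r : ℕ} (rho : G → ℕ → ℕ → ZMod p)

/-- A representation by lower unitriangular matrices. -/
structure UT (r : ℕ) (rho : G → ℕ → ℕ → ZMod p) : Prop where
  mul : ∀ g h a b, a < r → b < r →
    rho (g * h) a b = ∑ c ∈ Finset.range r, rho g a c * rho h c b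
  one : ∀ a b, a < r → b < r → rho 1 a b = if a = b then 1 else 0
  tri : ∀ g a b, a < b → b < r → rho g a b = 0
  diag : ∀ g a, a < r → rho g a a = 1

variable {R : Type} [CommRing R] (φ : ZMod p →+* R) (ε : R)

/-- Matrix entries with a weight. -/
def MR (g : G) (a b : ℕ) : R := if b ≤ a then φ (rho g a b) * ε ^ (a - b) else 0

theorem MR_mul (h : UT r rho) (g g' : G) {a b : ℕ} (ha : a < r) (hb : b < r) :
    MR rho φ ε (g * g') a b = ∑ c ∈ Finset.range r, MR rho φ ε g a c * MR rho φ ε g' c b := by
  by_cases hab : b ≤ a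
  · unfold MR
    rw [if_pos hab, h.mul g g' a b ha hb, map_sum, Finset.sum_mul]
    refine Finset.sum_congr rfl fun c hc => ?_
    rw [Finset.mem_range] at hc
    by_cases h1 : c ≤ a
    · by_cases h2 : b ≤ c
      · rw [if_pos h1, if_pos h2, map_mul]
        have : a - b = (a - c) + (c - b) := by omega
        rw [this, pow_add]
        ring
      · rw [if_neg h2, h.tri g' c b (by omega) hb]
        simp
    · rw [if_neg h1, h.tri g a c (by omega) hc]
      simp
  · unfold MR
    rw [if_neg hab]
    symm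
    refine Finset.sum_eq_zero fun c _ => ?_
    by_cases h1 : c ≤ a
    · rw [if_neg (by omega : ¬ b ≤ c), mul_zero]
    · rw [if_neg h1, zero_mul]

theorem MR_one (h : UT r rho) {a b : ℕ} (ha : a < r) (hb : b < r) :
    MR rho φ ε 1 a b = if a = b then 1 else 0 := by
  unfold MR
  by_cases hab : a = b
  · subst hab
    rw [if_pos le_rfl, if_pos rfl, h.one a a ha ha]
    simp
  · rw [if_neg hab]
    split_ifs with h1
    · rw [h.one a b ha hb, if_neg hab]; simp
    · rfl

theorem MR_diag (h : UT r rho) (g : G) {a : ℕ} (ha : a < r) : MR rho φ ε g a a = 1 := by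
  unfold MR
  rw [if_pos le_rfl, h.diag g a ha]
  simp

/-- The value of a variable. -/
def vR (X : ℕ → G) (v : Vr) : R := φ (rho (X v.1) v.2.1 v.2.2) * ε ^ (v.2.1 - v.2.2)

/-- The value of a monomial. -/
def valR (X : ℕ → G) (μ : Mn) : R := (μ.map (vR rho φ ε X)).prod

omit [Group G] in
theorem valR_eq_zero (hε : ε ^ (r + 1) = 0) (X : ℕ → G) {μ : Mn} (h : r < wtM μ) :
    valR rho φ ε X μ = 0 := by
  have key : ∀ μ : Mn, ∃ c : R, valR rho φ ε X μ = c * ε ^ wtM μ := by
    intro μ
    induction μ with
    | nil => exact ⟨1, by simp [valR, wtM]⟩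
    | cons v μ ih =>
      obtain ⟨c, hc⟩ := ih
      refine ⟨φ (rho (X v.1) v.2.1 v.2.2) * c, ?_⟩
      unfold valR wtM at hc ⊢
      rw [List.map_cons, List.prod_cons, hc, List.map_cons, List.sum_cons, pow_add]
      unfold vR
      ring
  obtain ⟨c, hc⟩ := key μ
  rw [hc, show wtM μ = (r + 1) + (wtM μ - (r + 1)) by omega, pow_add, hε]
  ring

/-- The value of a function of monomials. -/
def semF (n : ℕ) (X : ℕ → G) (F : Mn → ℕ) : R :=
  ((mons r n).map fun μ => ((F μ : ℕ) : R) * valR rho φ ε X μ).sum

/-- The value of a vector. -/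
def sem' (n : ℕ) (X : ℕ → G) (C : List ℕ) : R :=
  semF (r := r) rho φ ε n X (lk 0 (mons r n) C)

omit [Group G] in
theorem semF_eq (n : ℕ) (X : ℕ → G) (F : Mn → ℕ) : semF (r := r) rho φ ε n X F =
    ∑ μ ∈ (mons r n).toFinset, ((F μ : ℕ) : R) * valR rho φ ε X μ := by
  unfold semF
  rw [List.sum_toFinset _ (nodup_mons r n)]

theorem sem'_map (n : ℕ) (X : ℕ → G) (F : Mn → ℕ) :
    sem' (r := r) rho φ ε n X ((mons r n).map F) = semF (r := r) rho φ ε n X F := by
  unfold sem'
  rw [semF_eq, semF_eq]
  refine Finset.sum_congr rfl fun μ hμ => ?_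
  rw [lk_map, if_pos (List.mem_toFinset.1 hμ)]

theorem semF_congr (n : ℕ) (X : ℕ → G) {F F' : Mn → ℕ}
    (h : ∀ μ ∈ mons r n, ((F μ : ℕ) : R) = (F' μ : ℕ)) :
    semF (r := r) rho φ ε n X F = semF (r := r) rho φ ε n X F' := by
  rw [semF_eq, semF_eq]
  refine Finset.sum_congr rfl fun μ hμ => ?_
  rw [h μ (List.mem_toFinset.1 hμ)]

theorem cast_mod (φ : ZMod p →+* R) (k : ℕ) : ((k % p : ℕ) : R) = (k : R) := by
  have h1 : ∀ m : ℕ, (m : R) = φ (m : ZMod p) := fun m => (map_natCast φ m).symm
  rw [h1, h1, ZMod.natCast_mod]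

theorem semF_sum (n : ℕ) (X : ℕ → G) {ι : Type} (l : List ι) (F : ι → Mn → ℕ) :
    semF (r := r) rho φ ε n X (fun μ => (l.map fun c => F c μ).sum) =
      (l.map fun c => semF (r := r) rho φ ε n X (F c)).sum := by
  induction l with
  | nil => simp [semF]
  | cons c l ih =>
    rw [List.map_cons, List.sum_cons, ← ih, semF_eq, semF_eq, semF_eq, ← Finset.sum_add_distrib]
    refine Finset.sum_congr rfl fun μ _ => ?_
    rw [List.map_cons, List.sum_cons, Nat.cast_add, add_mul]

theorem semF_prep (hε : ε ^ (r + 1) = 0) {n : ℕ} (X : ℕ → G) {v : Vr} (hv : v ∈ varsL r n)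
    (C : List ℕ) : semF (r := r) rho φ ε n X (prepF (mons r n) v C) =
      vR rho φ ε X v * sem' (r := r) rho φ ε n X C := by
  unfold sem'
  rw [semF_eq, semF_eq, Finset.mul_sum]
  symm
  refine Finset.sum_bij_ne_zero (fun μ _ _ => v :: μ) ?_ ?_ ?_ ?_
  · intro μ hμ hne
    rw [List.mem_toFinset] at hμ ⊢
    rw [mem_mons] at hμ ⊢
    refine ⟨?_, ?_⟩
    · intro w hw
      rw [List.mem_cons] at hw
      rcases hw with rfl | hw
      · exact hv
      · exact hμ.1 w hw
    · by_contra hlt
      push Not at hlt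
      apply hne
      have h1 := valR_eq_zero rho φ ε hε X hlt
      have h2 : valR rho φ ε X (v :: μ) = vR rho φ ε X v * valR rho φ ε X μ := by
        unfold valR; rw [List.map_cons, List.prod_cons]
      rw [h2] at h1
      rw [mul_left_comm, h1, mul_zero]
  · intro a _ _ b _ _ h
    simpa using h
  · intro μ hμ hne
    rw [List.mem_toFinset, mem_mons] at hμ
    cases μ with
    | nil => exact absurd (by simp [prepF]) hne
    | cons w μ =>
      by_cases hw : w = v
      · subst hw
        have h1 : wtM (w :: μ) = (w.2.1 - w.2.2) + wtM μ := by simp [wtM]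
        refine ⟨μ, ?_, ?_, rfl⟩
        · rw [List.mem_toFinset, mem_mons]
          exact ⟨fun u hu => hμ.1 u (by simp [hu]), by omega⟩
        · intro h
          apply hne
          have h2 : valR rho φ ε X (w :: μ) = vR rho φ ε X w * valR rho φ ε X μ := by
            unfold valR; rw [List.map_cons, List.prod_cons]
          rw [h2]
          simp only [prepF, List.head?_cons, Option.elim_some, if_true, List.tail_cons]
          rw [mul_left_comm]
          exact h
      · exact absurd (by simp [prepF, hw]) hne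
  · intro μ hμ hne
    have h2 : valR rho φ ε X (v :: μ) = vR rho φ ε X v * valR rho φ ε X μ := by
      unfold valR; rw [List.map_cons, List.prod_cons]
    rw [h2]
    simp only [prepF, List.head?_cons, Option.elim_some, if_true, List.tail_cons]
    rw [mul_left_comm]

end sem

end Pool.Agent.W995.PN
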