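import Pool.Agent.W995.PN.Alg2

/-!
# Reading off the value of a cell
-/

namespace Pool.Agent.W995.PN

open Polynomial

section

variable {G : Type} {p r : ℕ} (rho : G → ℕ → ℕ → ZMod p)

/-- The ring of polynomials modulo a power of the variable. -/
abbrev TR (p r : ℕ) : Type := (ZMod p)[X] ⧸ Ideal.span {(X : (ZMod p)[X]) ^ (r + 1)}

/-- The projection. -/
noncomputable abbrev TRmk (p r : ℕ) : (ZMod p)[X] →+* TR p r := Ideal.Quotient.mk _

/-- The value of a monomial. -/
def val0 (x : ℕ → G) (μ : Mn) : ZMod p := (μ.map fun v => rho (x v.1) v.2.1 v.2.2).prod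

theorem valR_eq_mk (x : ℕ → G) (μ : Mn) :
    valR rho ((TRmk p r).comp C) (TRmk p r X) x μ = TRmk p r (C (val0 rho x μ) * X ^ wtM μ) := by
  induction μ with
  | nil => simp [valR, val0, wtM]
  | cons v μ ih =>
    have e1 : valR rho ((TRmk p r).comp C) (TRmk p r X) x (v :: μ) =
        vR rho ((TRmk p r).comp C) (TRmk p r X) x v *
          valR rho ((TRmk p r).comp C) (TRmk p r X) x μ := by
      unfold valR; rw [List.map_cons, List.prod_cons]
    have e2 : val0 rho x (v :: μ) = rho (x v.1) v.2.1 v.2.2 * val0 rho x μ := by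
      unfold val0; rw [List.map_cons, List.prod_cons]
    have e3 : wtM (v :: μ) = (v.2.1 - v.2.2) + wtM μ := by simp [wtM]
    have e4 : vR rho ((TRmk p r).comp C) (TRmk p r X) x v =
        TRmk p r (C (rho (x v.1) v.2.1 v.2.2) * X ^ (v.2.1 - v.2.2)) := by
      unfold vR
      rw [RingHom.comp_apply, map_mul, map_pow]
    rw [e1, ih, e4, ← map_mul, e2, e3]
    congr 1
    rw [C_mul, pow_add]
    ring

theorem eps_pow (p r : ℕ) : (TRmk p r X) ^ (r + 1) = 0 := by
  rw [← map_pow, Ideal.Quotient.eq_zero_iff_mem]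
  exact Ideal.mem_span_singleton_self _

/-- The part of weight `k` of the value of a vector. -/
def semK (n k : ℕ) (x : ℕ → G) (c : List ℕ) : ZMod p :=
  ((mons r n).map fun μ => if wtM μ = k then ((lk 0 (mons r n) c μ : ℕ) : ZMod p) *
    val0 rho x μ else 0).sum

theorem extract {n : ℕ} {x y : ℕ → G} {c : List ℕ} {v : Vr} (hv : v.2.1 - v.2.2 ≤ r)
    (h : sem' (r := r) rho ((TRmk p r).comp C) (TRmk p r X) n x c =
      valR rho ((TRmk p r).comp C) (TRmk p r X) y [v]) :
    semK (r := r) rho n (v.2.1 - v.2.2) x c = rho (y v.1) v.2.1 v.2.2 := by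
  set Q : (ZMod p)[X] := ((mons r n).map fun μ =>
    C (((lk 0 (mons r n) c μ : ℕ) : ZMod p) * val0 rho x μ) * X ^ wtM μ).sum with hQ
  have h1 : sem' (r := r) rho ((TRmk p r).comp C) (TRmk p r X) n x c = TRmk p r Q := by
    unfold sem' semF
    rw [hQ, map_list_sum, List.map_map]
    congr 1
    refine List.map_congr_left fun μ _ => ?_
    rw [valR_eq_mk, Function.comp_apply, C_mul, mul_assoc, map_mul]
    congr 1
  rw [h1, valR_eq_mk, Ideal.Quotient.eq, Ideal.mem_span_singleton, X_pow_dvd_iff] at h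
  have h2 := h (v.2.1 - v.2.2) (by omega)
  have h3 : wtM [v] = v.2.1 - v.2.2 := by simp [wtM]
  have h4 : val0 rho y [v] = rho (y v.1) v.2.1 v.2.2 := by simp [val0]
  rw [coeff_sub, h3, h4, coeff_C_mul, coeff_X_pow_self, mul_one, sub_eq_zero] at h2
  rw [← h2, hQ]
  unfold semK
  generalize v.2.1 - v.2.2 = k
  generalize lk 0 (mons r n) c = F
  induction mons r n with
  | nil => simp
  | cons μ ms ih =>
    rw [List.map_cons, List.sum_cons, List.map_cons, List.sum_cons, coeff_add, ih]
    congr 1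
    rw [coeff_C_mul, coeff_X_pow]
    by_cases hk : k = wtM μ
    · simp [hk]
    · rw [if_neg (Ne.symm hk), if_neg hk, mul_zero]

end

end Pool.Agent.W995.PN
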