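import Pool.Agent.W995.PN.Net
import Pool.Agent.NPC.Sat2

/-!
# Automata with structured states, and programs of queries
-/

namespace Pool.Agent.W995.PN

open Pool.Agent.NPC

section struct

variable {σ : Type}

/-- The run of an automaton with structured states. -/
def runS (test : σ → ℕ × ℕ) (nx : σ → Bool → σ) (ps : List ℕ) (L : ℕ) : ℕ → ℕ → σ → σ
  | 0, _, s => s
  | n + 1, t, s => runS test nx ps L n (t + 1) (nx s (bitA ps L t (test s)))

theorem runS_add (test : σ → ℕ × ℕ) (nx : σ → Bool → σ) (ps : List ℕ) (L : ℕ) (n k : ℕ) :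
    ∀ (t : ℕ) (s : σ), runS test nx ps L (n + k) t s =
      runS test nx ps L k (t + n) (runS test nx ps L n t s) := by
  induction n with
  | zero => intro t s; simp [runS]
  | succ n ih =>
    intro t s
    rw [Nat.add_right_comm, runS, runS, ih]
    congr 1
    omega

theorem runS_succ (test : σ → ℕ × ℕ) (nx : σ → Bool → σ) (ps : List ℕ) (L : ℕ) (n : ℕ) (t : ℕ)
    (s : σ) : runS test nx ps L (n + 1) t s = nx (runS test nx ps L n t s)
      (bitA ps L (t + n) (test (runS test nx ps L n t s))) := by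
  rw [runS_add]
  rfl

/-- The rows of the transition table. -/
noncomputable def rowsOf (S : List σ) (test : σ → ℕ × ℕ) (nx : σ → Bool → σ) : List ARow :=
  S.map fun s => (test s, index S (nx s false), index S (nx s true))

theorem runA_index {S : List σ} {test : σ → ℕ × ℕ} {nx : σ → Bool → σ}
    (hcl : ∀ s ∈ S, ∀ b, nx s b ∈ S) (ps : List ℕ) (L : ℕ) (n : ℕ) : ∀ (t : ℕ) (s : σ), s ∈ S →
    runS test nx ps L n t s ∈ S ∧
    runA (rowsOf S test nx) ps L n t (index S s) = index S (runS test nx ps L n t s) := by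
  induction n with
  | zero => intro t s hs; exact ⟨hs, rfl⟩
  | succ n ih =>
    intro t s hs
    rw [runA, runS]
    have h1 : nxt (rowsOf S test nx) ps L t (index S s) =
        index S (nx s (bitA ps L t (test s))) := by
      unfold nxt
      have h2 : (rowsOf S test nx).getD (index S s) ((0, 0), 0, 0) =
          (test s, index S (nx s false), index S (nx s true)) := by
        unfold rowsOf
        rw [List.getD_eq_getElem?_getD, List.getElem?_map, getElem?_index hs]
        rfl
      rw [h2]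
      cases bitA ps L t (test s) <;> rfl
    rw [h1]
    exact ih (t + 1) _ (hcl s hs _)

theorem acc_index {S : List σ} (acc : σ → Bool) {s : σ} (hs : s ∈ S) :
    (S.map acc).getD (index S s) false = acc s := by
  rw [List.getD_eq_getElem?_getD, List.getElem?_map, getElem?_index hs]
  rfl

end struct

section prog

variable {T Z : Type} (wt : T → ℕ → ℕ → ℕ) (dg : T → ℕ → ℕ) (ac : T → ℕ → Z → Z) (Qs : List T)
  (q0 : T) (K P Sm : ℕ)

/-- The number of steps of one round. -/
def Lp : ℕ := Qs.length * (K * P)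

/-- The question asked in a state. -/
def testP (s : ℕ × ℕ × Z) : ℕ × ℕ := (s.1 / P % K, s.1 % P)

/-- The sum after an answer. -/
def newS (s : ℕ × ℕ × Z) (b : Bool) : ℕ :=
  min (s.2.1 + (bif b then wt (Qs.getD (s.1 / (K * P)) q0) (s.1 / P % K) (s.1 % P) else 0)) Sm

/-- The transitions. -/
def nxP (s : ℕ × ℕ × Z) (b : Bool) : ℕ × ℕ × Z :=
  if (s.1 + 1) % (K * P) = 0 then
    ((s.1 + 1) % Lp Qs K P, 0, ac (Qs.getD (s.1 / (K * P)) q0)
      (dg (Qs.getD (s.1 / (K * P)) q0) (newS wt Qs q0 K P Sm s b)) s.2.2)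
  else ((s.1 + 1) % Lp Qs K P, newS wt Qs q0 K P Sm s b, s.2.2)

/-- The sum computed by a query. -/
def qsum (ps : List ℕ) (u : ℕ) (q : T) : ℕ :=
  ∑ k ∈ Finset.range K, wt q k (u % ps.getD k 1)

/-- The effect of a round. -/
def round (ps : List ℕ) (u : ℕ) (z : Z) : Z :=
  Qs.foldl (fun z q => ac q (dg q (qsum wt K ps u q)) z) z

variable {wt dg ac Qs q0 K P Sm}

/-- Partial sums. -/
def psum (wt : T → ℕ → ℕ → ℕ) (K P : ℕ) (ps : List ℕ) (u : ℕ) (q : T) (n : ℕ) : ℕ :=
  ∑ i ∈ Finset.range n, if u % ps.getD (i / P % K) 1 = i % P % ps.getD (i / P % K) 1 then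
    wt q (i / P % K) (i % P) else 0

theorem sum_inner {w : ℕ → ℕ} {P p u : ℕ} (hp : 0 < p) (hpP : p ≤ P) (hw : ∀ a, p ≤ a → w a = 0) :
    (∑ a ∈ Finset.range P, if u % p = a % p then w a else 0) = w (u % p) := by
  rw [Finset.sum_eq_single (u % p)]
  · simp
  · intro a _ hne
    by_cases ha : p ≤ a
    · rw [hw a ha]; simp
    · rw [Nat.mod_eq_of_lt (by omega : a < p)]
      rw [if_neg (fun h => hne h.symm)]
  · intro h
    have := Nat.mod_lt u hp
    exact absurd (Finset.mem_range.2 (by omega)) h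

theorem psum_full {ps : List ℕ} {u : ℕ} {q : T}
    (hps : ∀ k < K, 0 < ps.getD k 1 ∧ ps.getD k 1 ≤ P)
    (hw : ∀ k < K, ∀ a, ps.getD k 1 ≤ a → wt q k a = 0) :
    psum wt K P ps u q (K * P) = qsum wt K ps u q := by
  unfold psum qsum
  have key : ∀ k ≤ K, (∑ i ∈ Finset.range (k * P),
      if u % ps.getD (i / P % K) 1 = i % P % ps.getD (i / P % K) 1 then
        wt q (i / P % K) (i % P) else 0) = ∑ j ∈ Finset.range k, wt q j (u % ps.getD j 1) := by
    intro k
    induction k with
    | zero => intro _; simp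
    | succ k ih =>
      intro hk
      rw [Nat.succ_mul, Finset.sum_range_add, ih (by omega), Finset.sum_range_succ]
      congr 1
      rw [← sum_inner (hps k (by omega)).1 (hps k (by omega)).2 (hw k (by omega))]
      refine Finset.sum_congr rfl fun a ha => ?_
      rw [Finset.mem_range] at ha
      rw [idx_div ha, idx_mod ha, Nat.mod_eq_of_lt (by omega : k < K)]
  exact key K le_rfl

theorem psum_mono (wt : T → ℕ → ℕ → ℕ) (K P : ℕ) (ps : List ℕ) (u : ℕ) (q : T) {n k : ℕ}
    (h : n ≤ k) : psum wt K P ps u q n ≤ psum wt K P ps u q k :=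
  Finset.sum_le_sum_of_subset (Finset.range_mono h)

/-- Hypotheses for the programs. -/
structure PH (wt : T → ℕ → ℕ → ℕ) (Qs : List T) (K P Sm : ℕ) (ps : List ℕ) : Prop where
  Qpos : 0 < Qs.length
  Kpos : 0 < K
  Ppos : 0 < P
  hps : ∀ k < K, 0 < ps.getD k 1 ∧ ps.getD k 1 ≤ P
  w0 : ∀ q ∈ Qs, ∀ k < K, ∀ a, ps.getD k 1 ≤ a → wt q k a = 0
  sm : ∀ q ∈ Qs, ∀ u, qsum wt K ps u q ≤ Sm

theorem phase {ps : List ℕ} (h : PH wt Qs K P Sm ps) (u j : ℕ) (hj : j < Qs.length) (z : Z)
    (n : ℕ) (hn : n < K * P) :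
    runS (testP K P) (nxP wt dg ac Qs q0 K P Sm) ps (Lp Qs K P) n
      (u * Lp Qs K P + j * (K * P)) (j * (K * P), 0, z) =
      (j * (K * P) + n, psum wt K P ps u (Qs.getD j q0) n, z) := by
  have hKP : 0 < K * P := Nat.mul_pos h.Kpos h.Ppos
  have hmem : Qs.getD j q0 ∈ Qs := by
    rw [List.getD_eq_getElem?_getD, List.getElem?_eq_getElem hj]
    exact List.getElem_mem hj
  induction n with
  | zero => simp [runS, psum]
  | succ n ih =>
    have ih := ih (by omega)
    rw [runS_succ, ih]
    have hr : j * (K * P) + n < Lp Qs K P := by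
      unfold Lp
      exact idx_lt hj (by omega)
    have hr1 : j * (K * P) + n + 1 < Lp Qs K P := by
      unfold Lp
      rw [Nat.add_assoc]
      exact idx_lt hj hn
    have e1 : (j * (K * P) + n) / (K * P) = j := idx_div (by omega)
    have e2 : (j * (K * P) + n) / P % K = n / P % K := by
      have : j * (K * P) + n = n + P * (j * K) := by ring
      rw [this, Nat.add_mul_div_left _ _ h.Ppos, Nat.add_mul_mod_self_right]
    have e3 : (j * (K * P) + n) % P = n % P := by
      have : j * (K * P) + n = n + P * (j * K) := by ring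
      rw [this, Nat.add_mul_mod_self_left]
    have e4 : (j * (K * P) + n + 1) % (K * P) ≠ 0 := by
      rw [Nat.add_assoc, idx_mod hn]
      omega
    have e5 : bitA ps (Lp Qs K P) (u * Lp Qs K P + j * (K * P) + n) (n / P % K, n % P) =
        decide (u % ps.getD (n / P % K) 1 = n % P % ps.getD (n / P % K) 1) := by
      unfold bitA
      have : (u * Lp Qs K P + j * (K * P) + n) / Lp Qs K P = u := by
        rw [Nat.add_assoc]
        exact idx_div hr
      rw [this]
    unfold nxP
    rw [if_neg e4]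
    simp only [testP]
    rw [e2, e3, e5, Nat.mod_eq_of_lt hr1]
    refine Prod.ext (by simp only; omega) (Prod.ext ?_ rfl)
    simp only [newS]
    rw [e1, e2, e3]
    have e6 : psum wt K P ps u (Qs.getD j q0) (n + 1) = psum wt K P ps u (Qs.getD j q0) n +
        (bif decide (u % ps.getD (n / P % K) 1 = n % P % ps.getD (n / P % K) 1) then
          wt (Qs.getD j q0) (n / P % K) (n % P) else 0) := by
      unfold psum
      rw [Finset.sum_range_succ]
      congr 1
      exact (Bool.cond_decide _ _ _).symm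
    rw [← e6]
    apply min_eq_left
    refine (psum_mono wt K P ps u _ hn.le).trans ?_
    rw [psum_full h.hps (h.w0 _ hmem)]
    exact h.sm _ hmem u

theorem phase_end {ps : List ℕ} (h : PH wt Qs K P Sm ps) (u j : ℕ) (hj : j < Qs.length) (z : Z) :
    runS (testP K P) (nxP wt dg ac Qs q0 K P Sm) ps (Lp Qs K P) (K * P)
      (u * Lp Qs K P + j * (K * P)) (j * (K * P), 0, z) =
      ((j + 1) * (K * P) % Lp Qs K P, 0, ac (Qs.getD j q0)
        (dg (Qs.getD j q0) (qsum wt K ps u (Qs.getD j q0))) z) := by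
  have hKP : 0 < K * P := Nat.mul_pos h.Kpos h.Ppos
  have hmem : Qs.getD j q0 ∈ Qs := by
    rw [List.getD_eq_getElem?_getD, List.getElem?_eq_getElem hj]
    exact List.getElem_mem hj
  obtain ⟨n, hn⟩ : ∃ n, K * P = n + 1 := ⟨K * P - 1, by omega⟩
  have hnlt : n < K * P := by omega
  have e0 : runS (testP K P) (nxP wt dg ac Qs q0 K P Sm) ps (Lp Qs K P) (K * P)
      (u * Lp Qs K P + j * (K * P)) (j * (K * P), 0, z) =
      runS (testP K P) (nxP wt dg ac Qs q0 K P Sm) ps (Lp Qs K P) (n + 1)
      (u * Lp Qs K P + j * (K * P)) (j * (K * P), 0, z) := by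
    congr 1
  rw [e0, runS_succ, phase h u j hj z n hnlt]
  have hr : j * (K * P) + n < Lp Qs K P := by
    unfold Lp
    exact idx_lt hj (by omega)
  have e1 : (j * (K * P) + n) / (K * P) = j := idx_div (by omega)
  have e2 : (j * (K * P) + n) / P % K = n / P % K := by
    have : j * (K * P) + n = n + P * (j * K) := by ring
    rw [this, Nat.add_mul_div_left _ _ h.Ppos, Nat.add_mul_mod_self_right]
  have e3 : (j * (K * P) + n) % P = n % P := by
    have : j * (K * P) + n = n + P * (j * K) := by ring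
    rw [this, Nat.add_mul_mod_self_left]
  have e7 : j * (K * P) + n + 1 = (j + 1) * (K * P) := by
    rw [Nat.add_mul, Nat.one_mul]; omega
  have e4 : (j * (K * P) + n + 1) % (K * P) = 0 := by
    rw [e7]; exact Nat.mul_mod_left _ _
  have e5 : bitA ps (Lp Qs K P) (u * Lp Qs K P + j * (K * P) + n) (n / P % K, n % P) =
      decide (u % ps.getD (n / P % K) 1 = n % P % ps.getD (n / P % K) 1) := by
    unfold bitA
    have : (u * Lp Qs K P + j * (K * P) + n) / Lp Qs K P = u := by
      rw [Nat.add_assoc]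
      exact idx_div hr
    rw [this]
  unfold nxP
  rw [if_pos e4]
  simp only [testP]
  rw [e2, e3, e5, e1, e7]
  refine Prod.ext rfl (Prod.ext rfl ?_)
  simp only
  congr 2
  simp only [newS]
  rw [e1, e2, e3]
  have e6 : psum wt K P ps u (Qs.getD j q0) (n + 1) = psum wt K P ps u (Qs.getD j q0) n +
      (bif decide (u % ps.getD (n / P % K) 1 = n % P % ps.getD (n / P % K) 1) then
        wt (Qs.getD j q0) (n / P % K) (n % P) else 0) := by
    unfold psum
    rw [Finset.sum_range_succ]
    congr 1
    exact (Bool.cond_decide _ _ _).symm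
  rw [← e6, ← hn, psum_full h.hps (h.w0 _ hmem)]
  exact min_eq_left (h.sm _ hmem u)

theorem run_round {ps : List ℕ} (h : PH wt Qs K P Sm ps) (u : ℕ) (z : Z) :
    runS (testP K P) (nxP wt dg ac Qs q0 K P Sm) ps (Lp Qs K P) (Lp Qs K P)
      (u * Lp Qs K P) (0, 0, z) = (0, 0, round wt dg ac Qs K ps u z) := by
  have key : ∀ j ≤ Qs.length, runS (testP K P) (nxP wt dg ac Qs q0 K P Sm) ps (Lp Qs K P)
      (j * (K * P)) (u * Lp Qs K P) (0, 0, z) = (j * (K * P) % Lp Qs K P, 0,
        (Qs.take j).foldl (fun z q => ac q (dg q (qsum wt K ps u q)) z) z) := by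
    intro j
    induction j with
    | zero => intro _; simp [runS]
    | succ j ih =>
      intro hj
      have hj' : j < Qs.length := hj
      have hlt : j * (K * P) < Lp Qs K P := by
        unfold Lp
        have := idx_lt (R := K * P) (K := Qs.length) (k := j) (r := 0) hj'
          (Nat.mul_pos h.Kpos h.Ppos)
        simpa using this
      rw [Nat.succ_mul, runS_add, ih (by omega), Nat.mod_eq_of_lt hlt, phase_end h u j hj']
      have e1 : Qs.take (j + 1) = Qs.take j ++ [Qs[j]] := by
        rw [List.take_add_one, List.getElem?_eq_getElem hj']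
        rfl
      have e2 : Qs.getD j q0 = Qs[j] := by
        rw [List.getD_eq_getElem?_getD, List.getElem?_eq_getElem hj']
        rfl
      rw [e1, List.foldl_append, e2, Nat.succ_mul]
      rfl
  have := key Qs.length le_rfl
  rw [List.take_length] at this
  unfold Lp at this ⊢
  rw [this, Nat.mod_self]
  rfl

theorem run_rounds {ps : List ℕ} (h : PH wt Qs K P Sm ps) (M : ℕ) (z : Z) :
    runS (testP K P) (nxP wt dg ac Qs q0 K P Sm) ps (Lp Qs K P) (Lp Qs K P * M) 0 (0, 0, z) =
      (0, 0, (List.range M).foldl (fun z u => round wt dg ac Qs K ps u z) z) := by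
  induction M with
  | zero => simp [runS]
  | succ M ih =>
    rw [Nat.mul_succ, runS_add, ih, List.range_succ, List.foldl_append, Nat.zero_add, Nat.mul_comm,
      run_round h]
    rfl

end prog

end Pool.Agent.W995.PN
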