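import Mathlib

/-!
# Mixed radix digits from residues
-/

namespace Pool.Agent.W995.PN

/-- An inverse of `r` modulo `q`, found by search. -/
def inv (P q r : ℕ) : ℕ := ((List.range P).filter (fun a => decide (a * r % q = 1))).headD 0

theorem inv_spec {P q r : ℕ} (hq : q ≤ P) (hq0 : 1 < q) (h : r.Coprime q) :
    inv P q r * r % q = 1 := by
  have hex : ∃ a ∈ List.range P, a * r % q = 1 := by
    obtain ⟨b, hb, hb'⟩ := Nat.exists_mul_mod_eq_one_of_coprime h hq0
    exact ⟨b, List.mem_range.2 (by omega), by rwa [mul_comm]⟩
  unfold inv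
  cases hl : (List.range P).filter (fun a => decide (a * r % q = 1)) with
  | nil =>
    rw [List.filter_eq_nil_iff] at hl
    obtain ⟨a, ha, ha'⟩ := hex
    exact absurd (by simpa using ha') (hl a ha)
  | cons a l =>
    have : a ∈ (List.range P).filter (fun a => decide (a * r % q = 1)) := by rw [hl]; simp
    rw [List.mem_filter] at this
    simpa using this.2

/-- The multiple of `prod / q` which is contributed by the residue modulo `q`. -/
def hk (P : ℕ) (qs : List ℕ) (q u : ℕ) : ℕ := u * inv P q (qs.prod / q) % q

theorem sum_modEq {l : List ℕ} (hn : l.Nodup) (f : ℕ → ℕ) {p : ℕ} (hp : p ∈ l)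
    (h : ∀ q ∈ l, q ≠ p → f q ≡ 0 [MOD p]) : (l.map f).sum ≡ f p [MOD p] := by
  induction l with
  | nil => simp at hp
  | cons q l ih =>
    rw [List.nodup_cons] at hn
    rw [List.map_cons, List.sum_cons]
    by_cases hq : q = p
    · subst hq
      have : (l.map f).sum ≡ 0 [MOD q] := by
        clear ih hp
        induction l with
        | nil => rfl
        | cons r l ih =>
          rw [List.map_cons, List.sum_cons]
          have h1 := h r (by simp) (by rintro rfl; exact hn.1 (by simp))
          have h2 := ih ⟨fun h' => hn.1 (by simp [h']), hn.2.of_cons⟩ (fun r' hr' hne => h r' (by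
            rw [List.mem_cons] at hr' ⊢
            rcases hr' with hr' | hr'
            · exact Or.inl hr'
            · exact Or.inr (by simp [hr'])) hne)
          exact h1.add h2
      exact (Nat.ModEq.add_left _ this)
    · have h1 := h q (by simp) hq
      have h2 := ih hn.2 (by
        rw [List.mem_cons] at hp
        rcases hp with rfl | hp
        · exact absurd rfl hq
        · exact hp) (fun r hr hne => h r (by simp [hr]) hne)
      have := h1.add h2
      rwa [Nat.zero_add] at this

theorem nodup_of_coprime {qs : List ℕ} (hc : qs.Pairwise Nat.Coprime) (h1 : ∀ q ∈ qs, 1 < q) :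
    qs.Nodup := by
  rw [List.nodup_iff_pairwise_ne]
  refine List.Pairwise.imp_of_mem ?_ hc
  intro a b ha _ hab h
  subst h
  have := h1 a ha
  rw [Nat.coprime_self] at hab
  omega

theorem crt_sum {P : ℕ} {qs : List ℕ} (hc : qs.Pairwise Nat.Coprime) (h1 : ∀ q ∈ qs, 1 < q)
    (hP : ∀ q ∈ qs, q ≤ P) (u : ℕ) :
    (qs.map fun q => hk P qs q u * (qs.prod / q)).sum ≡ u [MOD qs.prod] := by
  have hn := nodup_of_coprime hc h1
  have hcop : ∀ p ∈ qs, ∀ q ∈ qs, q ≠ p → p.Coprime q := by
    intro p hp q hq hne
    have hs : Std.Symm Nat.Coprime := ⟨fun _ _ h => h.symm⟩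
    exact hc.forall hp hq hne.symm
  have key : ∀ p ∈ qs, (qs.map fun q => hk P qs q u * (qs.prod / q)).sum ≡ u [MOD p] := by
    intro p hp
    refine (sum_modEq hn (fun q => hk P qs q u * (qs.prod / q)) hp ?_).trans ?_
    · intro q hq hne
      have h2 : p ∣ qs.prod / q := by
        have h3 : q * (qs.prod / q) = qs.prod := Nat.mul_div_cancel' (List.dvd_prod hq)
        have h4 : p ∣ q * (qs.prod / q) := by rw [h3]; exact List.dvd_prod hp
        exact (hcop p hp q hq hne).dvd_of_dvd_mul_left h4
      exact (Nat.modEq_zero_iff_dvd).2 (h2.mul_left _)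
    · simp only [hk]
      have hco : (qs.prod / p).Coprime p := by
        have h3 : p * (qs.prod / p) = qs.prod := Nat.mul_div_cancel' (List.dvd_prod hp)
        have h5 : p * (qs.erase p).prod = qs.prod := List.prod_erase hp
        have h6 : qs.prod / p = (qs.erase p).prod := by
          have hp0 : 0 < p := by have := h1 p hp; omega
          exact Nat.eq_of_mul_eq_mul_left hp0 (h3.trans h5.symm)
        rw [h6, Nat.coprime_comm, Nat.coprime_list_prod_right_iff]
        intro q hq
        rw [hn.mem_erase_iff] at hq
        exact hcop p hp q hq.2 hq.1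
      have h3 := inv_spec (hP p hp) (h1 p hp) hco
      have h4 : u * inv P p (qs.prod / p) % p * (qs.prod / p) ≡
          u * inv P p (qs.prod / p) * (qs.prod / p) [MOD p] :=
        (Nat.mod_modEq _ _).mul_right _
      refine h4.trans ?_
      rw [mul_assoc]
      have h5 : inv P p (qs.prod / p) * (qs.prod / p) ≡ 1 [MOD p] := by
        have := h1 p hp
        unfold Nat.ModEq
        rw [h3, Nat.mod_eq_of_lt this]
      simpa using h5.mul_left u
  rw [Nat.modEq_list_prod_iff hc]
  intro i
  exact key _ (List.get_mem _ _)

/-- The approximate contribution of one residue. -/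
def wq (B P : ℕ) (qs : List ℕ) (q a : ℕ) : ℕ := B * (a * inv P q (qs.prod / q) % q) / q

/-- The digit read off from an approximate sum. -/
def digq (B m q s : ℕ) : ℕ := (s + m) % B * q / B

theorem digit_arith {B P m p N M S C K R f d n : ℕ} (hMN : M = p * N) (hN : 0 < N) (hd : d < p)
    (hR : R = N * d + f) (hC : C = M * K + R) (f1 : M * S ≤ B * C)
    (f2 : B * C + n ≤ M * S + M * n) (hn1 : 1 ≤ n) (hnm : n ≤ m) (hpP : p ≤ P)
    (hB : 5 * m * P < B) (hf : 5 * f ≤ 4 * N) : (S + m) % B * p / B = d := by
  have hM : 0 < M := by rw [hMN]; exact Nat.mul_pos (by omega) hN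
  have eC : B * C = M * (K * B) + B * (N * d) + B * f := by rw [hC, hR]; ring
  have e1 : M * (S + m) = M * S + M * m := by ring
  have e2 : M * n ≤ M * m := Nat.mul_le_mul_left _ hnm
  have g1 : M * (K * B) + B * (N * d) < M * (S + m) := by omega
  have e3 : B * (5 * f) ≤ B * (4 * N) := Nat.mul_le_mul_left _ hf
  have e4 : 5 * m * p < B := lt_of_le_of_lt (Nat.mul_le_mul_left _ hpP) hB
  have e5 : 5 * m * p * N < B * N := Nat.mul_lt_mul_of_pos_right e4 hN
  have e6 : 5 * (M * m) = 5 * m * p * N := by rw [hMN]; ring
  have e7 : B * (5 * f) = 5 * (B * f) := by ring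
  have e8 : B * (4 * N) = 4 * (B * N) := by ring
  have e9 : B * (N * (d + 1)) = B * (N * d) + B * N := by ring
  have g2 : M * (S + m) < M * (K * B) + B * (N * (d + 1)) := by omega
  have hv : K * B < S + m := by
    have : M * (K * B) < M * (S + m) := by omega
    exact Nat.lt_of_mul_lt_mul_left this
  obtain ⟨v, hv'⟩ := Nat.exists_eq_add_of_le hv.le
  rw [hv'] at g1 g2 ⊢
  have e10 : M * (K * B + v) = M * (K * B) + N * (p * v) := by rw [hMN]; ring
  have g1' : B * d < p * v := by
    have : N * (B * d) < N * (p * v) := by
      have : N * (B * d) = B * (N * d) := by ring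
      omega
    exact Nat.lt_of_mul_lt_mul_left this
  have g2' : p * v < B * (d + 1) := by
    have : N * (p * v) < N * (B * (d + 1)) := by
      have : N * (B * (d + 1)) = B * (N * (d + 1)) := by ring
      omega
    exact Nat.lt_of_mul_lt_mul_left this
  have hB0 : 0 < B := by omega
  have hvB : v < B := by
    have h1 : B * (d + 1) ≤ B * p := Nat.mul_le_mul_left _ (by omega)
    have h2 : p * v < p * B := by
      have : p * B = B * p := by ring
      omega
    exact Nat.lt_of_mul_lt_mul_left h2
  rw [Nat.mul_comm K B, Nat.mul_add_mod, Nat.mod_eq_of_lt hvB]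
  have h3 : v * p = p * v := Nat.mul_comm _ _
  have h4 : B * (d + 1) = d * B + B := by ring
  have h5 : B * d = d * B := Nat.mul_comm _ _
  rw [Nat.div_eq_iff hB0]
  omega

theorem digit_correct {B P m p : ℕ} {rest : List ℕ} (hc : (p :: rest).Pairwise Nat.Coprime)
    (h5 : ∀ q ∈ p :: rest, 1 < q) (hP : ∀ q ∈ p :: rest, q ≤ P) (hm : (p :: rest).length ≤ m)
    (hB : 5 * m * P < B) (u : ℕ) (hu : 5 * (u % rest.prod) ≤ 4 * rest.prod) :
    digq B m p ((p :: rest).map fun q => wq B P (p :: rest) q (u % q)).sum =
      u % (p :: rest).prod / rest.prod := by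
  have hpos : ∀ q ∈ p :: rest, 0 < q := fun q hq => by have := h5 q hq; omega
  have hM0 : 0 < (p :: rest).prod := List.prod_pos hpos
  have hN0 : 0 < rest.prod := List.prod_pos fun q hq => hpos q (by simp [hq])
  have hp1 : 1 < p := h5 p (by simp)
  have hpP : p ≤ P := hP p (by simp)
  have hcrt := crt_sum hc h5 hP u
  have hlen1 : 1 ≤ (p :: rest).length := by simp
  have hMN : (p :: rest).prod = p * rest.prod := List.prod_cons
  generalize p :: rest = qs at *
  generalize rest.prod = N at *
  -- floors
  have hfl : ∀ l : List ℕ, (∀ q ∈ l, q ∈ qs) →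
      qs.prod * (l.map fun q => wq B P qs q (u % q)).sum ≤
        B * (l.map fun q => hk P qs q u * (qs.prod / q)).sum ∧
      B * (l.map fun q => hk P qs q u * (qs.prod / q)).sum + l.length ≤
        qs.prod * (l.map fun q => wq B P qs q (u % q)).sum + qs.prod * l.length := by
    intro l
    induction l with
    | nil => simp
    | cons q l ih =>
      intro hl
      obtain ⟨i1, i2⟩ := ih fun q hq => hl q (by simp [hq])
      have hq := hl q (by simp)
      have hq0 := hpos q hq
      have hMq : q * (qs.prod / q) = qs.prod := Nat.mul_div_cancel' (List.dvd_prod hq)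
      have hwq : wq B P qs q (u % q) = B * hk P qs q u / q := by
        unfold wq hk
        rw [Nat.mod_mul_mod]
      have e1 := Nat.div_add_mod (B * hk P qs q u) q
      have e2 := Nat.mod_lt (B * hk P qs q u) hq0
      rw [← hwq] at e1
      simp only [List.map_cons, List.sum_cons, List.length_cons]
      generalize wq B P qs q (u % q) = w at *
      generalize hk P qs q u = h at *
      generalize B * h % q = r at *
      generalize qs.prod / q = D at *
      generalize (List.map (fun q => wq B P qs q (u % q)) l).sum = S at *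
      generalize (List.map (fun q => hk P qs q u * (qs.prod / q)) l).sum = C at *
      have e3 : qs.prod * w + r * D = B * (h * D) := by
        calc qs.prod * w + r * D = (q * w + r) * D := by rw [← hMq]; ring
          _ = B * (h * D) := by rw [e1]; ring
      have hD : 0 < D := by
        rcases Nat.eq_zero_or_pos D with h0 | h0
        · rw [h0] at hMq; omega
        · exact h0
      have e4 : r * D + 1 ≤ qs.prod := by
        have h6 : (r + 1) * D ≤ q * D := Nat.mul_le_mul_right _ (by omega)
        have h7 : (r + 1) * D = r * D + D := by ring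
        omega
      have e5 : qs.prod * (w + S) = qs.prod * w + qs.prod * S := by ring
      have e6 : B * (h * D + C) = B * (h * D) + B * C := by ring
      have e7 : qs.prod * (l.length + 1) = qs.prod * l.length + qs.prod := by ring
      constructor <;> omega
  obtain ⟨f1, f2⟩ := hfl qs fun q hq => hq
  generalize (qs.map fun q => wq B P qs q (u % q)).sum = S at *
  generalize (qs.map fun q => hk P qs q u * (qs.prod / q)).sum = C at *
  have hCm : C = qs.prod * (C / qs.prod) + u % qs.prod := by
    have h1 := Nat.div_add_mod C qs.prod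
    have h2 : C % qs.prod = u % qs.prod := hcrt
    rw [h2] at h1
    omega
  have hdm : u % qs.prod = N * (u % qs.prod / N) + u % N := by
    have h1 := Nat.div_add_mod (u % qs.prod) N
    have h2 : u % qs.prod % N = u % N := Nat.mod_mod_of_dvd u (by rw [hMN]; exact Dvd.intro_left p rfl)
    rw [h2] at h1
    omega
  have hdp : u % qs.prod / N < p := by
    rw [Nat.div_lt_iff_lt_mul hN0, ← hMN]
    exact Nat.mod_lt _ hM0
  exact digit_arith hMN hN0 hdp hdm hCm f1 f2 hlen1 hm hpP hB hu

end Pool.Agent.W995.PN
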