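import Mathlib

/-!
# Zorn's theorem: finite Engel groups are nilpotent
-/

namespace Pool.Agent.W995.PN

open Subgroup

/-- The commutator of `y` with `g`. -/
def cm {G : Type*} [Group G] (g y : G) : G := y * g * y⁻¹ * g⁻¹

section coprime

variable {G : Type*} [Group G]

theorem cm_one_right (g : G) : cm g 1 = 1 := by simp [cm]

theorem cm_one_left (y : G) : cm 1 y = 1 := by simp [cm]

theorem cm_eq_one {g y : G} : cm g y = 1 ↔ Commute y g := by
  unfold cm Commute SemiconjBy
  constructor
  · intro h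
    have := mul_inv_eq_one.1 h
    exact mul_inv_eq_iff_eq_mul.1 this
  · intro h
    rw [h]; group

theorem iter_one (g : G) (n : ℕ) : (cm g)^[n] 1 = 1 := by
  induction n with
  | zero => rfl
  | succ n ih => rw [Function.iterate_succ_apply, cm_one_right, ih]

theorem conj_pow_key {u g z : G} (hz : cm g u = z) (hc : Commute z g) (k : ℕ) :
    g ^ k * u * (g ^ k)⁻¹ = (z⁻¹) ^ k * u := by
  induction k with
  | zero => simp
  | succ k ih =>
    have h1 : g * u * g⁻¹ = z⁻¹ * u := by
      rw [← hz, cm]; group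
    have h2 : g ^ (k + 1) * u * (g ^ (k + 1))⁻¹ = g * (g ^ k * u * (g ^ k)⁻¹) * g⁻¹ := by
      rw [pow_succ']; group
    rw [h2, ih]
    have h3 : Commute (z⁻¹ ^ k) g := (hc.inv_left).pow_left k
    calc g * (z⁻¹ ^ k * u) * g⁻¹ = (g * z⁻¹ ^ k) * u * g⁻¹ := by group
      _ = z⁻¹ ^ k * (g * u * g⁻¹) := by rw [← h3.eq]; group
      _ = z⁻¹ ^ (k + 1) * u := by rw [h1, pow_succ, mul_assoc]

/-- If `g` has order prime to the orders of the elements of a subgroup `P` normalized by `g`, then
`g` commutes with every `y ∈ P` which is killed by iterated commutation with `g`. -/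
theorem commute_of_engel {P : Subgroup G} {g : G} {r : ℕ} (hr : g ^ r = 1)
    (hcop : ∀ y ∈ P, (orderOf y).Coprime r) (hn : ∀ y ∈ P, cm g y ∈ P) :
    ∀ (n : ℕ) (y : G), y ∈ P → (cm g)^[n] y = 1 → cm g y = 1
  | 0, y, _, h => by
    simp only [Function.iterate_zero, id_eq] at h
    rw [h, cm_one_right]
  | 1, y, _, h => by simpa using h
  | n + 2, y, hy, h => by
    rw [Function.iterate_succ_apply] at h
    have hz := hn y hy
    have h1 : cm g (cm g y) = 1 := commute_of_engel hr hcop hn (n + 1) _ hz h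
    have hc : Commute (cm g y) g := cm_eq_one.1 h1
    have h2 := conj_pow_key (u := y) rfl hc r
    rw [hr] at h2
    have h3 : ((cm g y)⁻¹) ^ r = 1 := by
      have : y = ((cm g y)⁻¹) ^ r * y := by simpa using h2
      simpa using this
    have h4 : (cm g y) ^ r = 1 := by
      rw [inv_pow] at h3
      exact inv_eq_one.1 h3
    have h5 := hcop _ hz
    have h6 : orderOf (cm g y) ∣ r := orderOf_dvd_of_pow_eq_one h4
    have h7 : orderOf (cm g y) = 1 := Nat.Coprime.eq_one_of_dvd h5 h6
    exact orderOf_eq_one_iff.1 h7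

end coprime

/-- Every element is killed by iterated commutation with any other element. -/
def IsEngel (G : Type*) [Group G] : Prop := ∀ g y : G, ∃ n : ℕ, (cm g)^[n] y = 1

theorem map_cm {G H : Type*} [Group G] [Group H] (f : G →* H) (g y : G) :
    f (cm g y) = cm (f g) (f y) := by simp [cm]

theorem map_iter {G H : Type*} [Group G] [Group H] (f : G →* H) (g : G) (n : ℕ) :
    ∀ y : G, f ((cm g)^[n] y) = (cm (f g))^[n] (f y) := by
  induction n with
  | zero => intro y; rfl
  | succ n ih => intro y; rw [Function.iterate_succ_apply, Function.iterate_succ_apply, ih, map_cm]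

theorem IsEngel.of_injective {G H : Type*} [Group G] [Group H] (f : G →* H)
    (hf : Function.Injective f) (h : IsEngel H) : IsEngel G := by
  intro g y
  obtain ⟨n, hn⟩ := h (f g) (f y)
  refine ⟨n, hf ?_⟩
  rw [map_iter, hn, map_one]

theorem IsEngel.of_surjective {G H : Type*} [Group G] [Group H] (f : G →* H)
    (hf : Function.Surjective f) (h : IsEngel G) : IsEngel H := by
  intro g y
  obtain ⟨g, rfl⟩ := hf g
  obtain ⟨y, rfl⟩ := hf y
  obtain ⟨n, hn⟩ := h g y
  refine ⟨n, ?_⟩
  rw [← map_iter, hn, map_one]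

theorem card_lt_of_ne_top {G : Type*} [Group G] [Finite G] {H : Subgroup G} (h : H ≠ ⊤) :
    Nat.card H < Nat.card G := by
  have h1 : Nat.card H ≤ Nat.card G := Subgroup.card_le_card_group H
  have h2 : Nat.card H ≠ Nat.card G := fun h2 => h (Subgroup.eq_top_of_card_eq H h2)
  omega

theorem card_lt_of_lt {G : Type*} [Group G] [Finite G] {H K : Subgroup G} (h : H < K) :
    Nat.card H < Nat.card K := by
  have h1 := Subgroup.card_le_of_le h.le
  have h2 : Nat.card H ≠ Nat.card K := fun h2 => h.ne (Subgroup.eq_of_le_of_card_ge h.le h2.ge)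
  omega

/-- In a group all of whose maximal subgroups are nilpotent, an intersection of two of them of
maximal order is normal. -/
theorem inf_normal {G : Type*} [Group G] [Finite G]
    (hnil : ∀ H : Subgroup G, H ≠ ⊤ → Group.IsNilpotent H) {A B : Subgroup G} (hA : IsCoatom A)
    (hB : IsCoatom B) (hAB : A ≠ B) (hmax : ∀ C C' : Subgroup G, IsCoatom C → IsCoatom C' → C ≠ C' →
      Nat.card (C ⊓ C' : Subgroup G) ≤ Nat.card (A ⊓ B : Subgroup G)) : (A ⊓ B).Normal := by
  have key : ∀ A B : Subgroup G, IsCoatom A → IsCoatom B → A ≠ B →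
      (∀ C C' : Subgroup G, IsCoatom C → IsCoatom C' → C ≠ C' →
      Nat.card (C ⊓ C' : Subgroup G) ≤ Nat.card (A ⊓ B : Subgroup G)) →
      ∀ C : Subgroup G, IsCoatom C → normalizer ((A ⊓ B : Subgroup G) : Set G) ≤ C → C = A := by
    intro A B hA hB hAB hmax C hC hN
    by_contra hne
    have hD : A ⊓ B < A := by
      refine lt_of_le_of_ne inf_le_left fun h => ?_
      have h1 : A ≤ B := by rw [← h]; exact inf_le_right
      rcases hA.le_iff.1 h1 with h2 | h2
      · exact hB.1 h2
      · exact hAB h2.symm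
    have hn := hnil A hA.1
    have h2 : (A ⊓ B).subgroupOf A < ⊤ := by
      rw [lt_top_iff_ne_top]
      intro h
      rw [Subgroup.subgroupOf_eq_top] at h
      exact absurd (le_antisymm hD.le h) hD.ne
    have h3 := Group.normalizerCondition_of_isNilpotent ((A ⊓ B).subgroupOf A) h2
    obtain ⟨a, ha, ha'⟩ := SetLike.exists_of_lt h3
    have h4 : (a : G) ∈ normalizer ((A ⊓ B : Subgroup G) : Set G) := by
      rw [← Subgroup.subgroupOf_normalizer_eq inf_le_left] at ha
      exact ha
    have h5 : (a : G) ∉ A ⊓ B := by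
      intro h
      exact ha' (Subgroup.mem_subgroupOf.2 h)
    have h6 : A ⊓ B < C ⊓ A := by
      refine lt_of_le_of_ne (le_inf (le_trans Subgroup.le_normalizer hN) inf_le_left) fun h => ?_
      rw [h] at h5
      exact h5 ⟨hN h4, a.2⟩
    have h7 := card_lt_of_lt h6
    have h8 := hmax C A hC hA hne
    omega
  by_contra hnot
  have h1 : normalizer ((A ⊓ B : Subgroup G) : Set G) ≠ ⊤ := fun h =>
    hnot (Subgroup.normalizer_eq_top_iff.1 h)
  obtain h2 | ⟨C, hC, hN⟩ := IsCoatomic.eq_top_or_exists_le_coatom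
    (normalizer ((A ⊓ B : Subgroup G) : Set G))
  · exact h1 h2
  have e1 := key A B hA hB hAB hmax C hC hN
  have e2 := key B A hB hA hAB.symm (by
    intro C C' h1 h2 h3
    rw [inf_comm B A]
    exact hmax C C' h1 h2 h3) C hC (by rw [inf_comm]; exact hN)
  exact hAB (e1.symm.trans e2)

/-- In an Engel group, a maximal subgroup which is not normal has a nontrivial intersection with
another maximal subgroup. -/
theorem exists_inf_ne_bot {G : Type*} [Group G] (hE : IsEngel G) {M : Subgroup G}
    (hM : IsCoatom M) (hn : ¬ M.Normal) : ∃ M' : Subgroup G, IsCoatom M' ∧ M ≠ M' ∧ M ⊓ M' ≠ ⊥ := by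
  have hN : normalizer (M : Set G) = M := by
    rcases hM.le_iff.1 (Subgroup.le_normalizer (H := M)) with h | h
    · exact absurd (Subgroup.normalizer_eq_top_iff.1 h) hn
    · exact h
  have hb : M ≠ ⊥ := by
    rintro rfl
    exact hn inferInstance
  obtain ⟨⟨g, hg⟩, hg1'⟩ := Subgroup.ne_bot_iff_exists_ne_one.1 hb
  have hg1 : g ≠ 1 := fun h => hg1' (Subtype.ext h)
  obtain ⟨x, hx⟩ : ∃ x, x ∉ M := by
    by_contra h
    push Not at h
    exact hM.1 (eq_top_iff.2 fun y _ => h y)
  obtain ⟨n, hn1⟩ := hE g x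
  have hex : ∃ n, (cm g)^[n] x ∈ M := ⟨n, by rw [hn1]; exact M.one_mem⟩
  classical
  obtain ⟨k, hk⟩ : ∃ k, Nat.find hex = k + 1 := by
    refine Nat.exists_eq_succ_of_ne_zero fun h => ?_
    have := Nat.find_spec hex
    rw [h] at this
    exact hx this
  have h1 := Nat.find_spec hex
  have h2 := Nat.find_min hex (m := k) (by omega)
  rw [hk, Function.iterate_succ_apply'] at h1
  set z := (cm g)^[k] x with hz
  have h3 : z * g * z⁻¹ ∈ M := by
    have : z * g * z⁻¹ = cm g z * g := by simp [cm]
    rw [this]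
    exact M.mul_mem h1 hg
  refine ⟨M.map (MulAut.conj z⁻¹).toMonoidHom, ?_, ?_, ?_⟩
  · exact ((MulAut.conj z⁻¹).mapSubgroup.isCoatom_iff M).2 hM
  · intro h
    apply h2
    rw [← hN]
    have h4 : z⁻¹ ∈ normalizer (M : Set G) := by
      rw [Subgroup.mem_normalizer_iff]
      intro y
      constructor
      · intro hy
        have : (MulAut.conj z⁻¹) y ∈ M.map (MulAut.conj z⁻¹).toMonoidHom :=
          Subgroup.mem_map_of_mem _ hy
        rw [← h] at this
        simpa using this
      · intro hy
        have h5 : (MulAut.conj z⁻¹) y ∈ M := by simpa using hy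
        rw [h] at h5
        obtain ⟨w, hw, hw'⟩ := h5
        have : w = y := (MulAut.conj z⁻¹).injective hw'
        exact this ▸ hw
    simpa using inv_mem h4
  · intro h
    have h4 : g ∈ M ⊓ M.map (MulAut.conj z⁻¹).toMonoidHom := by
      refine ⟨hg, ⟨z * g * z⁻¹, h3, ?_⟩⟩
      simp
      group
    rw [h] at h4
    exact hg1 (Subgroup.mem_bot.1 h4)

/-- A subgroup containing all Sylow subgroups is everything. -/
theorem eq_top_of_sylow {K : Type*} [Group K] [Finite K] {L : Subgroup K}
    (h : ∀ (l : ℕ) (_ : Fact l.Prime) (P : Sylow l K), (P : Subgroup K) ≤ L) : L = ⊤ := by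
  rw [← Subgroup.index_eq_one]
  by_contra hne
  obtain ⟨l, hl, hd⟩ := Nat.exists_prime_and_dvd hne
  have : Fact l.Prime := ⟨hl⟩
  obtain ⟨P⟩ : Nonempty (Sylow l K) := inferInstance
  exact P.not_dvd_index (hd.trans (Subgroup.index_dvd_of_le (h l ⟨hl⟩ P)))

theorem sylow_normal_of_engel {G : Type*} [Group G] [Finite G] (hE : IsEngel G)
    {K : Subgroup G} (hK : commutator G ≤ K) (hnil : Group.IsNilpotent K) {p : ℕ}
    [hp : Fact p.Prime] (P : Sylow p G) : P.Normal := by
  have hKn : K.Normal := Subgroup.Normal.of_commutator_le _ hK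
  rcases IsCoatomic.eq_top_or_exists_le_coatom (normalizer (P : Set G)) with h | ⟨C, hC, hNC⟩
  · exact Subgroup.normalizer_eq_top_iff.1 h
  exfalso
  have hPC : (P : Subgroup G) ≤ C := le_trans Subgroup.le_normalizer hNC
  have hKC : K ≤ C := by
    rw [← Subgroup.subgroupOf_eq_top]
    refine eq_top_of_sylow fun l hl Q => ?_
    have hQn : (Q : Subgroup K).Normal := inferInstance
    have hQc : (Q : Subgroup K).Characteristic := Q.characteristic_of_normal hQn
    have hQG : ((Q : Subgroup K).map K.subtype).Normal := inferInstance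
    have hQp : IsPGroup l ((Q : Subgroup K).map K.subtype) := Q.isPGroup'.map _
    intro y hy
    rw [Subgroup.mem_subgroupOf]
    have hy' : (y : G) ∈ (Q : Subgroup K).map K.subtype := ⟨y, hy, rfl⟩
    by_cases hlp : l = p
    · subst hlp
      exact hPC (hQp.le_sylow_of_normal P hy')
    · apply hNC
      have : (y : G) ∈ Subgroup.centralizer (P : Set G) := by
        rw [Subgroup.mem_centralizer_iff]
        intro g hg
        obtain ⟨k, hk⟩ := P.isPGroup' ⟨g, hg⟩
        have hk' : g ^ p ^ k = 1 := congrArg Subtype.val hk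
        obtain ⟨n, hn⟩ := hE g (y : G)
        have := commute_of_engel (P := (Q : Subgroup K).map K.subtype) hk' (by
          intro z hz
          obtain ⟨j, hj⟩ := hQp ⟨z, hz⟩
          have hj' : z ^ l ^ j = 1 := congrArg Subtype.val hj
          have h1 : orderOf z ∣ l ^ j := orderOf_dvd_of_pow_eq_one hj'
          have h2 : (l ^ j).Coprime (p ^ k) :=
            Nat.Coprime.pow _ _ ((Nat.coprime_primes hl.out hp.out).2 hlp)
          exact Nat.Coprime.coprime_dvd_left h1 h2) (by
          intro z hz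
          have : cm g z = z * (g * z⁻¹ * g⁻¹) := by unfold cm; group
          rw [this]
          exact mul_mem hz (hQG.conj_mem _ (inv_mem hz) g)) n (y : G) hy' hn
        exact ((cm_eq_one.1 this).eq).symm
      exact Subgroup.centralizer_le_normalizer _ this
  have hCn : C.Normal := Subgroup.Normal.of_commutator_le _ (hK.trans hKC)
  refine hC.1 ?_
  rw [← sup_of_le_right hNC]
  exact P.normalizer_sup_eq_top' hPC

theorem nilpotent_of_engel_aux : ∀ (n : ℕ) (G : Type) [Group G] [Finite G], Nat.card G ≤ n →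
    IsEngel G → Group.IsNilpotent G := by
  intro n
  induction n with
  | zero =>
    intro G _ _ h _
    have : 0 < Nat.card G := Nat.card_pos
    omega
  | succ n ih =>
    intro G _ _ hcard hE
    have hnil : ∀ H : Subgroup G, H ≠ ⊤ → Group.IsNilpotent H := fun H hH =>
      ih H (by have := card_lt_of_ne_top hH; omega) (hE.of_injective H.subtype H.subtype_injective)
    by_contra hnot
    have h3 : ¬ ∀ H : Subgroup G, IsCoatom H → H.Normal := fun h =>
      hnot ((Group.isNilpotent_of_finite_tfae (G := G)).out 2 0 rfl rfl |>.1 h)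
    push Not at h3
    obtain ⟨M, hM, hMn⟩ := h3
    obtain ⟨M', hM', hne, hinf⟩ := exists_inf_ne_bot hE hM hMn
    classical
    obtain ⟨⟨A, B⟩, ⟨hA, hB, hAB⟩, hmax⟩ := Set.exists_max_image
      {x : Subgroup G × Subgroup G | IsCoatom x.1 ∧ IsCoatom x.2 ∧ x.1 ≠ x.2}
      (fun x => Nat.card (x.1 ⊓ x.2 : Subgroup G)) (Set.toFinite _) ⟨(M, M'), hM, hM', hne⟩
    simp only at hA hB hAB
    have hmax' : ∀ C C' : Subgroup G, IsCoatom C → IsCoatom C' → C ≠ C' →
      Nat.card (C ⊓ C' : Subgroup G) ≤ Nat.card (A ⊓ B : Subgroup G) := fun C C' h1 h2 h3 =>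
        hmax (C, C') ⟨h1, h2, h3⟩
    have hDn := inf_normal hnil hA hB hAB hmax'
    have hD1 : A ⊓ B ≠ ⊥ := by
      intro h
      have h1 := hmax' M M' hM hM' hne
      rw [h, Subgroup.card_bot] at h1
      exact hinf (Subgroup.card_le_one_iff_eq_bot _ |>.1 h1)
    have hDt : A ⊓ B ≠ ⊤ := fun h => hA.1 (eq_top_iff.2 (by rw [← h]; exact inf_le_left))
    have hq : Group.IsNilpotent (G ⧸ (A ⊓ B)) := by
      refine ih _ ?_ (hE.of_surjective (QuotientGroup.mk' (A ⊓ B)) (QuotientGroup.mk'_surjective _))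
      have h1 := Subgroup.card_eq_card_quotient_mul_card_subgroup (A ⊓ B)
      have h2 : 1 < Nat.card (A ⊓ B : Subgroup G) := (Subgroup.one_lt_card_iff_ne_bot _).2 hD1
      have h3 : 0 < Nat.card (G ⧸ (A ⊓ B)) := Nat.card_pos
      nlinarith
    have hDnil := hnil _ hDt
    have hsol : Group.IsSolvable G := Group.isSolvable_of_ker_le_range (A ⊓ B).subtype
      (QuotientGroup.mk' (A ⊓ B)) (by simp)
    have hnt : Nontrivial G := by
      by_contra h
      rw [not_nontrivial_iff_subsingleton] at h
      exact hnot inferInstance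
    have hcomm : commutator G ≠ ⊤ := (Group.IsSolvable.commutator_lt_top_of_nontrivial G).ne
    obtain h | ⟨K, hK, hcK⟩ := IsCoatomic.eq_top_or_exists_le_coatom (commutator G)
    · exact hcomm h
    have hKnil := hnil K hK.1
    refine hnot ((Group.isNilpotent_of_finite_tfae (G := G)).out 3 0 rfl rfl |>.1 ?_)
    intro p hp P
    exact sylow_normal_of_engel hE hcK hKnil P

/-- Zorn's theorem. -/
theorem nilpotent_of_engel {G : Type} [Group G] [Finite G] (h : IsEngel G) :
    Group.IsNilpotent G := nilpotent_of_engel_aux _ G le_rfl h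

/-- A finite group that is not nilpotent contains elements `g` and `y ≠ 1` with
`y = [...[[y, g], g]..., g]` for a positive number of commutations. -/
theorem exists_gadget {G : Type} [Group G] [Finite G] (h : ¬ Group.IsNilpotent G) :
    ∃ (g y : G) (m : ℕ), y ≠ 1 ∧ (cm g)^[m + 1] y = y := by
  have h1 : ¬ IsEngel G := fun hE => h (nilpotent_of_engel hE)
  unfold IsEngel at h1
  push Not at h1
  obtain ⟨g, y, hy⟩ := h1
  obtain ⟨a, b, hab, heq⟩ := Finite.exists_ne_map_eq_of_infinite (fun n : ℕ => (cm g)^[n] y)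
  wlog hlt : a < b generalizing a b
  · exact this b a hab.symm heq.symm (by omega)
  obtain ⟨m, rfl⟩ : ∃ m, b = a + (m + 1) := ⟨b - a - 1, by omega⟩
  refine ⟨g, (cm g)^[a] y, m, hy a, ?_⟩
  rw [← Function.iterate_add_apply, add_comm]
  exact heq.symm

end Pool.Agent.W995.PN
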