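import Pool.Agent.W995.PN.PSp
import Pool.Agent.W995.PN.Engel

/-!
# Networks over a group which is not nilpotent simulate automata with a clock
-/

namespace Pool.Agent.W995.PN

open Pool.Agent.NPC

/-- A row of the transition table: the question (register and residue), the next state if the
answer is no, the next state if it is yes. -/
abbrev ARow := (ℕ × ℕ) × ℕ × ℕ

/-- The answer of the clock at time `t`: is `t / L` congruent to `a` modulo the `k`-th modulus? -/
def bitA (ps : List ℕ) (L t : ℕ) (ka : ℕ × ℕ) : Bool :=
  decide (t / L % ps.getD ka.1 1 = ka.2 % ps.getD ka.1 1)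

/-- The next state. -/
def nxt (rows : List ARow) (ps : List ℕ) (L t s : ℕ) : ℕ :=
  bif bitA ps L t (rows.getD s ((0, 0), 0, 0)).1 then (rows.getD s ((0, 0), 0, 0)).2.2
    else (rows.getD s ((0, 0), 0, 0)).2.1

/-- The state after `n` steps from the state `s` at time `t`. -/
def runA (rows : List ARow) (ps : List ℕ) (L : ℕ) : ℕ → ℕ → ℕ → ℕ
  | 0, _, s => s
  | n + 1, t, s => runA rows ps L n (t + 1) (nxt rows ps L t s)

/-- The content of the position `j` of a register. -/
def Xb (ps : List ℕ) (L k j τ : ℕ) : Bool :=
  decide ((j + τ) % (ps.getD k 1 * L) / L = ps.getD k 1 - 1)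

theorem Xb_succ (ps : List ℕ) (L k j τ : ℕ) :
    Xb ps L k ((j + 1) % (ps.getD k 1 * L)) τ = Xb ps L k j (τ + 1) := by
  unfold Xb
  rw [Nat.mod_add_mod]
  congr 4
  ring

theorem Xb_eq_bitA {ps : List ℕ} {L M k a t τ : ℕ} (hL : 0 < L) (hk : ps.getD k 1 ∣ M)
    (hp : 0 < ps.getD k 1) (ht : t + τ + 1 = L * M) :
    Xb ps L k (a * L) τ = bitA ps L t (k, a) := by
  unfold Xb bitA
  rw [Bool.eq_iff_iff, decide_eq_true_eq, decide_eq_true_eq]
  simp only
  set p := ps.getD k 1 with hpdef
  rw [Nat.mod_mul_left_div_self]
  have h1 : (a * L + τ) / L = a + τ / L := by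
    rw [Nat.add_comm, Nat.add_mul_div_right _ _ hL, Nat.add_comm]
  rw [h1]
  have h2 : t / L + τ / L + 1 = M := by
    have e1 := Nat.div_add_mod t L
    have e2 := Nat.div_add_mod τ L
    have e3 := Nat.mod_lt t hL
    have e4 := Nat.mod_lt τ hL
    have e5 : L * (t / L + τ / L) + (t % L + τ % L + 1) = L * M := by
      rw [← ht, Nat.mul_add]; omega
    have e6 : t % L + τ % L + 1 = L * (M - (t / L + τ / L)) := by
      rw [Nat.mul_sub]; omega
    have e7 : 0 < M - (t / L + τ / L) := by
      rcases Nat.eq_zero_or_pos (M - (t / L + τ / L)) with h | h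
      · rw [h] at e6; omega
      · exact h
    have e8 : M - (t / L + τ / L) < 2 := by
      by_contra h
      push Not at h
      have : L * 2 ≤ L * (M - (t / L + τ / L)) := Nat.mul_le_mul_left _ h
      omega
    omega
  have h3 : (t / L + (τ / L + 1)) ≡ 0 [MOD p] := by
    rw [Nat.modEq_zero_iff_dvd, ← Nat.add_assoc, h2]
    exact hk
  have h4 : (a + τ / L) % p = p - 1 ↔ (a + (τ / L + 1)) ≡ 0 [MOD p] := by
    rw [← Nat.add_assoc]
    unfold Nat.ModEq
    rw [Nat.zero_mod]
    constructor
    · intro h
      rw [Nat.add_mod, h]
      rcases Nat.lt_or_ge 1 p with h5 | h5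
      · rw [Nat.mod_eq_of_lt h5, Nat.sub_add_cancel h5.le, Nat.mod_self]
      · have : p = 1 := by omega
        rw [this]
    · intro h
      have e1 := Nat.mod_lt (a + τ / L) hp
      by_contra hne
      have e2 : (a + τ / L) % p + 1 < p := by omega
      have e3 : (a + τ / L + 1) % p = (a + τ / L) % p + 1 := by
        rw [Nat.add_mod, Nat.mod_eq_of_lt (a := 1) (by omega), Nat.mod_eq_of_lt e2]
      omega
  rw [h4]
  constructor
  · intro h
    exact (Nat.ModEq.add_right_cancel' (τ / L + 1) (h.trans h3.symm)).symm
  · intro h
    exact (Nat.ModEq.add_right _ (show a ≡ t / L [MOD p] from h.symm)).trans h3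

section gate

variable {G : Type} [Group G] [Fintype G] (e : Fin (Fintype.card G) ≃ G)

/-- A word for the inverse. -/
def winv (c : ℕ) (w : List (Bool × ℕ)) : List (Bool × ℕ) := (List.replicate c w).flatten

/-- A word for a commutator. -/
def wcm (c : ℕ) (wg wy : List (Bool × ℕ)) : List (Bool × ℕ) :=
  wy ++ (wg ++ (winv c wy ++ winv c wg))

/-- A word which selects the second letter if the first one is the special element. -/
def gateW (c m gc : ℕ) (lx ly : Bool × ℕ) : List (Bool × ℕ) :=
  (wcm c [(true, gc)])^[m] (wcm c [lx] [ly])

theorem prod_winv (x : ℕ → G) (w : List (Bool × ℕ)) :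
    ((winv (Fintype.card G - 1) w).map (letter e x)).prod = ((w.map (letter e x)).prod)⁻¹ := by
  unfold winv
  have key : ∀ c, (((List.replicate c w).flatten).map (letter e x)).prod =
      ((w.map (letter e x)).prod) ^ c := by
    intro c
    induction c with
    | zero => simp
    | succ c ih =>
      rw [List.replicate_succ, List.flatten_cons, List.map_append, List.prod_append, ih, pow_succ']
  rw [key, eq_inv_iff_mul_eq_one, ← pow_succ]
  have h : 0 < Fintype.card G := Fintype.card_pos
  rw [Nat.sub_add_cancel h, pow_card_eq_one]

theorem prod_wcm (x : ℕ → G) (wg wy : List (Bool × ℕ)) :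
    ((wcm (Fintype.card G - 1) wg wy).map (letter e x)).prod =
      cm ((wg.map (letter e x)).prod) ((wy.map (letter e x)).prod) := by
  unfold wcm cm
  rw [List.map_append, List.prod_append, List.map_append, List.prod_append, List.map_append,
    List.prod_append, prod_winv, prod_winv]
  simp only [mul_assoc]

theorem prod_gateW (x : ℕ → G) (m gc : ℕ) (lx ly : Bool × ℕ) :
    ((gateW (Fintype.card G - 1) m gc lx ly).map (letter e x)).prod =
      (cm (el e gc))^[m] (cm (letter e x lx) (letter e x ly)) := by
  unfold gateW
  induction m with
  | zero => rw [Function.iterate_zero, Function.iterate_zero, id, id, prod_wcm]; simp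
  | succ m ih =>
    rw [Function.iterate_succ_apply', Function.iterate_succ_apply', prod_wcm, ih]
    simp [letter]

end gate

section net

variable {G : Type} [Group G] [Fintype G] (e : Fin (Fintype.card G) ≃ G)

/-- Two letters, one for each answer. -/
def rowW (c m gc N KR R L : ℕ) (r : ARow) : List (Bool × ℕ) :=
  gateW c m gc (false, N + (r.1.1 * R + r.1.2 * L)) (false, r.2.2) ++
    gateW c m gc (false, N + KR + (r.1.1 * R + r.1.2 * L)) (false, r.2.1)

/-- The word of a cell of a register. -/
def copyW (ps : List ℕ) (L R off i : ℕ) : List (Bool × ℕ) :=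
  [(false, off + (i / R * R + (i % R + 1) % (ps.getD (i / R) 1 * L)))]

/-- The words of the network. -/
def netW (c m gc : ℕ) (rows : List ARow) (ps : List ℕ) (L R : ℕ) : List (List (Bool × ℕ)) :=
  rows.map (rowW c m gc rows.length (ps.length * R) R L) ++
    ((List.range (ps.length * R)).map (copyW ps L R rows.length) ++
      (List.range (ps.length * R)).map (copyW ps L R (rows.length + ps.length * R)))

/-- The initial state. -/
def netS (c1 gc yc : ℕ) (accs : List Bool) (ps : List ℕ) (L R : ℕ) : List ℕ :=
  accs.map (fun b => bif b then yc else c1) ++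
    ((List.range (ps.length * R)).map (fun i => bif Xb ps L (i / R) (i % R) 0 then gc else c1) ++
      (List.range (ps.length * R)).map (fun i => bif Xb ps L (i / R) (i % R) 0 then c1 else gc))

/-- The state at time `τ`. -/
def stN (g y : G) (rows : List ARow) (accs : List Bool) (ps : List ℕ) (L R T τ i : ℕ) : G :=
  if i < rows.length then (bif accs.getD (runA rows ps L τ (T - τ) i) false then y else 1)
  else if i < rows.length + ps.length * R then
    (bif Xb ps L ((i - rows.length) / R) ((i - rows.length) % R) τ then g else 1)
  else if i < rows.length + ps.length * R + ps.length * R then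
    (bif Xb ps L ((i - (rows.length + ps.length * R)) / R)
      ((i - (rows.length + ps.length * R)) % R) τ then 1 else g)
  else 1

/-- A clock that fits. -/
structure Fits (rows : List ARow) (accs : List Bool) (ps : List ℕ) (L R M : ℕ) : Prop where
  lenAcc : accs.length = rows.length
  L_pos : 0 < L
  dvd : ∀ p ∈ ps, p ∣ M
  pos : ∀ p ∈ ps, 0 < p
  le : ∀ p ∈ ps, p * L ≤ R
  row : ∀ r ∈ rows, r.1.1 < ps.length ∧ r.1.2 * L < R ∧ r.2.1 < rows.length ∧
    r.2.2 < rows.length

theorem getD_append_range {α : Type*} (l : List α) (f : ℕ → α) (n : ℕ) (r : List α) (d : α)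
    (i : ℕ) : (l ++ ((List.range n).map f ++ r)).getD i d =
      if i < l.length then l.getD i d else if i < l.length + n then f (i - l.length)
        else r.getD (i - (l.length + n)) d := by
  split_ifs with h1 h2
  · rw [List.getD_append _ _ _ _ h1]
  · rw [List.getD_append_right _ _ _ _ (by omega), List.getD_append _ _ _ _ (by simp; omega)]
    rw [List.getD_eq_getElem?_getD, List.getElem?_map, List.getElem?_range (by omega)]
    rfl
  · rw [List.getD_append_right _ _ _ _ (by omega), List.getD_append_right _ _ _ _ (by simp; omega)]
    congr 1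
    simp
    omega

theorem getD_range_map {α : Type*} (f : ℕ → α) (n : ℕ) (d : α) (i : ℕ) :
    ((List.range n).map f).getD i d = if i < n then f i else d := by
  split_ifs with h
  · rw [List.getD_eq_getElem?_getD, List.getElem?_map, List.getElem?_range h]
    rfl
  · rw [List.getD_eq_default _ _ (by simp; omega)]

theorem start_netS {g y : G} {accs : List Bool} {rows : List ARow} {ps : List ℕ} {L R T : ℕ}
    (hlen : accs.length = rows.length) :
    start e (netS (code e 1) (code e g) (code e y) accs ps L R) =
      stN g y rows accs ps L R T 0 := by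
  rw [← sem_eq_start]
  funext i
  unfold sem netS stN
  rw [getD_append_range, getD_range_map]
  simp only [List.length_map, hlen, runA]
  by_cases h1 : i < rows.length
  · simp only [h1, if_true]
    rw [List.getD_eq_getElem?_getD, List.getElem?_map, List.getD_eq_getElem?_getD,
      List.getElem?_eq_getElem (by omega)]
    simp only [Option.map_some, Option.getD_some]
    cases accs[i] <;> simp [el_code]
  · simp only [h1, if_false]
    by_cases h2 : i < rows.length + ps.length * R
    · simp only [h2, if_true]
      cases Xb ps L ((i - rows.length) / R) ((i - rows.length) % R) 0 <;> simp [el_code]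
    · simp only [h2, if_false]
      by_cases h3 : i < rows.length + ps.length * R + ps.length * R
      · have h4 : i - (rows.length + ps.length * R) < ps.length * R := by omega
        simp only [h3, h4, if_true]
        cases Xb ps L ((i - (rows.length + ps.length * R)) / R)
          ((i - (rows.length + ps.length * R)) % R) 0 <;> simp [el_code]
      · have h4 : ¬ i - (rows.length + ps.length * R) < ps.length * R := by omega
        simp only [h3, h4, if_false, el_code]

theorem idx_div {R k r : ℕ} (h : r < R) : (k * R + r) / R = k := by
  have hR : 0 < R := by omega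
  rw [Nat.add_comm, Nat.add_mul_div_right _ _ hR, Nat.div_eq_of_lt h, Nat.zero_add]

theorem idx_mod {R k r : ℕ} (h : r < R) : (k * R + r) % R = r := by
  rw [Nat.add_comm, Nat.add_mul_mod_self_right, Nat.mod_eq_of_lt h]

theorem idx_lt {R K k r : ℕ} (hk : k < K) (h : r < R) : k * R + r < K * R := by
  have : (k + 1) * R ≤ K * R := Nat.mul_le_mul_right _ hk
  have h2 : (k + 1) * R = k * R + R := by ring
  omega

theorem step_stN {g y : G} {m : ℕ} (hy : (cm g)^[m + 1] y = y) {rows : List ARow}
    {accs : List Bool} {ps : List ℕ} {L R M : ℕ} (hf : Fits rows accs ps L R M) {τ : ℕ}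
    (hτ : τ < L * M) :
    step e (netW (Fintype.card G - 1) m (code e g) rows ps L R)
      (stN g y rows accs ps L R (L * M) τ) = stN g y rows accs ps L R (L * M) (τ + 1) := by
  have hgetp : ∀ k < ps.length, ps.getD k 1 ∈ ps := by
    intro k hk
    rw [List.getD_eq_getElem?_getD, List.getElem?_eq_getElem hk]
    exact List.getElem_mem hk
  funext i
  unfold step netW
  rw [getD_append_range, getD_range_map]
  simp only [List.length_map]
  -- values of the cells
  have vy : ∀ s < rows.length, stN g y rows accs ps L R (L * M) τ s =
      (bif accs.getD (runA rows ps L τ (L * M - τ) s) false then y else 1) := by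
    intro s hs; unfold stN; rw [if_pos hs]
  have vx : ∀ k < ps.length, ∀ j < R, stN g y rows accs ps L R (L * M) τ
      (rows.length + (k * R + j)) = (bif Xb ps L k j τ then g else 1) := by
    intro k hk j hj
    unfold stN
    have h1 := idx_lt hk hj
    rw [if_neg (by omega), if_pos (by omega), Nat.add_sub_cancel_left, idx_div hj, idx_mod hj]
  have vz : ∀ k < ps.length, ∀ j < R, stN g y rows accs ps L R (L * M) τ
      (rows.length + ps.length * R + (k * R + j)) = (bif Xb ps L k j τ then 1 else g) := by
    intro k hk j hj
    unfold stN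
    have h1 := idx_lt hk hj
    rw [if_neg (by omega), if_neg (by omega), if_pos (by omega), Nat.add_sub_cancel_left,
      idx_div hj, idx_mod hj]
  have gate1 : ∀ b b' : Bool, (cm g)^[m] (cm (bif b then g else 1) (bif b' then y else 1)) =
      (bif (b && b') then y else 1) := by
    intro b b'
    cases b <;> cases b' <;> simp only [cond_true, cond_false, Bool.and_true, Bool.and_false,
      Bool.true_and, Bool.false_and, cm_one_left, cm_one_right, iter_one]
    rw [← Function.iterate_succ_apply, hy]
  by_cases h1 : i < rows.length
  · rw [if_pos h1]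
    have hr := hf.row rows[i] (List.getElem_mem h1)
    have hrow : (rows.map (rowW (Fintype.card G - 1) m (code e g) rows.length (ps.length * R) R
        L)).getD i [] = rowW (Fintype.card G - 1) m (code e g) rows.length (ps.length * R) R L
          rows[i] := by
      rw [List.getD_eq_getElem?_getD, List.getElem?_map, List.getElem?_eq_getElem h1]
      rfl
    rw [hrow]
    obtain ⟨⟨⟨k, a⟩, s0, s1⟩, hri⟩ : ∃ r, rows[i] = r := ⟨_, rfl⟩
    rw [hri] at hr ⊢
    obtain ⟨hr1, hr2, hr3, hr4⟩ := hr
    simp only at hr1 hr2 hr3 hr4
    unfold rowW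
    rw [List.map_append, List.prod_append, prod_gateW, prod_gateW, el_code]
    simp only [letter, cond_false]
    rw [vx k hr1 _ hr2, vz k hr1 _ hr2, vy s1 hr4, vy s0 hr3]
    have hX : Xb ps L k (a * L) τ = bitA ps L (L * M - τ - 1) (k, a) :=
      Xb_eq_bitA hf.L_pos (hf.dvd _ (hgetp k hr1)) (hf.pos _ (hgetp k hr1)) (by omega)
    have hneg : (bif Xb ps L k (a * L) τ then (1 : G) else g) =
        (bif !(Xb ps L k (a * L) τ) then g else 1) := by
      cases Xb ps L k (a * L) τ <;> rfl
    rw [hneg, gate1, gate1]
    unfold stN
    rw [if_pos h1]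
    have hrun : runA rows ps L (τ + 1) (L * M - (τ + 1)) i = runA rows ps L τ (L * M - τ)
        (bif bitA ps L (L * M - τ - 1) (k, a) then s1 else s0) := by
      rw [runA]
      have e1 : L * M - (τ + 1) + 1 = L * M - τ := by omega
      have e2 : L * M - (τ + 1) = L * M - τ - 1 := by omega
      rw [e1, e2]
      congr 1
      unfold nxt
      have e3 : rows.getD i ((0, 0), 0, 0) = ((k, a), s0, s1) := by
        rw [List.getD_eq_getElem?_getD, List.getElem?_eq_getElem h1, hri]
        rfl
      rw [e3]
    rw [hrun, hX]
    cases bitA ps L (L * M - τ - 1) (k, a) <;> simp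
  · rw [if_neg h1]
    by_cases h2 : i < rows.length + ps.length * R
    · rw [if_pos h2]
      have hR : 0 < R := by
        rcases Nat.eq_zero_or_pos R with h | h
        · rw [h] at h2; simp at h2; omega
        · exact h
      have hk : (i - rows.length) / R < ps.length := by
        rw [Nat.div_lt_iff_lt_mul hR]; omega
      have hj : ((i - rows.length) % R + 1) % (ps.getD ((i - rows.length) / R) 1 * L) < R := by
        have hp := hf.pos _ (hgetp _ hk)
        have hle := hf.le _ (hgetp _ hk)
        have := Nat.mod_lt ((i - rows.length) % R + 1) (Nat.mul_pos hp hf.L_pos)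
        omega
      unfold copyW
      rw [List.map_singleton, List.prod_singleton]
      simp only [letter, cond_false]
      rw [vx _ hk _ hj, Xb_succ]
      unfold stN
      rw [if_neg h1, if_pos h2]
    · rw [if_neg h2]
      by_cases h3 : i < rows.length + ps.length * R + ps.length * R
      · have h4 : i - (rows.length + ps.length * R) < ps.length * R := by omega
        rw [if_pos h4]
        have hR : 0 < R := by
          rcases Nat.eq_zero_or_pos R with h | h
          · rw [h] at h4; simp at h4
          · exact h
        have hk : (i - (rows.length + ps.length * R)) / R < ps.length := by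
          rw [Nat.div_lt_iff_lt_mul hR]; omega
        have hj : ((i - (rows.length + ps.length * R)) % R + 1) %
            (ps.getD ((i - (rows.length + ps.length * R)) / R) 1 * L) < R := by
          have hp := hf.pos _ (hgetp _ hk)
          have hle := hf.le _ (hgetp _ hk)
          have := Nat.mod_lt ((i - (rows.length + ps.length * R)) % R + 1)
            (Nat.mul_pos hp hf.L_pos)
          omega
        unfold copyW
        rw [List.map_singleton, List.prod_singleton]
        simp only [letter, cond_false]
        rw [vz _ hk _ hj, Xb_succ]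
        unfold stN
        rw [if_neg h1, if_neg h2, if_pos h3]
      · have h4 : ¬ i - (rows.length + ps.length * R) < ps.length * R := by omega
        rw [if_neg h4]
        unfold stN
        rw [if_neg h1, if_neg h2, if_neg h3]
        simp

/-- The instance of the prediction problem. -/
def netI (c m c1 gc yc : ℕ) (rows : List ARow) (accs : List Bool) (ps : List ℕ) (L R M s : ℕ) :
    Inst :=
  (netW c m gc rows ps L R, netS c1 gc yc accs ps L R, L * M, s, yc)

theorem PRED_netI {g y : G} {m : ℕ} (hy1 : y ≠ 1) (hy : (cm g)^[m + 1] y = y) {rows : List ARow}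
    {accs : List Bool} {ps : List ℕ} {L R M s : ℕ} (hf : Fits rows accs ps L R M)
    (hs : s < rows.length) :
    PRED e (netI (Fintype.card G - 1) m (code e 1) (code e g) (code e y) rows accs ps L R M s) ↔
      accs.getD (runA rows ps L (L * M) 0 s) false = true := by
  have key : ∀ τ ≤ L * M, (step e (netW (Fintype.card G - 1) m (code e g) rows ps L R))^[τ]
      (start e (netS (code e 1) (code e g) (code e y) accs ps L R)) =
        stN g y rows accs ps L R (L * M) τ := by
    intro τ
    induction τ with
    | zero => intro _; exact start_netS e hf.lenAcc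
    | succ τ ih =>
      intro hτ
      rw [Function.iterate_succ_apply', ih (by omega), step_stN e hy hf (by omega)]
  unfold PRED netI
  simp only
  rw [key _ le_rfl, el_code]
  unfold stN
  rw [if_pos hs, Nat.sub_self]
  cases accs.getD (runA rows ps L (L * M) 0 s) false
  · simp [Ne.symm hy1]
  · simp

end net

end Pool.Agent.W995.PN
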