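import Pool.Agent.W995.PN.Alg

/-!
# Faithful unitriangular representations of finite nilpotent groups
-/

namespace Pool.Agent.W995.PN

section basis

variable {p : ℕ} [hp : Fact p.Prime] {P : Type} [Group P] [Finite P]

omit [Finite P] in
theorem exists_invariant (hP : IsPGroup p P) {V : Type} [AddCommGroup V] [Module (ZMod p) V]
    [Module.Finite (ZMod p) V] (hV : 0 < Module.finrank (ZMod p) V)
    (ρ : P →* Module.End (ZMod p) V) :
    ∃ f : V →ₗ[ZMod p] ZMod p, f ≠ 0 ∧ ∀ g v, f (ρ g v) = f v := by
  letI act : MulAction P (V →ₗ[ZMod p] ZMod p) :=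
    { smul := fun g f => f.comp (ρ g⁻¹)
      one_smul := by
        intro f
        change f.comp (ρ (1 : P)⁻¹) = f
        rw [inv_one, map_one]
        rfl
      mul_smul := by
        intro g h f
        change f.comp (ρ (g * h)⁻¹) = (f.comp (ρ h⁻¹)).comp (ρ g⁻¹)
        rw [mul_inv_rev, map_mul]
        rfl }
  haveI : Finite (V →ₗ[ZMod p] ZMod p) := Module.finite_of_finite (ZMod p)
  have hcard : p ∣ Nat.card (V →ₗ[ZMod p] ZMod p) := by
    rw [Module.natCard_eq_pow_finrank (K := ZMod p), Nat.card_zmod]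
    refine dvd_pow_self p ?_
    have : Module.finrank (ZMod p) (V →ₗ[ZMod p] ZMod p) = Module.finrank (ZMod p) V :=
      Subspace.dual_finrank_eq
    omega
  have h0 : (0 : V →ₗ[ZMod p] ZMod p) ∈ MulAction.fixedPoints P (V →ₗ[ZMod p] ZMod p) := by
    intro g
    change (0 : V →ₗ[ZMod p] ZMod p).comp (ρ g⁻¹) = 0
    rw [LinearMap.zero_comp]
  obtain ⟨f, hf, hne⟩ := hP.exists_fixed_point_of_prime_dvd_card_of_fixed_point _ hcard h0
  refine ⟨f, hne.symm, fun g v => ?_⟩
  have h1 : f.comp (ρ (g⁻¹)⁻¹) = f := hf g⁻¹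
  rw [inv_inv] at h1
  exact LinearMap.congr_fun h1 v

theorem exists_basis (hP : IsPGroup p P) : ∀ (n : ℕ) {V : Type} [AddCommGroup V]
    [Module (ZMod p) V] [Module.Finite (ZMod p) V] (_ : Module.finrank (ZMod p) V = n)
    (ρ : P →* Module.End (ZMod p) V), ∃ b : Module.Basis (Fin n) (ZMod p) V,
      ∀ g i j, i ≤ j → b.repr (ρ g (b j)) i = if i = j then 1 else 0 := by
  intro n
  induction n with
  | zero =>
    intro V _ _ _ hn ρ
    exact ⟨Module.finBasisOfFinrankEq _ _ hn, fun g i => i.elim0⟩
  | succ n ih =>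
    intro V _ _ _ hn ρ
    obtain ⟨f, hf, hinv⟩ := exists_invariant hP (by omega) ρ
    obtain ⟨v, hv⟩ : ∃ v, f v ≠ 0 := by
      by_contra hcon
      push Not at hcon
      exact hf (LinearMap.ext hcon)
    set y := (f v)⁻¹ • v with hy
    have hfy : f y = 1 := by
      rw [hy, map_smul, smul_eq_mul, inv_mul_cancel₀ hv]
    set N := LinearMap.ker f with hN
    have hNinv : ∀ g, ∀ x ∈ N, ρ g x ∈ N := by
      intro g x hx
      rw [hN, LinearMap.mem_ker] at hx ⊢
      rw [hinv, hx]
    have hfin : Module.finrank (ZMod p) N = n := by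
      have h1 := LinearMap.finrank_range_add_finrank_ker f
      have h2 : LinearMap.range f = ⊤ := by
        rw [LinearMap.range_eq_top]
        intro c
        exact ⟨c • y, by rw [map_smul, hfy, smul_eq_mul, mul_one]⟩
      rw [h2, finrank_top, Module.finrank_self, hn] at h1
      change 1 + Module.finrank (ZMod p) N = n + 1 at h1
      omega
    let ρN : P →* Module.End (ZMod p) N :=
      { toFun := fun g => (ρ g).restrict (hNinv g)
        map_one' := by
          ext x
          simp
        map_mul' := by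
          intro g h
          ext x
          simp }
    obtain ⟨bN, hbN⟩ := ih hfin ρN
    let b : Module.Basis (Fin (n + 1)) (ZMod p) V := Module.Basis.mkFinCons y bN
      (by
        intro c x hx h
        have h1 := congrArg f h
        rw [map_add, map_smul, hfy, (LinearMap.mem_ker.1 hx : f x = 0), map_zero, add_zero,
          smul_eq_mul, mul_one] at h1
        exact h1)
      (by
        intro z
        refine ⟨-(f z), ?_⟩
        rw [hN, LinearMap.mem_ker, map_add, map_smul, hfy, smul_eq_mul, mul_one, add_neg_cancel])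
    have hb0 : b 0 = y := by
      simp [b, Module.Basis.coe_mkFinCons]
    have hbs : ∀ i : Fin n, b i.succ = (bN i : V) := by
      intro i
      simp [b, Module.Basis.coe_mkFinCons]
    have hrepr : ∀ x : N, (b.repr (x : V) 0 = 0) ∧ ∀ i : Fin n, b.repr (x : V) i.succ =
        bN.repr x i := by
      intro x
      have h1 : (x : V) = ∑ i : Fin n, bN.repr x i • b i.succ := by
        conv_lhs => rw [← bN.sum_repr x]
        rw [Submodule.coe_sum]
        refine Finset.sum_congr rfl fun i _ => ?_
        rw [hbs]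
        rfl
      constructor
      · rw [h1, map_sum, Finset.sum_apply']
        refine Finset.sum_eq_zero fun i _ => ?_
        rw [map_smul, Module.Basis.repr_self, Finsupp.smul_apply, Finsupp.single_apply,
          if_neg (Fin.succ_ne_zero i), smul_zero]
      · intro i
        conv_lhs => rw [h1]
        rw [map_sum, Finset.sum_apply', Finset.sum_eq_single i]
        · rw [map_smul, Module.Basis.repr_self, Finsupp.smul_apply, Finsupp.single_eq_same,
            smul_eq_mul, mul_one]
        · intro j _ hne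
          rw [map_smul, Module.Basis.repr_self, Finsupp.smul_apply, Finsupp.single_apply,
            if_neg (fun h => hne (Fin.succ_injective _ h)), smul_zero]
        · intro h
          exact absurd (Finset.mem_univ i) h
    refine ⟨b, fun g i j hij => ?_⟩
    induction j using Fin.cases with
    | zero =>
      have hi : i = 0 := Fin.le_zero_iff.1 hij
      subst hi
      rw [if_pos rfl, hb0]
      have hm : ρ g y - y ∈ N := by
        rw [hN, LinearMap.mem_ker, map_sub, hinv, sub_self]
      have h1 := (hrepr ⟨_, hm⟩).1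
      simp only [map_sub, Finsupp.sub_apply] at h1
      have h2 : b.repr y 0 = 1 := by rw [← hb0, Module.Basis.repr_self]; simp
      rw [h2] at h1
      exact sub_eq_zero.1 h1
    | succ j =>
      have hm : ρ g (b j.succ) = ((ρN g (bN j) : N) : V) := by
        rw [hbs]
        rfl
      rw [hm]
      induction i using Fin.cases with
      | zero =>
        rw [(hrepr _).1, if_neg (Fin.succ_ne_zero j).symm]
      | succ i =>
        rw [(hrepr _).2, hbN g i j (Fin.succ_le_succ_iff.1 hij)]
        simp only [Fin.succ_inj]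

end basis

/-- A family of unitriangular representations. -/
structure RepD (G : Type) [Group G] where
  p : ℕ
  hp : p.Prime
  r : ℕ
  rho : G → ℕ → ℕ → ZMod p
  ut : UT r rho

theorem exists_rep_pgroup {p : ℕ} [hp : Fact p.Prime] {P : Type} [Group P] [Finite P]
    (hP : IsPGroup p P) : ∃ D : RepD P, ∀ g h : P,
      (∀ a < D.r, ∀ b < a, D.rho g a b = D.rho h a b) → g = h := by
  classical
  haveI := Fintype.ofFinite P
  let ρ : P →* Module.End (ZMod p) (P → ZMod p) :=
    { toFun := fun g =>
        { toFun := fun f x => f (x * g)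
          map_add' := fun _ _ => rfl
          map_smul' := fun _ _ => rfl }
      map_one' := by
        ext f x
        simp
      map_mul' := by
        intro g h
        refine LinearMap.ext fun f => funext fun x => ?_
        change f (x * (g * h)) = f (x * g * h)
        rw [mul_assoc] }
  obtain ⟨r, hr⟩ : ∃ r, Module.finrank (ZMod p) (P → ZMod p) = r := ⟨_, rfl⟩
  obtain ⟨b, hb⟩ := exists_basis hP r hr ρ
  let rho : P → ℕ → ℕ → ZMod p := fun g a c =>
    if h : a < r ∧ c < r then LinearMap.toMatrix b b (ρ g) ⟨a, h.1⟩ ⟨c, h.2⟩ else 0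
  have hrho : ∀ g a c (ha : a < r) (hc : c < r),
      rho g a c = LinearMap.toMatrix b b (ρ g) ⟨a, ha⟩ ⟨c, hc⟩ := by
    intro g a c ha hc
    exact dif_pos ⟨ha, hc⟩
  have hle : ∀ g a c (ha : a < r) (hc : c < r), a ≤ c → rho g a c = if a = c then 1 else 0 := by
    intro g a c ha hc hac
    rw [hrho g a c ha hc, LinearMap.toMatrix_apply, hb g ⟨a, ha⟩ ⟨c, hc⟩ hac]
    simp only [Fin.mk.injEq]
  have hut : UT r rho := by
    refine ⟨?_, ?_, ?_, ?_⟩
    · intro g h a c ha hc
      rw [hrho _ _ _ ha hc, map_mul, LinearMap.toMatrix_mul, Matrix.mul_apply,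
        Finset.sum_range]
      refine Finset.sum_congr rfl fun i _ => ?_
      rw [hrho g a i ha i.2, hrho h i c i.2 hc]
    · intro a c ha hc
      rw [hrho _ _ _ ha hc, map_one, Module.End.one_eq_id, LinearMap.toMatrix_id, Matrix.one_apply]
      simp only [Fin.mk.injEq]
    · intro g a c hac hc
      rw [hle g a c (by omega) hc hac.le, if_neg (by omega)]
    · intro g a ha
      rw [hle g a a ha ha le_rfl, if_pos rfl]
  refine ⟨⟨p, hp.out, r, rho, hut⟩, fun g h hgh => ?_⟩
  have h1 : LinearMap.toMatrix b b (ρ g) = LinearMap.toMatrix b b (ρ h) := by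
    ext i j
    rw [← hrho g i j i.2 j.2, ← hrho h i j i.2 j.2]
    rcases Nat.lt_or_ge (j : ℕ) i with hlt | hge
    · exact hgh i i.2 j hlt
    · rw [hle g i j i.2 j.2 hge, hle h i j i.2 j.2 hge]
  have h2 : ρ g = ρ h := (LinearMap.toMatrix b b).injective h1
  have h3 := congrFun (LinearMap.congr_fun h2 (Pi.single g 1)) 1
  change (Pi.single g 1 : P → ZMod p) (1 * g) = (Pi.single g 1 : P → ZMod p) (1 * h) at h3
  rw [one_mul, one_mul, Pi.single_eq_same] at h3
  by_contra hne
  rw [Pi.single_eq_of_ne (Ne.symm hne)] at h3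
  exact one_ne_zero h3

theorem exists_reps {G : Type} [Group G] [Finite G] (hG : Group.IsNilpotent G) :
    ∃ L : List (RepD G), ∀ g h : G,
      (∀ D ∈ L, ∀ a < D.r, ∀ b < a, D.rho g a b = D.rho h a b) → g = h := by
  classical
  obtain ⟨e⟩ := ((Group.isNilpotent_of_finite_tfae (G := G)).out 0 4).1 hG
  let ι := Σ q : (Nat.card G).primeFactors, Sylow (q : ℕ) G
  haveI : Finite ι := inferInstance
  haveI := Fintype.ofFinite ι
  have hD : ∀ i : ι, ∃ D : RepD G, ∀ g h : G,
      (∀ a < D.r, ∀ b < a, D.rho g a b = D.rho h a b) → e.symm g i.1 i.2 = e.symm h i.1 i.2 := by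
    rintro ⟨q, Q⟩
    haveI : Fact (q : ℕ).Prime := ⟨Nat.prime_of_mem_primeFactors q.2⟩
    obtain ⟨D, hD⟩ := exists_rep_pgroup (Q.isPGroup')
    refine ⟨⟨D.p, D.hp, D.r, fun g => D.rho (e.symm g q Q), ?_⟩, fun g h hgh => hD _ _ hgh⟩
    refine ⟨?_, ?_, ?_, ?_⟩
    · intro g h a b ha hb
      have := D.ut.mul (e.symm g q Q) (e.symm h q Q) a b ha hb
      rw [← this, map_mul]
      rfl
    · intro a b ha hb
      rw [← D.ut.one a b ha hb, map_one]
      rfl
    · intro g a b hab hb
      exact D.ut.tri _ a b hab hb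
    · intro g a ha
      exact D.ut.diag _ a ha
  choose D hD using hD
  refine ⟨(Finset.univ : Finset ι).toList.map D, fun g h hgh => ?_⟩
  have : e.symm g = e.symm h := by
    funext q Q
    refine hD ⟨q, Q⟩ g h (hgh _ (List.mem_map.2 ⟨⟨q, Q⟩, by simp, rfl⟩))
  exact e.symm.injective this

end Pool.Agent.W995.PN
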