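import Pool.Agent.W995.PN.Alg3
import Pool.Agent.W995.PN.Rep
import Pool.Agent.W995.PN.PSp

/-!
# Prediction for networks over nilpotent groups: the algorithm and its correctness
-/

namespace Pool.Agent.W995.PN

open Pool.Agent.NPC Polynomial

variable {G : Type} [Group G] [Fintype G] (e : Fin (Fintype.card G) ≃ G)

/-- The number of cells in use. -/
def nn (I : Inst) : ℕ := I.1.length + I.2.1.length

/-- The cell for a letter. -/
def lc (n : ℕ) (l : Bool × ℕ) : ℕ :=
  bif l.1 then n + nrm e l.2 else if l.2 < n then l.2 else n + code e 1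

/-- The network without constants. -/
def WW (n : ℕ) (W : List (List (Bool × ℕ))) : List (List ℕ) :=
  (List.range (n + Fintype.card G)).map fun i => if i < n then (W.getD i []).map (lc e n) else [i]

/-- The number of the content of a cell of the network without constants. -/
def cX (n : ℕ) (s : List ℕ) (j : ℕ) : ℕ := if j < n then s.getD j (code e 1) else j - n

/-- The state of the network without constants. -/
def Xof (n : ℕ) (x : ℕ → G) (i : ℕ) : G := if i < n then x i else el e (i - n)

theorem el_cX (n : ℕ) (s : List ℕ) (j : ℕ) : el e (cX e n s j) = Xof e n (start e s) j := by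
  unfold cX Xof
  split_ifs
  · rw [← sem_eq_start]; rfl
  · rfl

theorem lc_lt (n : ℕ) (l : Bool × ℕ) : lc e n l < n + Fintype.card G := by
  obtain ⟨b, c⟩ := l
  have h1 := nrm_lt e c
  have h2 := code_lt e 1
  cases b
  · simp only [lc, cond_false]
    split_ifs <;> omega
  · simp only [lc, cond_true]
    omega

theorem WW_lt (n : ℕ) (W : List (List (Bool × ℕ))) :
    ∀ w ∈ WW e n W, ∀ j ∈ w, j < n + Fintype.card G := by
  intro w hw j hj
  unfold WW at hw
  rw [List.mem_map] at hw
  obtain ⟨i, hi, rfl⟩ := hw
  rw [List.mem_range] at hi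
  split_ifs at hj with h
  · rw [List.mem_map] at hj
    obtain ⟨l, _, rfl⟩ := hj
    exact lc_lt e n l
  · rw [List.mem_singleton] at hj
    omega

theorem Xof_lc (n : ℕ) {x : ℕ → G} (hx : ∀ i, n ≤ i → x i = 1) (l : Bool × ℕ) :
    Xof e n x (lc e n l) = letter e x l := by
  obtain ⟨b, c⟩ := l
  unfold Xof lc letter
  cases b
  · simp only [cond_false]
    by_cases h : c < n
    · rw [if_pos h, if_pos h]
    · rw [if_neg h, if_neg (by omega), Nat.add_sub_cancel_left, el_code, hx c (by omega)]
  · simp only [cond_true]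
    rw [if_neg (by omega), Nat.add_sub_cancel_left, el_nrm]

theorem stepW_Xof (n : ℕ) (W : List (List (Bool × ℕ))) {x : ℕ → G}
    (hx : ∀ i, n ≤ i → x i = 1) : stepW (WW e n W) (Xof e n x) = Xof e n (step e W x) := by
  funext i
  unfold stepW WW
  by_cases h1 : i < n + Fintype.card G
  · rw [getD_map_range _ h1]
    by_cases h2 : i < n
    · rw [if_pos h2, List.map_map]
      conv_rhs => rw [Xof, if_pos h2]
      unfold step
      congr 1
      exact List.map_congr_left fun l _ => Xof_lc e n hx l
    · rw [if_neg h2, List.map_singleton, List.prod_singleton]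
      unfold Xof
      rw [if_neg h2, if_neg h2]
  · rw [List.getD_eq_default _ _ (by simp; omega), List.map_nil, List.prod_nil]
    unfold Xof el
    rw [if_neg (by omega), dif_neg (by omega)]

theorem step_eq_one (n : ℕ) (W : List (List (Bool × ℕ))) (hn : W.length ≤ n) (x : ℕ → G) :
    ∀ i, n ≤ i → step e W x i = 1 := by
  intro i hi
  unfold step
  rw [List.getD_eq_default _ _ (by omega)]
  simp

theorem iter_Xof (n : ℕ) (W : List (List (Bool × ℕ))) (hn : W.length ≤ n) (T : ℕ) :
    ∀ {x : ℕ → G}, (∀ i, n ≤ i → x i = 1) →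
    (stepW (WW e n W))^[T] (Xof e n x) = Xof e n ((step e W)^[T] x) := by
  induction T with
  | zero => intro x _; rfl
  | succ T ih =>
    intro x hx
    rw [Function.iterate_succ_apply, Function.iterate_succ_apply, stepW_Xof e n W hx,
      ih (step_eq_one e n W hn x)]

theorem iter_eq_one (n : ℕ) (W : List (List (Bool × ℕ))) (hn : W.length ≤ n) (T : ℕ) {x : ℕ → G}
    (hx : ∀ i, n ≤ i → x i = 1) : ∀ i, n ≤ i → (step e W)^[T] x i = 1 := by
  cases T with
  | zero => exact hx
  | succ T =>
    rw [Function.iterate_succ_apply']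
    exact step_eq_one e n W hn _

theorem start_eq_one (n : ℕ) (s : List ℕ) (hn : s.length ≤ n) : ∀ i, n ≤ i → start e s i = 1 := by
  intro i hi
  unfold start
  rw [List.getD_eq_default _ _ (by simp; omega)]

/-- The table of the entries of a representation. -/
noncomputable def tab (D : RepD G) : List (List (List ℕ)) :=
  (List.range (Fintype.card G)).map fun c => (List.range D.r).map fun a =>
    (List.range D.r).map fun b => (D.rho (el e c) a b).val

/-- The entries of a representation. -/
noncomputable def TV (D : RepD G) (c a b : ℕ) : ℕ :=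
  (((tab e D).getD (nrm e c) []).getD a []).getD b 0

theorem TV_eq (D : RepD G) (c : ℕ) {a b : ℕ} (ha : a < D.r) (hb : b < D.r) :
    TV e D c a b = (D.rho (el e c) a b).val := by
  unfold TV tab
  rw [getD_map_range _ (nrm_lt e c), getD_map_range _ ha, getD_map_range _ hb, el_nrm]

/-- The value of a monomial. -/
noncomputable def monV (D : RepD G) (n : ℕ) (s : List ℕ) (μ : Mn) : ℕ :=
  μ.foldr (fun v acc => TV e D (cX e n s v.1) v.2.1 v.2.2 * acc % D.p) 1

/-- The entry of the representation on the content of the cell `i` at time `T`. -/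
noncomputable def num (D : RepD G) (n : ℕ) (s : List ℕ) (ms : List Mn) (M : List (List ℕ))
    (i a b : ℕ) : ℕ :=
  ((ms.map fun μ => if wtM μ = a - b then
    lk 0 ms (lk [] ms M [(i, a, b)]) μ * monV e D n s μ else 0).sum) % D.p

/-- The matrix of the network, to the power `T`. -/
noncomputable def matT (D : RepD G) (I : Inst) (ms : List Mn) : List (List ℕ) :=
  powM D.p ms (Kmat D.p D.r ms (WW e (nn I) I.1)) I.2.2.1.bits

/-- The monomials. -/
def msI (D : RepD G) (I : Inst) : List Mn := mons D.r (nn I + Fintype.card G)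

/-- The test for one representation. -/
noncomputable def decD (D : RepD G) (I : Inst) : Bool :=
  (List.range D.r).all fun a => (List.range D.r).all fun b => !(decide (b < a)) ||
    decide (num e D (nn I) I.2.1 (msI D I) (matT e D I (msI D I)) I.2.2.2.1 a b =
      TV e D I.2.2.2.2 a b)

/-- The test for a list of representations. -/
noncomputable def decL : List (RepD G) → Inst → Bool
  | [], _ => true
  | D :: L, I => decD e D I && decL L I

/-- The decision algorithm. -/
noncomputable def dec (L : List (RepD G)) (I : Inst) : Bool :=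
  if I.2.2.2.1 < nn I then decL e L I else decide (nrm e I.2.2.2.2 = code e 1)

theorem monV_eq (D : RepD G) (n : ℕ) (s : List ℕ) {m : ℕ} {μ : Mn}
    (hμ : ∀ v ∈ μ, v ∈ varsL D.r m) :
    ((monV e D n s μ : ℕ) : ZMod D.p) = val0 D.rho (Xof e n (start e s)) μ := by
  haveI : NeZero D.p := ⟨D.hp.ne_zero⟩
  induction μ with
  | nil => simp [monV, val0]
  | cons v μ ih =>
    have h1 := ih fun w hw => hμ w (by simp [hw])
    have hv := mem_varsL.1 (hμ v (by simp))
    unfold monV val0 at h1 ⊢
    rw [List.foldr_cons, List.map_cons, List.prod_cons, ← h1, ZMod.natCast_mod, Nat.cast_mul,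
      TV_eq e D _ hv.2.2 (by omega), ZMod.natCast_zmod_val, el_cX]

theorem valb_eq (bs : List Bool) : valb bs = valB bs := by
  induction bs with
  | nil => rfl
  | cons b bs ih => cases b <;> simp [valb, ih]

theorem num_eq (D : RepD G) (I : Inst) {i a b : ℕ} (hi : i < nn I) (ha : a < D.r) (hb : b < a) :
    ((num e D (nn I) I.2.1 (msI D I) (matT e D I (msI D I)) i a b : ℕ) : ZMod D.p) =
      D.rho ((step e I.1)^[I.2.2.1] (start e I.2.1) i) a b := by
  have hW1 : I.1.length ≤ nn I := by unfold nn; omega
  have hW2 : I.2.1.length ≤ nn I := by unfold nn; omega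
  set n := nn I with hn
  have hmem : ([(i, a, b)] : Mn) ∈ mons D.r (n + Fintype.card G) := by
    rw [mem_mons]
    refine ⟨?_, by simp [wtM]; omega⟩
    intro v hv
    rw [List.mem_singleton] at hv
    subst hv
    exact mem_varsL.2 ⟨by simp only; omega, hb, ha⟩
  have hdesc := desc_pow D.rho ((TRmk D.p D.r).comp C) (TRmk D.p D.r X)
    (desc_Kmat D.rho ((TRmk D.p D.r).comp C) (TRmk D.p D.r X) D.ut (eps_pow D.p D.r)
      (WW_lt e n I.1)) I.2.2.1.bits (Xof e n (start e I.2.1)) _ hmem
  rw [valb_eq, valB_bits, iter_Xof e n I.1 hW1 _ (start_eq_one e n _ hW2)] at hdesc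
  have hex := extract D.rho (v := (i, a, b)) (by simp only; omega) hdesc
  have h3 : Xof e n ((step e I.1)^[I.2.2.1] (start e I.2.1)) i =
      (step e I.1)^[I.2.2.1] (start e I.2.1) i := by
    unfold Xof; rw [if_pos hi]
  simp only [h3] at hex
  rw [← hex]
  unfold num semK
  have hms : msI D I = mons D.r (n + Fintype.card G) := rfl
  have hmt : matT e D I (mons D.r (n + Fintype.card G)) =
      powM D.p (mons D.r (n + Fintype.card G))
        (Kmat D.p D.r (mons D.r (n + Fintype.card G)) (WW e n I.1)) I.2.2.1.bits := rfl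
  rw [ZMod.natCast_mod, Nat.cast_list_sum, List.map_map, hms, hmt]
  congr 1
  refine List.map_congr_left fun μ hμ => ?_
  rw [Function.comp_apply]
  by_cases h : wtM μ = a - b
  · rw [if_pos h, if_pos h, Nat.cast_mul, monV_eq e D n I.2.1 (mem_mons.1 hμ).1]
  · rw [if_neg h, if_neg h, Nat.cast_zero]

theorem decD_iff (D : RepD G) (I : Inst) (hi : I.2.2.2.1 < nn I) : decD e D I = true ↔
    ∀ a < D.r, ∀ b < a, D.rho ((step e I.1)^[I.2.2.1] (start e I.2.1) I.2.2.2.1) a b =
      D.rho (el e I.2.2.2.2) a b := by
  haveI : NeZero D.p := ⟨D.hp.ne_zero⟩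
  have key : ∀ a < D.r, ∀ b < a, (num e D (nn I) I.2.1 (msI D I) (matT e D I (msI D I))
      I.2.2.2.1 a b = TV e D I.2.2.2.2 a b ↔
      D.rho ((step e I.1)^[I.2.2.1] (start e I.2.1) I.2.2.2.1) a b =
      D.rho (el e I.2.2.2.2) a b) := by
    intro a ha b hb
    rw [← num_eq e D I hi ha hb, TV_eq e D _ ha (by omega)]
    constructor
    · intro h
      rw [h, ZMod.natCast_zmod_val]
    · intro h
      rw [← h, ZMod.val_natCast]
      unfold num
      rw [Nat.mod_mod]
  unfold decD
  rw [List.all_eq_true]
  constructor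
  · intro h a ha b hb
    have h1 := h a (List.mem_range.2 ha)
    rw [List.all_eq_true] at h1
    have h2 := h1 b (List.mem_range.2 (by omega))
    simp only [hb, decide_true, Bool.not_true, Bool.false_or, decide_eq_true_eq] at h2
    exact (key a ha b hb).1 h2
  · intro h a ha
    rw [List.mem_range] at ha
    rw [List.all_eq_true]
    intro b _
    by_cases hb : b < a
    · simp only [hb, decide_true, Bool.not_true, Bool.false_or, decide_eq_true_eq]
      exact (key a ha b hb).2 (h a ha b hb)
    · simp [hb]

theorem decL_iff (I : Inst) (hi : I.2.2.2.1 < nn I) : ∀ L : List (RepD G), (decL e L I = true ↔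
    ∀ D ∈ L, ∀ a < D.r, ∀ b < a,
      D.rho ((step e I.1)^[I.2.2.1] (start e I.2.1) I.2.2.2.1) a b = D.rho (el e I.2.2.2.2) a b)
  | [] => by simp [decL]
  | D :: L => by
    unfold decL
    rw [Bool.and_eq_true, decL_iff I hi L, decD_iff e D I hi, List.forall_mem_cons]

theorem dec_iff {L : List (RepD G)} (hL : ∀ g h : G,
    (∀ D ∈ L, ∀ a < D.r, ∀ b < a, D.rho g a b = D.rho h a b) → g = h) (I : Inst) :
    PRED e I ↔ dec e L I = true := by
  unfold dec PRED
  split_ifs with hi
  · rw [decL_iff e I hi]
    constructor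
    · intro h D _ a _ b _
      rw [h]
    · intro h
      exact hL _ _ h
  · rw [iter_eq_one e (nn I) I.1 (by unfold nn; omega) _
      (start_eq_one e _ _ (by unfold nn; omega)) _ (by omega), decide_eq_true_eq]
    have h1 : code e 1 = nrm e (code e 1) := by
      unfold nrm
      rw [if_pos (code_lt e 1)]
    rw [h1, nrm_eq_iff, el_code]
    exact eq_comm

end Pool.Agent.W995.PN
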