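import Pool.Agent.H623R2.PS.Quant

/-!
# Evaluating quantifiers by a scan through the digits of a clock

The clock shows the digits of the time in a mixed radix. At level `i` the digit `0` stands for the
left subtree, `2` for the right subtree, `1` and `3` for the moments after the left and the right
subtree; all larger digits are idle. The state is `none` (active), `some (v, none)` (the subtree
which has just been finished has the value `v`), or `some (v, some i)` (the node at level `i` is
known to have the value `v`; wait until it is finished).
-/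

namespace Pool.Agent.W995.PN

open Pool.Agent.H623R2.PS

/-- The states. -/
abbrev Mode := Option (Bool × Option ℕ)

/-- The operation after the left subtree of a node at level `i` with quantifier `q`. -/
def midOp (q : Bool) (i : ℕ) (s : Mode) : Mode :=
  match s with
  | some (v, none) => if q = v then none else some (v, some i)
  | s => s

/-- The operation after the right subtree of a node at level `i`. -/
def closeOp (i : ℕ) (s : Mode) : Mode :=
  match s with
  | some (v, some j) => if i = j then some (v, none) else some (v, some j)
  | s => s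

/-- The action at the time with the digits `ds`. -/
def stepD : List Bool → (List Bool → Bool) → List ℕ → ℕ → Mode → Mode
  | [], φ, _, _, s => if s = none then some (φ [], none) else s
  | q :: qs, φ, ds, i, s =>
    if ds.headD 0 = 1 then midOp q i s else if ds.headD 0 = 3 then closeOp i s
    else stepD qs (fun v => φ ((ds.headD 0 == 2) :: v)) ds.tail (i + 1) s

/-- The digits of the time. -/
def dig : List ℕ → ℕ → List ℕ
  | [], _ => []
  | _ :: ps, t => t / ps.prod :: dig ps (t % ps.prod)

/-- The action at the time `t`. -/
def act (qs : List Bool) (φ : List Bool → Bool) (ps : List ℕ) (i : ℕ) (s : Mode) (t : ℕ) : Mode :=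
  if ∀ d ∈ dig ps t, d ≤ 3 then stepD qs φ (dig ps t) i s else s

/-- The run through all times. -/
def runD (qs : List Bool) (φ : List Bool → Bool) (ps : List ℕ) (i : ℕ) (s : Mode) : Mode :=
  (List.range ps.prod).foldl (act qs φ ps i) s

theorem foldl_range_mul {σ : Type*} (f : σ → ℕ → σ) (p M : ℕ) (s : σ) :
    (List.range (p * M)).foldl f s =
      (List.range p).foldl (fun s d => (List.range M).foldl (fun s t => f s (d * M + t)) s) s := by
  induction p with
  | zero => simp
  | succ p ih =>
    rw [Nat.succ_mul, List.range_add, List.foldl_append, ih, List.range_succ, List.foldl_append,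
      List.foldl_map]
    rfl

theorem midOp_idem (q : Bool) (i : ℕ) (s : Mode) : midOp q i (midOp q i s) = midOp q i s := by
  rcases s with _ | ⟨v, _ | j⟩
  · rfl
  · simp only [midOp]
    split_ifs <;> rfl
  · rfl

theorem closeOp_idem (i : ℕ) (s : Mode) : closeOp i (closeOp i s) = closeOp i s := by
  rcases s with _ | ⟨v, _ | j⟩
  · rfl
  · rfl
  · simp only [closeOp]
    split_ifs with h
    · rfl
    · simp [h]

theorem foldl_idem {σ τ : Type*} {f : σ → σ} (hf : ∀ s, f (f s) = f s) (P : τ → Prop)
    [DecidablePred P] (l : List τ) (h : ∃ t ∈ l, P t) (s : σ) :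
    l.foldl (fun s t => if P t then f s else s) s = f s := by
  have key : ∀ (l : List τ) (s : σ), l.foldl (fun s t => if P t then f s else s) (f s) = f s := by
    intro l
    induction l with
    | nil => intro s; rfl
    | cons t l ih =>
      intro s
      rw [List.foldl_cons]
      split_ifs
      · rw [hf, ih]
      · rw [ih]
  induction l generalizing s with
  | nil => simp at h
  | cons t l ih =>
    rw [List.foldl_cons]
    by_cases ht : P t
    · rw [if_pos ht, key]
    · rw [if_neg ht]
      apply ih
      obtain ⟨u, hu, hPu⟩ := h
      rw [List.mem_cons] at hu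
      rcases hu with rfl | hu
      · exact absurd hPu ht
      · exact ⟨u, hu, hPu⟩

theorem foldl_id {σ τ : Type*} {f : σ → τ → σ} (l : List τ) (h : ∀ s, ∀ t ∈ l, f s t = s) (s : σ) :
    l.foldl f s = s := by
  induction l generalizing s with
  | nil => rfl
  | cons t l ih =>
    rw [List.foldl_cons, h s t (by simp)]
    exact ih (fun s t ht => h s t (List.mem_cons_of_mem _ ht)) s

theorem foldl_congr' {σ τ : Type*} {f g : σ → τ → σ} (l : List τ)
    (h : ∀ s, ∀ t ∈ l, f s t = g s t) (s : σ) : l.foldl f s = l.foldl g s := by
  induction l generalizing s with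
  | nil => rfl
  | cons t l ih =>
    rw [List.foldl_cons, List.foldl_cons, h s t (by simp)]
    exact ih (fun s t ht => h s t (List.mem_cons_of_mem _ ht)) _

theorem dig_zero : ∀ ps : List ℕ, ∀ d ∈ dig ps 0, d ≤ 3
  | [], d, h => by simp [dig] at h
  | p :: ps, d, h => by
    rw [dig, List.mem_cons] at h
    rcases h with rfl | h
    · simp
    · rw [Nat.zero_mod] at h
      exact dig_zero ps d h

theorem range_split {p : ℕ} (hp : 4 ≤ p) : List.range p = [0, 1, 2, 3] ++
    (List.range (p - 4)).map (fun x => 4 + x) := by
  obtain ⟨k, rfl⟩ := Nat.exists_eq_add_of_le hp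
  rw [List.range_add]
  simp [List.range_succ]

theorem runD_spec : ∀ (ps : List ℕ) (qs : List Bool) (φ : List Bool → Bool) (i : ℕ),
    ps.length = qs.length → (∀ p ∈ ps, 4 ≤ p) →
    runD qs φ ps i none = some (evq qs φ, none) ∧
      ∀ v j, j < i → runD qs φ ps i (some (v, some j)) = some (v, some j)
  | [], [], φ, i, _, _ => by
    refine ⟨?_, fun v j _ => ?_⟩ <;> simp [runD, act, dig, stepD, evq]
  | [], q :: qs, φ, i, h, _ => by simp at h
  | p :: ps, [], φ, i, h, _ => by simp at h
  | p :: ps, q :: qs, φ, i, h, hp => by
    have hlen : ps.length = qs.length := by simpa using h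
    have hp4 : 4 ≤ p := hp p (by simp)
    have hps : ∀ p ∈ ps, 4 ≤ p := fun p hp' => hp p (by simp [hp'])
    have hM : 0 < ps.prod := List.prod_pos fun p hp' => by have := hps p hp'; omega
    set M := ps.prod with hMdef
    -- the runs of the blocks
    have hdig : ∀ d t, t < M → dig (p :: ps) (d * M + t) = d :: dig ps t := by
      intro d t ht
      rw [dig, ← hMdef]
      congr 1
      · rw [Nat.mul_comm, Nat.mul_add_div hM, Nat.div_eq_of_lt ht, Nat.add_zero]
      · rw [Nat.mul_comm, Nat.mul_add_mod, Nat.mod_eq_of_lt ht]
    have hblk : ∀ d s, (List.range M).foldl (fun s t => act (q :: qs) φ (p :: ps) i s (d * M + t)) s =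
        (List.range M).foldl (fun s t => if d ≤ 3 ∧ ∀ d ∈ dig ps t, d ≤ 3 then
          (if d = 1 then midOp q i s else if d = 3 then closeOp i s
            else stepD qs (fun v => φ ((d == 2) :: v)) (dig ps t) (i + 1) s) else s) s := by
      intro d s
      refine foldl_congr' _ (fun s t ht => ?_) s
      rw [List.mem_range] at ht
      unfold act
      rw [hdig d t ht]
      refine if_congr ?_ rfl rfl
      simp only [List.mem_cons, forall_eq_or_imp]
    have h0 : ∀ s, (List.range M).foldl (fun s t => act (q :: qs) φ (p :: ps) i s (0 * M + t)) s =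
        runD qs (fun v => φ (false :: v)) ps (i + 1) s := by
      intro s
      rw [hblk, runD]
      refine foldl_congr' _ (fun s t _ => ?_) s
      simp [act]
    have h2 : ∀ s, (List.range M).foldl (fun s t => act (q :: qs) φ (p :: ps) i s (2 * M + t)) s =
        runD qs (fun v => φ (true :: v)) ps (i + 1) s := by
      intro s
      rw [hblk, runD]
      refine foldl_congr' _ (fun s t _ => ?_) s
      simp [act]
    have hex : ∃ t ∈ List.range M, ∀ d ∈ dig ps t, d ≤ 3 := ⟨0, List.mem_range.2 hM, dig_zero ps⟩
    have h1 : ∀ s, (List.range M).foldl (fun s t => act (q :: qs) φ (p :: ps) i s (1 * M + t)) s =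
        midOp q i s := by
      intro s
      rw [hblk]
      rw [← foldl_idem (midOp_idem q i) (fun t => ∀ d ∈ dig ps t, d ≤ 3) _ hex s]
      refine foldl_congr' _ (fun s t _ => ?_) s
      simp
    have h3 : ∀ s, (List.range M).foldl (fun s t => act (q :: qs) φ (p :: ps) i s (3 * M + t)) s =
        closeOp i s := by
      intro s
      rw [hblk]
      rw [← foldl_idem (closeOp_idem i) (fun t => ∀ d ∈ dig ps t, d ≤ 3) _ hex s]
      refine foldl_congr' _ (fun s t _ => ?_) s
      simp
    have hbig : ∀ d s, 4 ≤ d →
        (List.range M).foldl (fun s t => act (q :: qs) φ (p :: ps) i s (d * M + t)) s = s := by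
      intro d s hd
      rw [hblk]
      refine foldl_id _ (fun s t _ => ?_) s
      have : ¬ d ≤ 3 := by omega
      simp [this]
    have hrun : ∀ s, runD (q :: qs) φ (p :: ps) i s = closeOp i (runD qs (fun v => φ (true :: v)) ps
        (i + 1) (midOp q i (runD qs (fun v => φ (false :: v)) ps (i + 1) s))) := by
      intro s
      rw [runD, List.prod_cons, ← hMdef, foldl_range_mul, range_split hp4, List.foldl_append]
      simp only [List.foldl_cons, List.foldl_nil]
      rw [h0, h1, h2, h3, List.foldl_map]
      refine foldl_id _ (fun s t _ => ?_) _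
      exact hbig (4 + t) s (by omega)
    have ih0 := runD_spec ps qs (fun v => φ (false :: v)) (i + 1) hlen hps
    have ih1 := runD_spec ps qs (fun v => φ (true :: v)) (i + 1) hlen hps
    refine ⟨?_, fun v j hj => ?_⟩
    · rw [hrun, ih0.1]
      simp only [midOp]
      by_cases hv : q = evq qs (fun v => φ (false :: v))
      · rw [if_pos hv, ih1.1]
        simp only [closeOp, evq]
        cases q <;> rw [← hv] <;> simp
      · rw [if_neg hv, ih1.2 _ _ (Nat.lt_succ_self i)]
        simp only [closeOp, if_true, evq]
        cases q <;> cases hh : evq qs (fun v => φ (false :: v)) <;> simp_all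
    · rw [hrun, ih0.2 v j (by omega)]
      simp only [midOp]
      rw [ih1.2 v j (by omega)]
      have : i ≠ j := by omega
      simp [closeOp, this]

end Pool.Agent.W995.PN
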