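import Pool.Agent.W995.PN.Auto
import Pool.Agent.W995.PN.Clock
import Pool.Agent.W995.PN.Scan
import Pool.Agent.H656R2.AK.QG

/-!
# The program of queries which evaluates a quantified formula
-/

namespace Pool.Agent.W995.PN

open Pool.Agent.NPC Pool.Agent.H623R2.PS Pool.Agent.H656R2.AK

/-! ### Digits -/

/-- The digits of the residue of a number. -/
def digm : List ℕ → ℕ → List ℕ
  | [], _ => []
  | p :: ps, t => t % (p :: ps).prod / ps.prod :: digm ps t

/-- The digits computed from the residues. -/
def est (B P m : ℕ) : List ℕ → ℕ → List ℕ
  | [], _ => []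
  | p :: ps, t => digq B m p ((p :: ps).map fun q => wq B P (p :: ps) q (t % q)).sum ::
      est B P m ps t

theorem dig_mod_eq : ∀ (ps : List ℕ) (t : ℕ), dig ps (t % ps.prod) = digm ps t
  | [], _ => rfl
  | p :: ps, t => by
    rw [dig, digm]
    congr 1
    rw [Nat.mod_mod_of_dvd _ (by rw [List.prod_cons]; exact Dvd.intro_left p rfl)]
    exact dig_mod_eq ps t

theorem est_eq {B P m : ℕ} (hB : 5 * m * P < B) : ∀ (ps : List ℕ) (t : ℕ),
    ps.Pairwise Nat.Coprime → (∀ q ∈ ps, 5 ≤ q) → (∀ q ∈ ps, q ≤ P) → ps.length ≤ m →
    ((∀ d ∈ est B P m ps t, d ≤ 3) ∨ ∀ d ∈ digm ps t, d ≤ 3) → est B P m ps t = digm ps t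
  | [], _, _, _, _, _, _ => rfl
  | p :: ps, t, hc, h5, hP, hm, h => by
    have hrest : est B P m ps t = digm ps t := by
      refine est_eq hB ps t hc.of_cons (fun q hq => h5 q (by simp [hq]))
        (fun q hq => hP q (by simp [hq])) (by simp at hm; omega) ?_
      rcases h with h | h
      · exact Or.inl fun d hd => h d (by rw [est]; simp [hd])
      · exact Or.inr fun d hd => h d (by rw [digm]; simp [hd])
    rw [est, digm, hrest]
    congr 1
    refine digit_correct hc (fun q hq => by have := h5 q hq; omega) hP hm hB t ?_
    cases ps with
    | nil => simp [Nat.mod_one]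
    | cons p' ps' =>
      have h1 : t % (p' :: ps').prod / ps'.prod ≤ 3 := by
        rcases h with h | h
        · apply h
          rw [est, hrest, digm]
          simp
        · apply h
          rw [digm, digm]
          simp
      have hpos : 0 < ps'.prod := List.prod_pos fun q hq => by
        have := h5 q (by simp [hq]); omega
      have h2 : t % (p' :: ps').prod < 4 * ps'.prod := by
        have := (Nat.div_lt_iff_lt_mul hpos).1 (Nat.lt_succ_of_le h1)
        simpa using this
      have h3 : 5 ≤ p' := h5 p' (by simp)
      have h4 : 5 * ps'.prod ≤ (p' :: ps').prod := by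
        rw [List.prod_cons]; exact Nat.mul_le_mul_right _ h3
      omega

theorem digm_length : ∀ (ps : List ℕ) (t : ℕ), (digm ps t).length = ps.length
  | [], _ => rfl
  | p :: ps, t => by rw [digm, List.length_cons, List.length_cons, digm_length ps t]

theorem est_length (B P m : ℕ) : ∀ (ps : List ℕ) (t : ℕ), (est B P m ps t).length = ps.length
  | [], _ => rfl
  | p :: ps, t => by rw [est, List.length_cons, List.length_cons, est_length B P m ps t]

/-- The weight of the answer yes to the question for the residue `a` at the register `k`, when the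
digit `i` is computed. -/
def wti (B P : ℕ) (ps : List ℕ) (i k a : ℕ) : ℕ :=
  if i ≤ k ∧ a < ps.getD k 1 then wq B P (ps.drop i) (ps.getD k 1) a else 0

theorem sum_drop (f : ℕ → ℕ) : ∀ (ps : List ℕ) (i : ℕ),
    (∑ k ∈ Finset.range ps.length, if i ≤ k then f (ps.getD k 1) else 0) =
      ((ps.drop i).map f).sum
  | [], i => by simp
  | p :: ps, 0 => by
    have ih := sum_drop f ps 0
    simp only [Nat.zero_le, if_true, List.drop_zero] at ih ⊢
    rw [List.length_cons, Finset.sum_range_succ', List.map_cons, List.sum_cons, ← ih, add_comm]
    rfl
  | p :: ps, i + 1 => by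
    have ih := sum_drop f ps i
    rw [List.length_cons, Finset.sum_range_succ', List.drop_succ_cons, ← ih]
    simp

theorem sum_wti {B P : ℕ} {ps : List ℕ} (hpos : ∀ q ∈ ps, 0 < q) (i t : ℕ) :
    (∑ k ∈ Finset.range ps.length, wti B P ps i k (t % ps.getD k 1)) =
      ((ps.drop i).map fun q => wq B P (ps.drop i) q (t % q)).sum := by
  rw [← sum_drop]
  refine Finset.sum_congr rfl fun k hk => ?_
  rw [Finset.mem_range] at hk
  have h1 : ps.getD k 1 ∈ ps := by
    rw [List.getD_eq_getElem?_getD, List.getElem?_eq_getElem hk]
    exact List.getElem_mem hk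
  have h2 := Nat.mod_lt t (hpos _ h1)
  unfold wti
  by_cases hik : i ≤ k
  · rw [if_pos ⟨hik, h2⟩, if_pos hik]
  · rw [if_neg fun h => hik h.1, if_neg hik]

theorem est_getD {B P m : ℕ} : ∀ (ps : List ℕ) (i t : ℕ), i < ps.length →
    (est B P m ps t).getD i 0 =
      digq B m (ps.getD i 1) ((ps.drop i).map fun q => wq B P (ps.drop i) q (t % q)).sum
  | [], i, _, h => by simp at h
  | p :: ps, 0, t, _ => by rw [est]; rfl
  | p :: ps, i + 1, t, h => by
    rw [est, List.getD_cons_succ, est_getD ps i t (by simpa using h)]
    rfl

/-! ### The program -/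

/-- The instructions: `(0, i, _)` looks at the digit `i`, `(1, i, b)` evaluates a literal,
`(2, _, _)` finishes a clause and the others update the mode. -/
abbrev Tag := ℕ × ℕ × Bool

/-- The control states: mode, is there a digit which is too large, the operation, the value of the
finished clauses, the value of the current clause. -/
abbrev Ctl := Mode × Bool × Option (Bool × ℕ) × Bool × Bool

/-- The operation indicated by one digit. -/
def opd (i d : ℕ) : Option (Bool × ℕ) :=
  if d = 1 then some (false, i) else if d = 3 then some (true, i) else none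

/-- The new mode. -/
def newMode (qs : List Bool) (al : Bool) (op : Option (Bool × ℕ)) (s : Mode) : Mode :=
  op.elim (if s = none then some (al, none) else s) fun o =>
    bif o.1 then closeOp o.2 s else midOp (qs.getD o.2 false) o.2 s

/-- The action of an instruction. -/
def ac (qs : List Bool) (t : Tag) (d : ℕ) (z : Ctl) : Ctl :=
  if t.1 = 0 then (z.1, z.2.1 || decide (3 < d), z.2.2.1.elim (opd t.2.1 d) some, z.2.2.2.1,
    z.2.2.2.2)
  else if t.1 = 1 then (z.1, z.2.1, z.2.2.1, z.2.2.2.1, z.2.2.2.2 || (decide (d = 2) == t.2.2))
  else if t.1 = 2 then (z.1, z.2.1, z.2.2.1, z.2.2.2.1 && z.2.2.2.2, false)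
  else ((bif z.2.1 then z.1 else newMode qs z.2.2.2.1 z.2.2.1 z.1), false, none, true, false)

/-- The program. -/
def prg (m : ℕ) (C : List (List (Bool × ℕ))) : List Tag :=
  (List.range m).map (fun i => ((0, i, false) : Tag)) ++
    (C.flatMap (fun c => c.map (fun l => ((1, l.2, l.1) : Tag)) ++ [((2, 0, false) : Tag)]) ++
      [((3, 0, false) : Tag)])

/-- The operation indicated by a list of digits. -/
def opOf (i : ℕ) : List ℕ → Option (Bool × ℕ)
  | [] => none
  | d :: ds => (opd i d).elim (opOf (i + 1) ds) some

theorem opOf_append (ds : List ℕ) (d : ℕ) : ∀ i, opOf i (ds ++ [d]) =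
    (opOf i ds).elim (opd (i + ds.length) d) some := by
  induction ds with
  | nil => intro i; simp only [List.nil_append, opOf, List.length_nil, Nat.add_zero]
           cases opd i d <;> rfl
  | cons e ds ih =>
    intro i
    rw [List.cons_append, opOf, opOf, ih]
    cases opd i e with
    | none =>
      simp only [Option.elim_none]
      rw [List.length_cons, Nat.add_right_comm, Nat.add_assoc i]
    | some o => rfl

theorem opOf_lt {ds : List ℕ} : ∀ {i : ℕ} {o : Bool × ℕ}, opOf i ds = some o →
    o.2 < i + ds.length := by
  induction ds with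
  | nil => intro i o h; simp [opOf] at h
  | cons d ds ih =>
    intro i o h
    rw [opOf] at h
    unfold opd at h
    split_ifs at h with h1 h2
    · simp at h; rw [← h]; simp
    · simp at h; rw [← h]; simp
    · simp only [Option.elim_none] at h
      have := ih h
      simp; omega

theorem stepD_cons (q : Bool) (qs : List Bool) (φ : List Bool → Bool) (d : ℕ) (ds : List ℕ)
    (i : ℕ) (s : Mode) : stepD (q :: qs) φ (d :: ds) i s = if d = 1 then midOp q i s else
      if d = 3 then closeOp i s else stepD qs (fun v => φ ((d == 2) :: v)) ds (i + 1) s := rfl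

theorem stepD_eq : ∀ (qs : List Bool) (φ : List Bool → Bool) (ds : List ℕ) (i : ℕ) (s : Mode),
    ds.length = qs.length → (∀ d ∈ ds, d ≤ 3) → stepD qs φ ds i s =
      (opOf i ds).elim (if s = none then some (φ (ds.map (fun d => decide (d = 2))), none) else s)
        fun o => bif o.1 then closeOp o.2 s else midOp (qs.getD (o.2 - i) false) o.2 s
  | [], φ, [], i, s, _, _ => by simp [stepD, opOf]
  | [], φ, d :: ds, i, s, h, _ => by simp at h
  | q :: qs, φ, [], i, s, h, _ => by simp at h
  | q :: qs, φ, d :: ds, i, s, h, hd => by
    rw [stepD_cons, opOf]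
    unfold opd
    by_cases h1 : d = 1
    · simp [h1]
    · rw [if_neg h1, if_neg h1]
      by_cases h3 : d = 3
      · simp [h3]
      · rw [if_neg h3, if_neg h3]
        simp only [Option.elim_none]
        rw [stepD_eq qs _ ds (i + 1) s (by simpa using h) (fun d hd' => hd d (by simp [hd']))]
        cases ho : opOf (i + 1) ds with
        | none =>
          simp only [Option.elim_none, List.map_cons]
          rfl
        | some o =>
          simp only [Option.elim_some]
          have h4 : i + 1 ≤ o.2 := by
            clear hd h
            have : ∀ (ds : List ℕ) (j : ℕ) (o : Bool × ℕ), opOf j ds = some o → j ≤ o.2 := by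
              intro ds
              induction ds with
              | nil => intro j o h; simp [opOf] at h
              | cons d ds ih =>
                intro j o h
                rw [opOf] at h
                unfold opd at h
                split_ifs at h with h1 h2
                · simp at h; rw [← h]
                · simp at h; rw [← h]
                · simp only [Option.elim_none] at h
                  have := ih _ _ h
                  omega
            exact this ds _ o ho
          have h5 : o.2 - i = (o.2 - (i + 1)) + 1 := by omega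
          rw [h5, List.getD_cons_succ]

theorem fold_chk (qs : List Bool) (D : ℕ → ℕ) (m : ℕ) (s : Mode) (al cl : Bool) :
    ((List.range m).map (fun i => ((0, i, false) : Tag))).foldl
      (fun z t => ac qs t (D t.2.1) z) (s, false, none, al, cl) =
      (s, decide (∃ i < m, 3 < D i), opOf 0 ((List.range m).map D), al, cl) := by
  induction m with
  | zero => simp [opOf]
  | succ m ih =>
    rw [List.range_succ, List.map_append, List.foldl_append, ih, List.map_append, List.map_singleton,
      List.map_singleton, opOf_append, List.foldl_cons, List.foldl_nil]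
    unfold ac
    simp only [if_true]
    refine Prod.ext rfl (Prod.ext ?_ (Prod.ext ?_ rfl))
    · simp only
      rw [Bool.eq_iff_iff]
      simp only [Bool.or_eq_true, decide_eq_true_eq]
      constructor
      · rintro (⟨i, hi, h⟩ | h)
        · exact ⟨i, by omega, h⟩
        · exact ⟨m, by omega, h⟩
      · rintro ⟨i, hi, h⟩
        rcases Nat.lt_succ_iff_lt_or_eq.1 hi with h' | rfl
        · exact Or.inl ⟨i, h', h⟩
        · exact Or.inr h
    · simp

theorem fold_lits (qs : List Bool) (D : ℕ → ℕ) (c : List (Bool × ℕ)) (s : Mode) (bad al : Bool)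
    (op : Option (Bool × ℕ)) : ∀ cl : Bool, (c.map (fun l => ((1, l.2, l.1) : Tag))).foldl
      (fun z t => ac qs t (D t.2.1) z) (s, bad, op, al, cl) =
      (s, bad, op, al, cl || c.any fun l => decide (D l.2 = 2) == l.1) := by
  induction c with
  | nil => intro cl; simp
  | cons l c ih =>
    intro cl
    rw [List.map_cons, List.foldl_cons]
    have : ac qs ((1, l.2, l.1) : Tag) (D l.2) (s, bad, op, al, cl) =
        (s, bad, op, al, cl || (decide (D l.2 = 2) == l.1)) := by
      unfold ac
      simp
    rw [this, ih, List.any_cons, Bool.or_assoc]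

theorem fold_cls (qs : List Bool) (D : ℕ → ℕ) (C : List (List (Bool × ℕ))) (s : Mode) (bad : Bool)
    (op : Option (Bool × ℕ)) : ∀ al : Bool,
    (C.flatMap (fun c => c.map (fun l => ((1, l.2, l.1) : Tag)) ++ [((2, 0, false) : Tag)])).foldl
      (fun z t => ac qs t (D t.2.1) z) (s, bad, op, al, false) =
      (s, bad, op, al && C.all fun c => c.any fun l => decide (D l.2 = 2) == l.1, false) := by
  induction C with
  | nil => intro al; simp
  | cons c C ih =>
    intro al
    rw [List.flatMap_cons, List.foldl_append, List.foldl_append, fold_lits, List.foldl_cons,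
      List.foldl_nil]
    have : ∀ b : Bool, ac qs ((2, 0, false) : Tag) (D 0) (s, bad, op, al, b) =
        (s, bad, op, al && b, false) := by
      intro b
      unfold ac
      simp
    rw [this, ih, List.all_cons, Bool.false_or, Bool.and_assoc]

theorem fold_prg (qs : List Bool) (C : List (List (Bool × ℕ))) (D : ℕ → ℕ)
    (hwf : QFwf (qs, C)) (s : Mode) :
    (prg qs.length C).foldl (fun z t => ac qs t (D t.2.1) z) (s, false, none, true, false) =
      ((if ∀ d ∈ (List.range qs.length).map D, d ≤ 3 then
        stepD qs (fun v => evc v C) ((List.range qs.length).map D) 0 s else s),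
        false, none, true, false) := by
  unfold prg
  rw [List.foldl_append, fold_chk, List.foldl_append, fold_cls, List.foldl_cons, List.foldl_nil]
  have h3 : ∀ (b : Bool) (o : Option (Bool × ℕ)) (al : Bool),
      ac qs ((3, 0, false) : Tag) (D 0) (s, b, o, al, false) =
        ((bif b then s else newMode qs al o s), false, none, true, false) := by
    intro b o al
    unfold ac
    simp
  rw [h3]
  refine Prod.ext ?_ rfl
  simp only
  by_cases hb : ∀ d ∈ (List.range qs.length).map D, d ≤ 3
  · have hb' : ¬ ∃ i < qs.length, 3 < D i := by
      rintro ⟨i, hi, h⟩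
      have := hb (D i) (List.mem_map.2 ⟨i, List.mem_range.2 hi, rfl⟩)
      omega
    rw [if_pos hb, decide_eq_false hb', cond_false, stepD_eq _ _ _ _ _ (by simp) hb]
    unfold newMode
    congr 1
    have : (true && C.all fun c => c.any fun l => decide (D l.2 = 2) == l.1) =
        evc (((List.range qs.length).map D).map (fun d => decide (d = 2))) C := by
      rw [Bool.true_and]
      unfold evc
      rw [Bool.eq_iff_iff, List.all_eq_true, List.all_eq_true]
      have key : ∀ c ∈ C, (c.any fun l => decide (D l.2 = 2) == l.1) =
          c.any fun l => (((List.range qs.length).map D).map (fun d => decide (d = 2))).getD l.2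
            false == l.1 := by
        intro c hc
        rw [Bool.eq_iff_iff, List.any_eq_true, List.any_eq_true]
        have : ∀ l ∈ c, (((List.range qs.length).map D).map (fun d => decide (d = 2))).getD l.2
            false = decide (D l.2 = 2) := by
          intro l hl
          have := hwf c hc l hl
          rw [List.map_map, getD_range_map, if_pos this]
          rfl
        constructor
        · rintro ⟨l, hl, h⟩
          exact ⟨l, hl, by rw [this l hl]; exact h⟩
        · rintro ⟨l, hl, h⟩
          exact ⟨l, hl, by rw [this l hl] at h; exact h⟩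
      constructor
      · intro h c hc
        rw [← key c hc]
        exact h c hc
      · intro h c hc
        rw [key c hc]
        exact h c hc
    rw [this]
  · have hb' : ∃ i < qs.length, 3 < D i := by
      push Not at hb
      obtain ⟨d, hd, h⟩ := hb
      rw [List.mem_map] at hd
      obtain ⟨i, hi, rfl⟩ := hd
      exact ⟨i, List.mem_range.1 hi, h⟩
    rw [if_neg hb, decide_eq_true hb', cond_true]

end Pool.Agent.W995.PN
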