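import Pool.Agent.W995.PN.Prog

/-!
# The automaton which evaluates a quantified formula
-/

namespace Pool.Agent.W995.PN

open Pool.Agent.NPC Pool.Agent.H623R2.PS Pool.Agent.H656R2.AK

/-- The digit which is computed at the time `u`. -/
def Du (B P : ℕ) (ps : List ℕ) (u i : ℕ) : ℕ :=
  digq B ps.length (ps.getD i 1) (∑ k ∈ Finset.range ps.length, wti B P ps i k (u % ps.getD k 1))

/-- The initial control state. -/
def z0 : Ctl := (none, false, none, true, false)

/-- The weights. -/
def wtT (B P : ℕ) (ps : List ℕ) (t : Tag) (k a : ℕ) : ℕ := wti B P ps t.2.1 k a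

/-- The digits. -/
def dgT (B : ℕ) (ps : List ℕ) (t : Tag) (s : ℕ) : ℕ := digq B ps.length (ps.getD t.2.1 1) s

theorem range_map_Du {B P : ℕ} {ps : List ℕ} (hpos : ∀ q ∈ ps, 0 < q) (u : ℕ) :
    (List.range ps.length).map (Du B P ps u) = est B P ps.length ps u := by
  apply List.ext_getElem?
  intro i
  by_cases hi : i < ps.length
  · rw [List.getElem?_map, List.getElem?_range hi, Option.map_some]
    have h1 := est_getD (B := B) (P := P) (m := ps.length) ps i u hi
    rw [List.getD_eq_getElem?_getD, List.getElem?_eq_getElem (by rw [est_length]; exact hi)] at h1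
    rw [List.getElem?_eq_getElem (by rw [est_length]; exact hi)]
    simp only [Option.getD_some] at h1
    rw [h1]
    unfold Du
    rw [sum_wti hpos]
  · rw [List.getElem?_eq_none (by simp; omega), List.getElem?_eq_none (by rw [est_length]; omega)]

theorem round_eq {B P : ℕ} {ps : List ℕ} {qs : List Bool} {C : List (List (Bool × ℕ))}
    (hlen : ps.length = qs.length) (hwf : QFwf (qs, C)) (hB : 5 * ps.length * P < B)
    (hc : ps.Pairwise Nat.Coprime) (h5 : ∀ q ∈ ps, 5 ≤ q) (hP : ∀ q ∈ ps, q ≤ P) (u : ℕ)
    (hu : u < ps.prod) (s : Mode) :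
    round (wtT B P ps) (dgT B ps) (ac qs) (prg qs.length C) ps.length ps u (s, false, none, true,
      false) = (act qs (fun v => evc v C) ps 0 s u, false, none, true, false) := by
  have hpos : ∀ q ∈ ps, 0 < q := fun q hq => by have := h5 q hq; omega
  have h1 := fold_prg qs C (Du B P ps u) hwf s
  have h2 : round (wtT B P ps) (dgT B ps) (ac qs) (prg qs.length C) ps.length ps u (s, false, none,
      true, false) = (prg qs.length C).foldl (fun z t => ac qs t (Du B P ps u t.2.1) z)
        (s, false, none, true, false) := rfl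
  rw [h2, h1]
  refine Prod.ext ?_ rfl
  simp only
  rw [← hlen, range_map_Du hpos]
  have hd : digm ps u = dig ps u := by rw [← dig_mod_eq, Nat.mod_eq_of_lt hu]
  have h3 := est_eq hB ps u hc h5 hP le_rfl
  rw [hd] at h3
  unfold act
  by_cases h4 : ∀ d ∈ est B P ps.length ps u, d ≤ 3
  · rw [if_pos h4]
    have h5 := h3 (Or.inl h4)
    rw [h5] at h4 ⊢
    rw [if_pos h4]
  · rw [if_neg h4]
    by_cases h6 : ∀ d ∈ dig ps u, d ≤ 3
    · have h5 := h3 (Or.inr h6)
      rw [← h5] at h6
      exact absurd h6 h4
    · rw [if_neg h6]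

theorem rounds_eq {B P : ℕ} {ps : List ℕ} {qs : List Bool} {C : List (List (Bool × ℕ))}
    (hlen : ps.length = qs.length) (hwf : QFwf (qs, C)) (hB : 5 * ps.length * P < B)
    (hc : ps.Pairwise Nat.Coprime) (h5 : ∀ q ∈ ps, 5 ≤ q) (hP : ∀ q ∈ ps, q ≤ P) :
    (List.range ps.prod).foldl (fun z u => round (wtT B P ps) (dgT B ps) (ac qs)
      (prg qs.length C) ps.length ps u z) z0 =
        (some (evq qs (fun v => evc v C), none), false, none, true, false) := by
  have key : ∀ (l : List ℕ), (∀ u ∈ l, u < ps.prod) → ∀ s : Mode,
      l.foldl (fun z u => round (wtT B P ps) (dgT B ps) (ac qs)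
      (prg qs.length C) ps.length ps u z) (s, false, none, true, false) =
        (l.foldl (act qs (fun v => evc v C) ps 0) s, false, none, true, false) := by
    intro l
    induction l with
    | nil => intro _ s; rfl
    | cons u l ih =>
      intro hl s
      rw [List.foldl_cons, List.foldl_cons, round_eq hlen hwf hB hc h5 hP u (hl u (by simp)) s]
      exact ih (fun v hv => hl v (by simp [hv])) _
  unfold z0
  rw [key _ (fun u hu => List.mem_range.1 hu)]
  have := (runD_spec ps qs (fun v => evc v C) 0 hlen
    (fun p hp => by have := h5 p hp; omega)).1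
  unfold runD at this
  rw [this]

/-! ### The states -/

/-- The modes. -/
def modes (m : ℕ) : List Mode :=
  none :: ([false, true] ×ˢ (none :: (List.range m).map some)).map some

/-- The operations. -/
def opsL (m : ℕ) : List (Option (Bool × ℕ)) := none :: ([false, true] ×ˢ List.range m).map some

/-- The control states. -/
def ctls (m : ℕ) : List Ctl :=
  modes m ×ˢ ([false, true] ×ˢ (opsL m ×ˢ ([false, true] ×ˢ [false, true])))

/-- The states. -/
def stsL (m L Sm : ℕ) : List (ℕ × ℕ × Ctl) := List.range L ×ˢ (List.range (Sm + 1) ×ˢ ctls m)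

theorem mem_sprod {α β : Type} {l : List α} {l' : List β} {p : α × β} :
    p ∈ l ×ˢ l' ↔ p.1 ∈ l ∧ p.2 ∈ l' := by
  obtain ⟨a, b⟩ := p
  exact List.pair_mem_product

theorem mem_bools (b : Bool) : b ∈ [false, true] := by cases b <;> simp

theorem mem_modes {m : ℕ} {s : Mode} : s ∈ modes m ↔ ∀ v j, s = some (v, some j) → j < m := by
  unfold modes
  rw [List.mem_cons]
  constructor
  · rintro (rfl | h) v j hs
    · simp at hs
    · subst hs
      simp only [List.mem_map] at h
      obtain ⟨p, hp, hp'⟩ := h
      rw [mem_sprod] at hp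
      simp only [Option.some.injEq] at hp'
      subst hp'
      simpa using hp.2
  · intro h
    rcases s with _ | ⟨v, _ | j⟩
    · exact Or.inl rfl
    · refine Or.inr (List.mem_map.2 ⟨(v, none), ?_, rfl⟩)
      rw [mem_sprod]
      exact ⟨mem_bools v, by simp⟩
    · refine Or.inr (List.mem_map.2 ⟨(v, some j), ?_, rfl⟩)
      rw [mem_sprod]
      refine ⟨mem_bools v, ?_⟩
      have := h v j rfl
      simp [this]

theorem mem_opsL {m : ℕ} {o : Option (Bool × ℕ)} : o ∈ opsL m ↔ ∀ p, o = some p → p.2 < m := by
  unfold opsL
  rw [List.mem_cons]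
  constructor
  · rintro (rfl | h) p hs
    · simp at hs
    · subst hs
      simp only [List.mem_map] at h
      obtain ⟨p', hp, hp'⟩ := h
      rw [mem_sprod] at hp
      simp only [Option.some.injEq] at hp'
      subst hp'
      simpa using hp.2
  · intro h
    rcases o with _ | ⟨v, j⟩
    · exact Or.inl rfl
    · refine Or.inr (List.mem_map.2 ⟨(v, j), ?_, rfl⟩)
      rw [mem_sprod]
      have := h _ rfl
      exact ⟨mem_bools v, by simpa using this⟩

theorem mem_ctls {m : ℕ} {z : Ctl} : z ∈ ctls m ↔ z.1 ∈ modes m ∧ z.2.2.1 ∈ opsL m := by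
  unfold ctls
  obtain ⟨s, b, o, a, c⟩ := z
  rw [mem_sprod, mem_sprod, mem_sprod, mem_sprod]
  have h1 := mem_bools a
  have h2 := mem_bools b
  have h3 := mem_bools c
  constructor
  · rintro ⟨h, _, h', _⟩; exact ⟨h, h'⟩
  · rintro ⟨h, h'⟩; exact ⟨h, h2, h', h1, h3⟩

theorem mem_prg {m : ℕ} {C : List (List (Bool × ℕ))} {t : Tag} (h : t ∈ prg m C) :
    (t.1 = 0 → t.2.1 < m) := by
  unfold prg at h
  simp only [List.mem_append, List.mem_map, List.mem_range, List.mem_flatMap,
    List.mem_singleton] at h
  rintro h0
  rcases h with ⟨i, hi, rfl⟩ | ⟨c, _, ⟨l, _, rfl⟩ | rfl⟩ | rfl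
  · exact hi
  · simp at h0
  · simp at h0
  · simp at h0

theorem ac_mem {qs : List Bool} {m : ℕ} {t : Tag} (ht : t.1 = 0 → t.2.1 < m) (d : ℕ) {z : Ctl}
    (hz : z ∈ ctls m) : ac qs t d z ∈ ctls m := by
  rw [mem_ctls] at hz ⊢
  obtain ⟨h1, h2⟩ := hz
  obtain ⟨s, b, o, a, c⟩ := z
  simp only at h1 h2
  unfold ac
  split_ifs with t0 t1 t2
  · refine ⟨h1, ?_⟩
    simp only
    cases o with
    | none =>
      simp only [Option.elim_none]
      rw [mem_opsL]
      intro p hp
      unfold opd at hp
      split_ifs at hp
      · simp at hp; rw [← hp]; exact ht t0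
      · simp at hp; rw [← hp]; exact ht t0
    | some o => exact h2
  · exact ⟨h1, h2⟩
  · exact ⟨h1, h2⟩
  · refine ⟨?_, by simp [opsL]⟩
    simp only
    cases b with
    | true => exact h1
    | false =>
      simp only [cond_false]
      unfold newMode
      cases o with
      | none =>
        simp only [Option.elim_none]
        split_ifs with hs
        · rw [mem_modes]; intro v j hv; simp at hv
        · exact h1
      | some o =>
        obtain ⟨o1, o2⟩ := o
        have ho : o2 < m := mem_opsL.1 h2 _ rfl
        simp only [Option.elim_some]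
        rw [mem_modes] at h1 ⊢
        cases o1 with
        | true =>
          simp only [cond_true]
          rcases s with _ | ⟨v, _ | j⟩
          · intro v j h; simp [closeOp] at h
          · intro v j h; simp [closeOp] at h
          · intro v' j' h
            simp only [closeOp] at h
            split_ifs at h with hh
            · simp at h
            · simp only [Option.some.injEq, Prod.mk.injEq] at h
              rw [← h.2]
              exact h1 v j rfl
        | false =>
          simp only [cond_false]
          rcases s with _ | ⟨v, _ | j⟩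
          · intro v j h; simp [midOp] at h
          · intro v' j' h
            simp only [midOp] at h
            split_ifs at h with hh
            · simp only [Option.some.injEq, Prod.mk.injEq] at h
              rw [← h.2]
              exact ho
          · intro v' j' h
            simp only [midOp, Option.some.injEq, Prod.mk.injEq] at h
            rw [← h.2]
            exact h1 v j rfl

end Pool.Agent.W995.PN
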