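import Pool.Agent.W995.PN.Red

/-!
# The instance of the prediction problem
-/

namespace Pool.Agent.W995.PN

open Pool.Agent.NPC Pool.Agent.H623R2.PS Pool.Agent.H656R2.AK

/-- The transitions of the automaton. -/
def NX (B P : ℕ) (ps : List ℕ) (Q : QF) : (ℕ × ℕ × Ctl) → Bool → (ℕ × ℕ × Ctl) :=
  nxP (wtT B P ps) (dgT B ps) (ac Q.1) (prg Q.1.length Q.2) ((3, 0, false) : Tag) ps.length P
    (ps.length * B)

/-- The length of a round. -/
def LL (P : ℕ) (Q : QF) : ℕ := (prg Q.1.length Q.2).length * (Q.1.length * P)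

/-- The states of the automaton. -/
def SS (B P : ℕ) (Q : QF) : List (ℕ × ℕ × Ctl) := stsL Q.1.length (LL P Q) (Q.1.length * B)

/-- The accepting states. -/
def AC (s : ℕ × ℕ × Ctl) : Bool := decide (s.2.2.1 = some (true, none))

theorem mem_SS {B P : ℕ} {Q : QF} {s : ℕ × ℕ × Ctl} : s ∈ SS B P Q ↔
    s.1 < LL P Q ∧ s.2.1 ≤ Q.1.length * B ∧ s.2.2 ∈ ctls Q.1.length := by
  unfold SS stsL
  rw [mem_sprod, mem_sprod, List.mem_range, List.mem_range]
  constructor
  · rintro ⟨h1, h2, h3⟩; exact ⟨h1, by omega, h3⟩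
  · rintro ⟨h1, h2, h3⟩; exact ⟨h1, by omega, h3⟩

theorem prg_length_pos (m : ℕ) (C : List (List (Bool × ℕ))) : 0 < (prg m C).length := by
  unfold prg
  simp

theorem NX_mem {B P : ℕ} {ps : List ℕ} {Q : QF} (hlen : ps.length = Q.1.length)
    (hm : 0 < Q.1.length) (hP : 0 < P) {s : ℕ × ℕ × Ctl} (hs : s ∈ SS B P Q) (b : Bool) :
    NX B P ps Q s b ∈ SS B P Q := by
  rw [mem_SS] at hs ⊢
  obtain ⟨h1, _, h3⟩ := hs
  have hL : 0 < LL P Q := by omega
  have hLp : Lp (prg Q.1.length Q.2) ps.length P = LL P Q := by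
    unfold Lp LL; rw [hlen]
  have hq : (prg Q.1.length Q.2).getD (s.1 / (ps.length * P)) ((3, 0, false) : Tag) ∈
      prg Q.1.length Q.2 := by
    have hlt : s.1 / (ps.length * P) < (prg Q.1.length Q.2).length := by
      rw [Nat.div_lt_iff_lt_mul (by rw [hlen]; exact Nat.mul_pos hm hP), hlen]
      exact h1
    rw [List.getD_eq_getElem?_getD, List.getElem?_eq_getElem hlt]
    exact List.getElem_mem hlt
  unfold NX nxP
  rw [hLp]
  split_ifs
  · exact ⟨Nat.mod_lt _ hL, Nat.zero_le _, ac_mem (mem_prg hq) _ h3⟩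
  · refine ⟨Nat.mod_lt _ hL, ?_, h3⟩
    unfold newS
    rw [hlen]
    exact min_le_right _ _

theorem wq_le {B P : ℕ} {qs : List ℕ} {q a : ℕ} (hq : 0 < q) : wq B P qs q a ≤ B := by
  unfold wq
  apply Nat.div_le_of_le_mul
  rw [Nat.mul_comm]
  exact Nat.mul_le_mul_right _ (Nat.mod_lt _ hq).le

theorem wti_le {B P : ℕ} {ps : List ℕ} {i k a : ℕ} : wti B P ps i k a ≤ B := by
  unfold wti
  split_ifs with h
  · exact wq_le (by omega)
  · exact Nat.zero_le _

theorem PH_prg {B P : ℕ} {ps : List ℕ} {Q : QF} (hlen : ps.length = Q.1.length)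
    (hm : 0 < Q.1.length) (hP0 : 0 < P) (h5 : ∀ q ∈ ps, 5 ≤ q) (hP : ∀ q ∈ ps, q ≤ P) :
    PH (wtT B P ps) (prg Q.1.length Q.2) ps.length P (ps.length * B) ps where
  Qpos := prg_length_pos _ _
  Kpos := by rw [hlen]; exact hm
  Ppos := hP0
  hps := by
    intro k hk
    have h1 : ps.getD k 1 ∈ ps := by
      rw [List.getD_eq_getElem?_getD, List.getElem?_eq_getElem hk]
      exact List.getElem_mem hk
    exact ⟨by have := h5 _ h1; omega, hP _ h1⟩
  w0 := by
    intro q _ k _ a ha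
    unfold wtT wti
    rw [if_neg (by omega)]
  sm := by
    intro q _ u
    unfold qsum
    refine (Finset.sum_le_card_nsmul _ _ B fun k _ => wti_le).trans ?_
    simp

section

variable {G : Type} [Group G] [Fintype G] (e : Fin (Fintype.card G) ≃ G)

/-- The instance which belongs to a quantified formula. -/
noncomputable def instQ (c m c1 gc yc B P : ℕ) (ps : List ℕ) (Q : QF) : Inst :=
  netI c m c1 gc yc (rowsOf (SS B P Q) (testP ps.length P) (NX B P ps Q)) ((SS B P Q).map AC) ps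
    (LL P Q) (P * LL P Q) ps.prod (index (SS B P Q) ((0, 0, z0) : ℕ × ℕ × Ctl))

theorem PRED_instQ {g y : G} {m : ℕ} (hy1 : y ≠ 1) (hy : (cm g)^[m + 1] y = y) {B P : ℕ}
    {ps : List ℕ} {Q : QF} (hwf : QFwf Q) (hlen : ps.length = Q.1.length) (hm : 0 < Q.1.length)
    (hP0 : 0 < P) (hB : 5 * ps.length * P < B) (hc : ps.Pairwise Nat.Coprime)
    (h5 : ∀ q ∈ ps, 5 ≤ q) (hP : ∀ q ∈ ps, q ≤ P) :
    PRED e (instQ (Fintype.card G - 1) m (code e 1) (code e g) (code e y) B P ps Q) ↔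
      evq Q.1 (fun v => evc v Q.2) = true := by
  have hL : 0 < LL P Q := by
    unfold LL
    exact Nat.mul_pos (prg_length_pos _ _) (Nat.mul_pos hm hP0)
  have h0 : ((0, 0, z0) : ℕ × ℕ × Ctl) ∈ SS B P Q := by
    rw [mem_SS]
    refine ⟨hL, Nat.zero_le _, ?_⟩
    rw [mem_ctls]
    exact ⟨by simp [z0, modes], by simp [z0, opsL]⟩
  have hcl : ∀ s ∈ SS B P Q, ∀ b, NX B P ps Q s b ∈ SS B P Q := fun s hs b =>
    NX_mem hlen hm hP0 hs b
  have hfits : Fits (rowsOf (SS B P Q) (testP ps.length P) (NX B P ps Q)) ((SS B P Q).map AC) ps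
      (LL P Q) (P * LL P Q) ps.prod := by
    refine ⟨by simp [rowsOf], hL, fun p hp => List.dvd_prod hp, fun p hp => by
      have := h5 p hp; omega, fun p hp => Nat.mul_le_mul_right _ (hP p hp), ?_⟩
    intro r hr
    unfold rowsOf at hr
    rw [List.mem_map] at hr
    obtain ⟨s, hs, rfl⟩ := hr
    have hlenr : (rowsOf (SS B P Q) (testP ps.length P) (NX B P ps Q)).length =
        (SS B P Q).length := by simp [rowsOf]
    rw [hlenr]
    refine ⟨?_, ?_, index_lt (hcl s hs false), index_lt (hcl s hs true)⟩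
    · simp only [testP]
      exact Nat.mod_lt _ (by omega)
    · simp only [testP]
      exact Nat.mul_lt_mul_of_pos_right (Nat.mod_lt _ hP0) hL
  unfold instQ
  rw [PRED_netI e hy1 hy hfits (by
    have hlenr : (rowsOf (SS B P Q) (testP ps.length P) (NX B P ps Q)).length =
        (SS B P Q).length := by simp [rowsOf]
    rw [hlenr]
    exact index_lt h0)]
  obtain ⟨r1, r2⟩ := runA_index (test := testP ps.length P) hcl ps (LL P Q) (LL P Q * ps.prod) 0 _ h0
  rw [r2, acc_index AC r1]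
  have hLp : LL P Q = Lp (prg Q.1.length Q.2) ps.length P := by
    unfold Lp LL; rw [hlen]
  have hrun := run_rounds (q0 := ((3, 0, false) : Tag)) (dg := dgT B ps) (ac := ac Q.1)
    (PH_prg (B := B) (Q := Q) hlen hm hP0 h5 hP) ps.prod z0
  rw [rounds_eq hlen hwf hB hc h5 hP] at hrun
  have hrun' : runS (testP ps.length P) (NX B P ps Q) ps (LL P Q) (LL P Q * ps.prod) 0
      (0, 0, z0) = (0, 0, (some (evq Q.1 (fun v => evc v Q.2), none), false, none, true,
        false)) := by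
    rw [hLp]
    exact hrun
  rw [hrun']
  unfold AC
  simp

end

end Pool.Agent.W995.PN
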